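import Pool.Agent.Lib.MP_b525bf_ag_E.Defs

/-!
# Theorem EL, row ADPR

Recipe. Copy `exists_adapt` (`MP_b525bf_ag_E/ADP.lean`) with `Y := T.image p ∪ T.image q ∪ Y₀`.
All `dv a b` are in `D1` there.
-/

set_option autoImplicit false
set_option linter.unusedVariables false

namespace Pool.Agent.MP_b525bf_ag_EL

open Pool.Agent.LU2 Pool.Agent.MP_b525bf_ag Pool.Agent.MP_b525bf_ag_W Pool.Agent.MP_b525bf_ag_E

variable {k K : Type} [Field k] [Field K] [Algebra k K] {G : Subgroup (K ≃ₐ[k] K)}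
  {A : Subalgebra k K}

theorem exists_adaptL (h : Hyp G A) {m : ℕ} {n : Fin m → ℕ} {R : Fin m → Subalgebra k K}
    {x : ∀ i, Fin (n i) → K} (hR : ∀ i, Good G A (R i) (x i)) (Y₀ : Finset K)
    (hY₀ : ∀ y ∈ Y₀, y ∈ A ∧ y ≠ 0) :
    ∃ (N : ℕ) (f : Fin N → K) (D : Set (Fin N → ℤ)), D.Finite ∧ (∀ j, f j ∈ A) ∧
      (∀ j, f j ≠ 0) ∧ (∀ i, Adapt G A (R i) (x i) f D) ∧ (∀ y ∈ Y₀, ∃ j, f j = y) ∧
      ∀ a b, dv a b ∈ D := by
  classical
  -- numerators and denominators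
  have hpq : ∀ t : K, ∃ p q : K, t ≠ 0 → p ∈ A ∧ q ∈ A ∧ p ≠ 0 ∧ q ≠ 0 ∧ t = p / q := by
    intro t
    obtain ⟨p, hp, q, hq, hq0, ht⟩ := h.frac t
    refine ⟨p, q, fun ht0 => ⟨hp, hq, ?_, hq0, ht⟩⟩
    rintro rfl
    exact ht0 (by rw [ht, zero_div])
  choose p q hpq using hpq
  have hF := fun i => (hR i).frac
  choose F hFR hF using hF
  obtain ⟨T, hT⟩ : ∃ T : Finset K, T = (Finset.univ : Finset (Fin m)).biUnion
    (fun i => (Finset.univ : Finset (Fin (n i))).image (x i) ∪ (F i).filter (· ≠ 0)) := ⟨_, rfl⟩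
  have hT0 : ∀ t ∈ T, t ≠ 0 := by
    intro t ht
    rw [hT, Finset.mem_biUnion] at ht
    obtain ⟨i, -, hi⟩ := ht
    rw [Finset.mem_union] at hi
    rcases hi with hi | hi
    · rw [Finset.mem_image] at hi
      obtain ⟨l, -, hl⟩ := hi
      rw [← hl]
      exact (hR i).ne l
    · exact (Finset.mem_filter.1 hi).2
  have hxT : ∀ i l, x i l ∈ T := by
    intro i l
    rw [hT, Finset.mem_biUnion]
    exact ⟨i, Finset.mem_univ _, Finset.mem_union_left _
      (Finset.mem_image_of_mem _ (Finset.mem_univ _))⟩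
  have hFT : ∀ i, ∀ c ∈ F i, c ≠ 0 → c ∈ T := by
    intro i c hc hc0
    rw [hT, Finset.mem_biUnion]
    exact ⟨i, Finset.mem_univ _, Finset.mem_union_right _ (Finset.mem_filter.2 ⟨hc, hc0⟩)⟩
  obtain ⟨Y, hY⟩ : ∃ Y : Finset K, Y = T.image p ∪ T.image q ∪ Y₀ := ⟨_, rfl⟩
  have hpY : ∀ t ∈ T, p t ∈ Y := by
    intro t ht
    rw [hY]
    exact Finset.mem_union_left _ (Finset.mem_union_left _ (Finset.mem_image_of_mem _ ht))
  have hqY : ∀ t ∈ T, q t ∈ Y := by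
    intro t ht
    rw [hY]
    exact Finset.mem_union_left _ (Finset.mem_union_right _ (Finset.mem_image_of_mem _ ht))
  have hYA : ∀ y ∈ Y, y ∈ A ∧ y ≠ 0 := by
    intro y hy
    rw [hY, Finset.mem_union, Finset.mem_union, Finset.mem_image, Finset.mem_image] at hy
    rcases hy with (⟨t, ht, rfl⟩ | ⟨t, ht, rfl⟩) | hy
    · have := hpq t (hT0 t ht)
      exact ⟨this.1, this.2.2.1⟩
    · have := hpq t (hT0 t ht)
      exact ⟨this.2.1, this.2.2.2.1⟩
    · exact hY₀ y hy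
  obtain ⟨f, hf⟩ : ∃ f : Fin Y.card → K, f = fun j => ((Y.equivFin.symm j : Y) : K) := ⟨_, rfl⟩
  have hfY : ∀ j, f j ∈ Y := by
    intro j
    rw [hf]
    exact (Y.equivFin.symm j).2
  have hidx : ∀ y ∈ Y, ∃ j, f j = y := by
    intro y hy
    refine ⟨Y.equivFin ⟨y, hy⟩, ?_⟩
    rw [hf]
    show ((Y.equivFin.symm (Y.equivFin ⟨y, hy⟩) : Y) : K) = y
    rw [Equiv.symm_apply_apply]
  have hP : ∀ i, ∀ l : Fin (n i), ∃ j, f j = p (x i l) := fun i l => hidx _ (hpY _ (hxT i l))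
  have hQ : ∀ i, ∀ l : Fin (n i), ∃ j, f j = q (x i l) := fun i l => hidx _ (hqY _ (hxT i l))
  choose P hP using hP
  choose Q hQ using hQ
  have hfA : ∀ j, f j ∈ A := fun j => (hYA _ (hfY j)).1
  have hf0 : ∀ j, f j ≠ 0 := fun j => (hYA _ (hfY j)).2
  have hmono := fun i j => (hR i).mono (f j) ((hR i).le (hfA j)) (hf0 j)
  choose S c hrep hW using hmono
  obtain ⟨D1, hD1⟩ : ∃ D1 : Set (Fin Y.card → ℤ),
    D1 = Set.range (fun pq : Fin Y.card × Fin Y.card => dv pq.1 pq.2) := ⟨_, rfl⟩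
  obtain ⟨D2, hD2⟩ : ∃ D2 : Set (Fin Y.card → ℤ),
    D2 = ⋃ ij : Fin m × Fin Y.card, ((fun α : Fin (n ij.1) → ℕ =>
      ev (P ij.1) (Q ij.1) (zx α) - Pi.single ij.2 1) '' (S ij.1 ij.2 : Set (Fin (n ij.1) → ℕ))) :=
    ⟨_, rfl⟩
  have hdv : ∀ a b, dv a b ∈ D1 ∪ D2 := by
    intro a b
    left
    rw [hD1]
    exact ⟨(a, b), rfl⟩
  refine ⟨Y.card, f, D1 ∪ D2, ?_, hfA, hf0, ?_, fun y hy => hidx y ?_, hdv⟩
  · apply Set.Finite.union
    · rw [hD1]
      exact Set.finite_range _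
    · rw [hD2]
      exact Set.finite_iUnion fun ij => (S ij.1 ij.2).finite_toSet.image _
  · intro i
    constructor
    · refine ⟨P i, Q i, ?_, fun l => hdv _ _, ?_⟩
      · intro l
        rw [hP, hQ]
        exact (hpq _ (hT0 _ (hxT i l))).2.2.2.2
      · intro j
        refine ⟨S i j, c i j, hrep i j, hW i j, ?_⟩
        intro α hα
        right
        rw [hD2, Set.mem_iUnion]
        exact ⟨(i, j), α, hα, rfl⟩
    · refine ⟨(F i).filter (· ≠ 0), ?_, ?_, ?_⟩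
      · intro y hy
        exact hFR i (Finset.mem_filter.1 hy).1
      · intro y hy
        obtain ⟨hy1, hy2⟩ := Finset.mem_filter.1 hy
        have hyT := hFT i y hy1 hy2
        obtain ⟨a, ha⟩ := hidx _ (hpY y hyT)
        obtain ⟨b, hb⟩ := hidx _ (hqY y hyT)
        refine ⟨a, b, ?_, hdv _ _⟩
        rw [ha, hb]
        exact (hpq y hy2).2.2.2.2
      · have hadj : Algebra.adjoin k ((F i : Finset K) : Set K) ≤
            Algebra.adjoin k (((F i).filter (· ≠ 0) : Finset K) : Set K) := by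
          rw [Algebra.adjoin_le_iff]
          intro y hy
          by_cases hy0 : y = 0
          · rw [hy0]
            exact Subalgebra.zero_mem _
          · exact Algebra.subset_adjoin (Finset.mem_coe.2 (Finset.mem_filter.2 ⟨hy, hy0⟩))
        intro y hy
        obtain ⟨a, ha, b, hb, h1, h2, h3⟩ := hF i y hy
        exact ⟨a, hadj ha, b, hadj hb, h1, h2, h3⟩
  · rw [hY]
    exact Finset.mem_union_right _ hy

end Pool.Agent.MP_b525bf_ag_EL
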