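import Pool.Agent.Lib.MP_b525bf_ag_EL.REL
import Pool.Agent.Lib.MP_b525bf_ag_E.TW

/-!
# Theorem EL, row TWR

Recipe. Copy the proof of `tw_smooth` (`MP_b525bf_ag_E/TW.lean`), for `LSm`: the lemma
`MP_b525bf_ag_P.smooth_gamHom M f hf` is already for an arbitrary formally smooth
`f : MvPolynomial σ k →ₐ[k] M.alg` (`tw_lau_smooth` uses it for `σ = Empty`); take
`f = pol M e y h` and compose with the formally smooth
`MvPolynomial σ k → AddMonoidAlgebra (MvPolynomial σ k) ℤ` (`MP_b525bf_ag_P.smooth_laurent`).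
Reindexing: `LSm.of_equiv`.
-/

set_option autoImplicit false
set_option linter.unusedVariables false

namespace Pool.Agent.MP_b525bf_ag_EL

open Pool.Agent.LU2 Pool.Agent.MP_b525bf_ag Pool.Agent.MP_b525bf_ag_W Pool.Agent.MP_b525bf_ag_E

variable {k K ι σ : Type} [Field k] [Field K] [Algebra k K] [AddCommGroup ι]

/-- Restriction of an isomorphism of algebras to subalgebras. -/
private noncomputable def twrRestr {X Y : Type} [CommRing X] [CommRing Y] [Algebra k X]
    [Algebra k Y] (Φ : X ≃ₐ[k] Y) (S : Subalgebra k X) (T : Subalgebra k Y)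
    (h : ∀ x, x ∈ S ↔ Φ x ∈ T) : S ≃ₐ[k] T :=
  AlgEquiv.ofBijective ((Φ.toAlgHom.comp S.val).codRestrict T fun x => (h x).1 x.2) (by
    constructor
    · intro x y hxy
      apply Subtype.ext
      apply Φ.injective
      exact congrArg Subtype.val hxy
    · intro y
      refine ⟨⟨Φ.symm y, (h _).2 ?_⟩, ?_⟩
      · rw [AlgEquiv.apply_symm_apply]
        exact y.2
      · apply Subtype.ext
        exact Φ.apply_symm_apply _)

private theorem twrRestr_coe {X Y : Type} [CommRing X] [CommRing Y] [Algebra k X]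
    [Algebra k Y] (Φ : X ≃ₐ[k] Y) (S : Subalgebra k X) (T : Subalgebra k Y)
    (h : ∀ x, x ∈ S ↔ Φ x ∈ T) (x : S) : ((twrRestr Φ S T h x : T) : Y) = Φ x := rfl

/-- Reindexing of families. -/
private theorem twr_comap_equiv {ι' : Type} [AddCommGroup ι'] (g : ι' ≃+ ι) {M : Fam k K ι}
    {e : σ → ι} {y : σ → K} (h : LSm M e y) :
    LSm (M.comap (g : ι' →+ ι)) (fun i => g.symm (e i)) y := by
  have hm : ∀ F : AddMonoidAlgebra K ι', F ∈ (M.comap (g : ι' →+ ι)).alg ↔
      AddMonoidAlgebra.domCongr k K g F ∈ M.alg := by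
    intro F
    rw [Fam.mem_alg, Fam.mem_alg]
    constructor
    · intro h a
      have := h (g.symm a)
      rw [Fam.comap_s] at this
      simpa using this
    · intro h a
      have := h (g a)
      rw [Fam.comap_s]
      simpa using this
  obtain ⟨h1, h2⟩ := id h
  have h' : ∀ i, y i ∈ (M.comap (g : ι' →+ ι)).s (g.symm (e i)) := by
    intro i
    rw [Fam.comap_s]
    simpa using h1 i
  refine LSm.of_equiv h (twrRestr (AddMonoidAlgebra.domCongr k K g) _ _ hm).symm h' ?_
  intro i hi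
  rw [AlgEquiv.symm_apply_eq]
  apply Subtype.ext
  rw [twrRestr_coe]
  change AddMonoidAlgebra.single (e i) (y i) =
    AddMonoidAlgebra.domCongr k K g (AddMonoidAlgebra.single (g.symm (e i)) (y i))
  rw [AddMonoidAlgebra.domCongr_single]
  simp

/-- One variable. -/
private theorem twr_lau {M : Fam k K ι} {e : σ → ι} {y : σ → K} (h : LSm M e y) :
    LSm (MP_b525bf_ag_P.lau M) (fun i => (e i, (0 : ℤ))) y := by
  obtain ⟨h1, h2⟩ := h
  have h1' : ∀ i, y i ∈ (MP_b525bf_ag_P.lau M).s (e i, (0 : ℤ)) := h1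
  refine ⟨h1', ?_⟩
  have h3 := (MP_b525bf_ag_P.smooth_laurent (MvPolynomial σ k)).comp
    (MP_b525bf_ag_P.smooth_gamHom M (pol M e y h1) h2)
  have h4 : (MP_b525bf_ag_P.gamHom M (pol M e y h1)).comp
      (AddMonoidAlgebra.singleZeroRingHom : MvPolynomial σ k →+*
        AddMonoidAlgebra (MvPolynomial σ k) ℤ) =
      (pol (MP_b525bf_ag_P.lau M) (fun i => (e i, (0 : ℤ))) y h1').toRingHom := by
    have h0 : ∀ r : MvPolynomial σ k, (MP_b525bf_ag_P.gamHom M (pol M e y h1))
        ((AddMonoidAlgebra.singleZeroRingHom : MvPolynomial σ k →+*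
        AddMonoidAlgebra (MvPolynomial σ k) ℤ) r) =
        inclAlg (inlZ ι) (MP_b525bf_ag_P.le_lau M) (pol M e y h1 r) := by
      intro r
      change MP_b525bf_ag_P.gamHom M (pol M e y h1) (AddMonoidAlgebra.single 0 r) = _
      rw [MP_b525bf_ag_P.gamHom_single]
      have : (MP_b525bf_ag_P.lau M).el (MP_b525bf_ag_P.one_lau M 0) = 1 := rfl
      rw [this, mul_one]
    refine MvPolynomial.ringHom_ext (fun r => ?_) fun i => ?_
    · rw [RingHom.comp_apply, h0, ← MvPolynomial.algebraMap_eq, AlgHom.commutes, AlgHom.commutes]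
      exact ((pol (MP_b525bf_ag_P.lau M) (fun i => (e i, (0 : ℤ))) y h1').commutes r).symm
    · rw [RingHom.comp_apply, h0]
      change inclAlg (inlZ ι) (MP_b525bf_ag_P.le_lau M) (pol M e y h1 (MvPolynomial.X i)) =
        pol (MP_b525bf_ag_P.lau M) (fun i => (e i, (0 : ℤ))) y h1' (MvPolynomial.X i)
      rw [pol, pol, MvPolynomial.aeval_X, MvPolynomial.aeval_X]
      exact inclAlg_el (MP_b525bf_ag_P.le_lau M) _ _
  rw [h4] at h3
  exact h3

/-- The group `(Fin (N + 1) → ℤ) × ι`. -/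
private def twrIdx (N : ℕ) (ι : Type) [AddCommGroup ι] :
    ((Fin (N + 1) → ℤ) × ι) ≃+ (((Fin N → ℤ) × ι) × ℤ) where
  toFun c := ((Fin.tail c.1, c.2), c.1 0)
  invFun c := (Fin.cons c.2 c.1.1, c.1.2)
  left_inv c := by
    apply Prod.ext
    · exact Fin.cons_self_tail c.1
    · rfl
  right_inv c := by
    apply Prod.ext
    · apply Prod.ext
      · exact Fin.tail_cons (α := fun _ => ℤ) c.2 c.1.1
      · rfl
    · exact Fin.cons_zero (α := fun _ => ℤ) c.2 c.1.1
  map_add' c c' := rfl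

/-- Several variables. -/
private theorem twr_const (N : ℕ) {M : Fam k K ι} {e : σ → ι} {y : σ → K} (h : LSm M e y) :
    LSm (M.comap (AddMonoidHom.snd (Fin N → ℤ) ι)) (fun i => ((0 : Fin N → ℤ), e i)) y := by
  induction N with
  | zero =>
    let g : ((Fin 0 → ℤ) × ι) ≃+ ι :=
      { toFun := fun c => c.2
        invFun := fun d => (0, d)
        left_inv := fun c => Prod.ext (Subsingleton.elim _ _) rfl
        right_inv := fun d => rfl
        map_add' := fun c c' => rfl }
    exact twr_comap_equiv g h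
  | succ N ih =>
    have h2 := twr_comap_equiv (twrIdx N ι) (twr_lau ih)
    have h3 : (fun i => (twrIdx N ι).symm (((0 : Fin N → ℤ), e i), (0 : ℤ))) =
        fun i => ((0 : Fin (N + 1) → ℤ), e i) := by
      funext i
      apply Prod.ext
      · change (Fin.cons (0 : ℤ) (0 : Fin N → ℤ) : Fin (N + 1) → ℤ) = 0
        funext j
        refine Fin.cases ?_ (fun j => ?_) j
        · rfl
        · rfl
      · rfl
    rw [h3] at h2
    exact h2

/-- The twist by a character. -/
private noncomputable def twrPsi {Λ : Type} [AddCommGroup Λ] (χ : Multiplicative Λ →* K) :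
    AddMonoidAlgebra K Λ →ₐ[K] AddMonoidAlgebra K Λ :=
  AddMonoidAlgebra.lift K (AddMonoidAlgebra K Λ) Λ
    { toFun := fun c => AddMonoidAlgebra.single c.toAdd (χ c)
      map_one' := by
        change AddMonoidAlgebra.single (0 : Λ) (χ 1) = 1
        rw [χ.map_one]
        rfl
      map_mul' := fun a b => by
        rw [χ.map_mul, AddMonoidAlgebra.single_mul_single]
        rfl }

private theorem twrPsi_single {Λ : Type} [AddCommGroup Λ] (χ : Multiplicative Λ →* K) (c : Λ)
    (r : K) : twrPsi χ (AddMonoidAlgebra.single c r) =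
      AddMonoidAlgebra.single c (r * χ (Multiplicative.ofAdd c)) := by
  rw [twrPsi, AddMonoidAlgebra.lift_single]
  change r • AddMonoidAlgebra.single c (χ (Multiplicative.ofAdd c)) = _
  rw [AddMonoidAlgebra.smul_single]
  rfl

private theorem twrPsi_coeff {Λ : Type} [AddCommGroup Λ] (χ : Multiplicative Λ →* K)
    (F : AddMonoidAlgebra K Λ) (c : Λ) :
    (twrPsi χ F).coeff c = F.coeff c * χ (Multiplicative.ofAdd c) := by
  classical
  induction F using AddMonoidAlgebra.induction_linear with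
  | zero => simp
  | add x y hx hy =>
    rw [map_add, AddMonoidAlgebra.coeff_add, Finsupp.add_apply, hx, hy,
      AddMonoidAlgebra.coeff_add, Finsupp.add_apply, add_mul]
  | single n r =>
    rw [twrPsi_single, AddMonoidAlgebra.coeff_single, AddMonoidAlgebra.coeff_single,
      Finsupp.single_apply, Finsupp.single_apply]
    split_ifs with h
    · rw [h]
    · rw [zero_mul]

private noncomputable def twrEquiv {Λ : Type} [AddCommGroup Λ] (χ χ' : Multiplicative Λ →* K)
    (h : ∀ c, χ c * χ' c = 1) : AddMonoidAlgebra K Λ ≃ₐ[K] AddMonoidAlgebra K Λ :=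
  AlgEquiv.ofAlgHom (twrPsi χ) (twrPsi χ')
    (AlgHom.ext fun F => AddMonoidAlgebra.ext (Finsupp.ext fun c => by
      change (twrPsi χ (twrPsi χ' F)).coeff c = F.coeff c
      rw [twrPsi_coeff, twrPsi_coeff, mul_assoc, mul_comm (χ' _), h, mul_one]))
    (AlgHom.ext fun F => AddMonoidAlgebra.ext (Finsupp.ext fun c => by
      change (twrPsi χ' (twrPsi χ F)).coeff c = F.coeff c
      rw [twrPsi_coeff, twrPsi_coeff, mul_assoc, h, mul_one]))

private theorem twr_mon_add {N : ℕ} (f : Fin N → K) (hf : ∀ j, f j ≠ 0) (a b : Fin N → ℤ) :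
    mon f (a + b) = mon f a * mon f b := by
  rw [mon, mon, mon, ← Finset.prod_mul_distrib]
  refine Finset.prod_congr rfl fun j _ => ?_
  rw [← zpow_add₀ (hf j)]
  rfl

/-- The character `(t, d) ↦ f ^ (s t)`. -/
private noncomputable def twrChi {N : ℕ} (f : Fin N → K) (hf : ∀ j, f j ≠ 0) (ι : Type)
    [AddCommGroup ι] (s : ℤ) : Multiplicative ((Fin N → ℤ) × ι) →* K where
  toFun c := mon f (s • (c.toAdd).1)
  map_one' := by
    change mon f (s • (0 : Fin N → ℤ)) = 1
    simp [mon]
  map_mul' a b := by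
    change mon f (s • ((a.toAdd).1 + (b.toAdd).1)) = _
    rw [smul_add, twr_mon_add f hf]

theorem lsm_tw {N : ℕ} {M : Fam k K ι} {e : σ → ι} (h : LSm M e (fun _ => (1 : K)))
    (f : Fin N → K) (hf : ∀ j, f j ≠ 0) :
    LSm (tw M f hf) (fun i => ((0 : Fin N → ℤ), e i)) (fun _ => (1 : K)) := by
  have hχ : ∀ c, twrChi f hf ι (-1) c * twrChi f hf ι 1 c = 1 := by
    intro c
    change mon f ((-1 : ℤ) • (c.toAdd).1) * mon f ((1 : ℤ) • (c.toAdd).1) = 1
    rw [← twr_mon_add f hf]
    have : (-1 : ℤ) • (c.toAdd).1 + (1 : ℤ) • (c.toAdd).1 = 0 := by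
      rw [← add_smul]
      simp
    rw [this]
    simp [mon]
  have hm : ∀ F, F ∈ (tw M f hf).alg ↔ ((twrEquiv _ _ hχ).restrictScalars k) F ∈
      (M.comap (AddMonoidHom.snd (Fin N → ℤ) ι)).alg := by
    intro F
    rw [Fam.mem_alg, Fam.mem_alg]
    refine forall_congr' fun c => ?_
    have h2 : (((twrEquiv _ _ hχ).restrictScalars k) F).coeff c = F.coeff c * mon f (-c.1) := by
      change (twrPsi _ F).coeff c = _
      rw [twrPsi_coeff]
      change F.coeff c * mon f ((-1 : ℤ) • c.1) = _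
      rw [neg_smul, one_smul]
    rw [h2]
    exact Iff.rfl
  obtain ⟨h1, -⟩ := id h
  have hmon : mon f (-(0 : Fin N → ℤ)) = 1 := by simp [mon]
  have h' : ∀ i, (1 : K) ∈ (tw M f hf).s ((0 : Fin N → ℤ), e i) := by
    intro i
    change 1 * mon f (-(0 : Fin N → ℤ)) ∈ M.s (e i)
    rw [hmon, one_mul]
    exact h1 i
  refine LSm.of_equiv (twr_const N h)
    (twrRestr ((twrEquiv _ _ hχ).restrictScalars k) _ _ hm).symm h' ?_
  intro i hi
  rw [AlgEquiv.symm_apply_eq]
  apply Subtype.ext
  rw [twrRestr_coe]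
  change AddMonoidAlgebra.single ((0 : Fin N → ℤ), e i) (1 : K) =
    twrPsi (twrChi f hf ι (-1)) (AddMonoidAlgebra.single ((0 : Fin N → ℤ), e i) (1 : K))
  rw [twrPsi_single]
  have h5 : twrChi f hf ι (-1) (Multiplicative.ofAdd ((0 : Fin N → ℤ), e i)) = 1 := by
    change mon f ((-1 : ℤ) • (0 : Fin N → ℤ)) = 1
    simp [mon]
  rw [h5, one_mul]

end Pool.Agent.MP_b525bf_ag_EL
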