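import Pool.Agent.Lib.MP_b525bf_ag_EL.SGR
import Pool.Agent.Lib.MP_b525bf_ag_EL.TWR
import Pool.Agent.Lib.MP_b525bf_ag_E.CH2

/-!
# Theorem EL, row CHR

Recipe. Copy the proof of `SemiD.exists_chart` (`MP_b525bf_ag_E/CH2.lean`, with its private
lemmas); `hN₀sm` becomes `LSm N₀ (fun i => -(Pi.single i 1)) 1` (row SGR), then `LSm.loc` for
`N₁`, then `lsm_tw`; `dR N i = (0, -(Pi.single i 1))` by definition.
-/

set_option autoImplicit false
set_option linter.unusedVariables false

namespace Pool.Agent.MP_b525bf_ag_EL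

open Pool.Agent.LU2 Pool.Agent.MP_b525bf_ag Pool.Agent.MP_b525bf_ag_W Pool.Agent.MP_b525bf_ag_E

variable {k K : Type} [Field k] [Field K] [Algebra k K] {G : Subgroup (K ≃ₐ[k] K)}
  {A : Subalgebra k K} {n : ℕ} {x : Fin n → K} {N m : ℕ} {f : Fin N → K}
  {u : Fin m → Fin N → ℕ} {D : Set (Fin N → ℤ)} {Q : Ideal (EF G A f u).alg} [Q.IsPrime]
  {R : Subalgebra k K}

private theorem chr_mon_zero (x : Fin n → K) : mon x 0 = 1 := by
  simp [mon]

private theorem chr_mon_add (hx : ∀ i, x i ≠ 0) (a b : Fin n → ℤ) :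
    mon x (a + b) = mon x a * mon x b := by
  unfold mon
  rw [← Finset.prod_mul_distrib]
  exact Finset.prod_congr rfl fun i _ => zpow_add₀ (hx i) _ _

private theorem chr_mon_ne (hx : ∀ i, x i ≠ 0) (a : Fin n → ℤ) : mon x a ≠ 0 :=
  Finset.prod_ne_zero_iff.2 fun i _ => zpow_ne_zero _ (hx i)

private theorem chr_mon_sub (hx : ∀ i, x i ≠ 0) (a b : Fin n → ℤ) :
    mon x (a - b) = mon x a / mon x b := by
  rw [eq_div_iff (chr_mon_ne hx b), ← chr_mon_add hx, sub_add_cancel]

private theorem chr_mon_neg (hx : ∀ i, x i ≠ 0) (a : Fin n → ℤ) :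
    mon x (-a) = (mon x a)⁻¹ := by
  refine eq_inv_of_mul_eq_one_left ?_
  rw [← chr_mon_add hx, neg_add_cancel, chr_mon_zero]

private theorem chr_mon_zsmul (z : ℤ) (a : Fin n → ℤ) : mon x (z • a) = mon x a ^ z := by
  unfold mon
  rw [← Finset.prod_zpow]
  refine Finset.prod_congr rfl fun i _ => ?_
  rw [Pi.smul_apply, smul_eq_mul, mul_comm, zpow_mul]

private theorem chr_mon_sum (hx : ∀ i, x i ≠ 0) {σ : Type} (s : Finset σ)
    (w : σ → Fin n → ℤ) : mon x (∑ l ∈ s, w l) = ∏ l ∈ s, mon x (w l) := by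
  classical
  induction s using Finset.induction_on with
  | empty => simp [chr_mon_zero]
  | insert a s ha ih => rw [Finset.sum_insert ha, Finset.prod_insert ha, chr_mon_add hx, ih]

private theorem chr_mon_single (x : Fin n → K) (j : Fin n) :
    mon x (Pi.single j 1) = x j := by
  unfold mon
  rw [Finset.prod_eq_single j]
  · rw [Pi.single_eq_same, zpow_one]
  · intro i _ hi
    rw [Pi.single_eq_of_ne hi, zpow_zero]
  · intro h
    exact absurd (Finset.mem_univ j) h

private theorem chr_mon_dv (hf0 : ∀ j, f j ≠ 0) (p q : Fin N) :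
    mon f (dv p q) = f p / f q := by
  unfold dv
  rw [chr_mon_sub hf0, chr_mon_single, chr_mon_single]

private theorem chr_mon_ev (hf0 : ∀ j, f j ≠ 0) {P P' : Fin n → Fin N}
    (hxl : ∀ l, x l = f (P l) / f (P' l)) (e : Fin n → ℤ) : mon f (ev P P' e) = mon x e := by
  unfold ev
  rw [chr_mon_sum hf0]
  unfold mon
  refine Finset.prod_congr rfl fun l _ => ?_
  have h1 : mon f (e l • dv (P l) (P' l)) = x l ^ e l := by
    rw [chr_mon_zsmul, chr_mon_dv hf0, ← hxl]
  exact h1

private theorem chr_pr_add (a : Fin N → ℕ) (d e : Fin N → ℤ) : pr a (d + e) = pr a d + pr a e := by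
  unfold pr
  rw [← Finset.sum_add_distrib]
  exact Finset.sum_congr rfl fun j _ => by rw [Pi.add_apply, mul_add]

private theorem chr_pr_sub (a : Fin N → ℕ) (d e : Fin N → ℤ) : pr a (d - e) = pr a d - pr a e := by
  unfold pr
  rw [← Finset.sum_sub_distrib]
  exact Finset.sum_congr rfl fun j _ => by rw [Pi.sub_apply, mul_sub]

private theorem chr_pr_zsmul (a : Fin N → ℕ) (z : ℤ) (d : Fin N → ℤ) :
    pr a (z • d) = z * pr a d := by
  unfold pr
  rw [Finset.mul_sum]
  exact Finset.sum_congr rfl fun j _ => by rw [Pi.smul_apply, smul_eq_mul]; ring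

private theorem chr_pr_sum (a : Fin N → ℕ) {σ : Type} (s : Finset σ) (w : σ → Fin N → ℤ) :
    pr a (∑ l ∈ s, w l) = ∑ l ∈ s, pr a (w l) := by
  classical
  induction s using Finset.induction_on with
  | empty => simp [pr]
  | insert b s hb ih => rw [Finset.sum_insert hb, Finset.sum_insert hb, chr_pr_add, ih]

private theorem chr_pr_single (a : Fin N → ℕ) (j : Fin N) : pr a (Pi.single j 1) = a j := by
  unfold pr
  rw [Finset.sum_eq_single j]
  · rw [Pi.single_eq_same, mul_one]
  · intro i _ hi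
    rw [Pi.single_eq_of_ne hi, mul_zero]
  · intro h
    exact absurd (Finset.mem_univ j) h

/-- the algebra of the family of homogeneous pieces -/
private theorem chr_ofSub {ι : Type} [AddCommGroup ι] (S : Set (AddMonoidAlgebra K ι))
    (hS : ∀ F ∈ S, ∃ d y, F = AddMonoidAlgebra.single d y) :
    (Fam.ofSub (Algebra.adjoin k S)).alg = Algebra.adjoin k S := by
  apply le_antisymm
  · intro F hF
    rw [Fam.eq_sum F]
    exact Subalgebra.sum_mem _ fun a _ => hF a
  · refine Algebra.adjoin_le ?_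
    intro F hF
    obtain ⟨d, y, rfl⟩ := hS F hF
    exact Fam.single_mem_alg.2 (Algebra.subset_adjoin hF)

private theorem chr_sgens_single {J : Type} [DecidableEq J] (B : Subalgebra k K)
    (x : Fin n → K) (T : Set J) (v : Fin n → J → ℤ) :
    ∀ F ∈ sgens B x T v, ∃ d y, F = AddMonoidAlgebra.single d y := by
  rintro F ((((⟨b, _, rfl⟩ | ⟨i, rfl⟩) | ⟨i, _, rfl⟩) | ⟨l, rfl⟩) | ⟨l, rfl⟩)
  · exact ⟨_, _, rfl⟩
  · exact ⟨_, _, rfl⟩
  · exact ⟨_, _, rfl⟩
  · exact ⟨_, _, rfl⟩
  · exact ⟨_, _, rfl⟩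

/-- finite generation of the algebra of the smoothness lemma -/
private theorem chr_fg {J : Type} [DecidableEq J] [Fintype J] {B : Subalgebra k K} (hB : B.FG)
    (x : Fin n → K) (T : Set J) (v : Fin n → J → ℤ) :
    (Algebra.adjoin k (sgens B x T v)).FG := by
  classical
  obtain ⟨s, hs⟩ := hB
  let F : Set (AddMonoidAlgebra K (J → ℤ)) :=
    (fun b => AddMonoidAlgebra.single 0 b) '' (s : Set K) ∪
    Set.range (fun i : J => AddMonoidAlgebra.single (-(Pi.single i 1)) 1) ∪
    ((fun i : J => AddMonoidAlgebra.single (Pi.single i 1) (1 : K)) '' Tᶜ) ∪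
    Set.range (fun l => AddMonoidAlgebra.single (v l) (x l)) ∪
    Set.range (fun l => AddMonoidAlgebra.single (-(v l)) (x l)⁻¹)
  have hF : F.Finite := by
    refine Set.Finite.union (Set.Finite.union (Set.Finite.union (Set.Finite.union ?_ ?_) ?_) ?_) ?_
    · exact (Finset.finite_toSet s).image _
    · exact Set.finite_range _
    · exact (Set.toFinite _).image _
    · exact Set.finite_range _
    · exact Set.finite_range _
  have h1 : Algebra.adjoin k (sgens B x T v) = Algebra.adjoin k F := by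
    apply le_antisymm
    · refine Algebra.adjoin_le ?_
      rintro _ ((((⟨b, hb, rfl⟩ | ⟨i, rfl⟩) | ⟨i, hi, rfl⟩) | ⟨l, rfl⟩) | ⟨l, rfl⟩)
      · rw [← hs] at hb
        induction hb using Algebra.adjoin_induction with
        | mem b hb =>
          exact Algebra.subset_adjoin (Or.inl (Or.inl (Or.inl (Or.inl ⟨b, hb, rfl⟩))))
        | algebraMap r =>
          have h2 : (AddMonoidAlgebra.single 0 (algebraMap k K r) : AddMonoidAlgebra K (J → ℤ)) =
              algebraMap k _ r := by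
            rw [AddMonoidAlgebra.coe_algebraMap]; rfl
          rw [h2]
          exact Subalgebra.algebraMap_mem _ r
        | add a b _ _ ha hb =>
          rw [AddMonoidAlgebra.single_add]
          exact Subalgebra.add_mem _ ha hb
        | mul a b _ _ ha hb =>
          have h2 : (AddMonoidAlgebra.single 0 (a * b) : AddMonoidAlgebra K (J → ℤ)) =
              AddMonoidAlgebra.single 0 a * AddMonoidAlgebra.single 0 b := by
            rw [AddMonoidAlgebra.single_mul_single, add_zero]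
          rw [h2]
          exact Subalgebra.mul_mem _ ha hb
      · exact Algebra.subset_adjoin (Or.inl (Or.inl (Or.inl (Or.inr ⟨i, rfl⟩))))
      · exact Algebra.subset_adjoin (Or.inl (Or.inl (Or.inr ⟨i, hi, rfl⟩)))
      · exact Algebra.subset_adjoin (Or.inl (Or.inr ⟨l, rfl⟩))
      · exact Algebra.subset_adjoin (Or.inr ⟨l, rfl⟩)
    · refine Algebra.adjoin_mono ?_
      rintro _ ((((⟨b, hb, rfl⟩ | ⟨i, rfl⟩) | ⟨i, hi, rfl⟩) | ⟨l, rfl⟩) | ⟨l, rfl⟩)
      · refine Or.inl (Or.inl (Or.inl (Or.inl ⟨b, ?_, rfl⟩)))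
        rw [← hs]
        exact Algebra.subset_adjoin hb
      · exact Or.inl (Or.inl (Or.inl (Or.inr ⟨i, rfl⟩)))
      · exact Or.inl (Or.inl (Or.inr ⟨i, hi, rfl⟩))
      · exact Or.inl (Or.inr ⟨l, rfl⟩)
      · exact Or.inr ⟨l, rfl⟩
  rw [h1]
  exact ⟨hF.toFinset, by rw [Set.Finite.coe_toFinset]⟩

/-- a finite generating set of the orbit ideal -/
private theorem chr_orbit (h : Hyp G A) {l : K} (hl : l ∈ A) :
    ∃ T : Finset K, (∀ t ∈ T, ∃ g ∈ G, t = g l) ∧ ∀ g ∈ G, ∃ a : K → K,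
      (∀ t ∈ T, a t ∈ A) ∧ g l = ∑ t ∈ T, a t * t := by
  classical
  have : Algebra.FiniteType k A := (Subalgebra.fg_iff_finiteType A).1 h.fg
  have : IsNoetherianRing A := Algebra.FiniteType.isNoetherianRing k A
  let s : Set A := {a | ∃ g ∈ G, (a : K) = g l}
  have hfg : (Submodule.span A s).FG := IsNoetherian.noetherian _
  obtain ⟨s', hs', he⟩ := (Submodule.fg_span_iff_fg_span_finset_subset s).1 hfg
  refine ⟨s'.image (fun a : A => (a : K)), ?_, fun g hg => ?_⟩
  · intro t ht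
    obtain ⟨a, ha, rfl⟩ := Finset.mem_image.1 ht
    exact hs' ha
  · have hmem : (⟨g l, h.stab g hg l hl⟩ : A) ∈ Submodule.span A (s' : Set A) := by
      rw [← he]
      exact Submodule.subset_span ⟨g, hg, rfl⟩
    obtain ⟨f, -, hf⟩ := Submodule.mem_span_finset.1 hmem
    refine ⟨fun t => if ht : t ∈ A then (f ⟨t, ht⟩ : K) else 0, ?_, ?_⟩
    · intro t ht
      obtain ⟨a, ha, rfl⟩ := Finset.mem_image.1 ht
      beta_reduce
      rw [dif_pos a.2]
      exact (f _).2
    · rw [Finset.sum_image (fun a _ b _ hab => Subtype.ext hab)]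
      have h2 := congrArg (fun a : A => (a : K)) hf
      simp only at h2
      rw [← h2, AddSubmonoidClass.coe_finsetSum]
      refine Finset.sum_congr rfl fun a _ => ?_
      beta_reduce
      rw [dif_pos a.2]
      rfl

private theorem chr_prod {ι σ : Type} [AddCommGroup ι] {M : Fam k K ι} (s : Finset σ)
    (d : σ → ι) (z : σ → K) (hz : ∀ j ∈ s, z j ∈ M.s (d j)) :
    ∏ j ∈ s, z j ∈ M.s (∑ j ∈ s, d j) := by
  classical
  induction s using Finset.induction_on with
  | empty =>
    rw [Finset.sum_empty, Finset.prod_empty]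
    exact M.one'
  | insert a s ha ih =>
    rw [Finset.sum_insert ha, Finset.prod_insert ha]
    exact M.mul' (hz a (Finset.mem_insert_self _ _))
      (ih fun j hj => hz j (Finset.mem_insert_of_mem hj))

section N0

set_option linter.unusedSectionVars false

variable {J : Type} [DecidableEq J] [Fintype J] {B : Subalgebra k K} {T : Set J}
  {v : Fin n → J → ℤ}

private theorem chr_N1 {b : K} (hb : b ∈ B) :
    b ∈ (Fam.ofSub (Algebra.adjoin k (sgens B x T v))).s 0 :=
  Algebra.subset_adjoin (Or.inl (Or.inl (Or.inl (Or.inl ⟨b, hb, rfl⟩))))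

private theorem chr_N2 (i : J) :
    (1 : K) ∈ (Fam.ofSub (Algebra.adjoin k (sgens B x T v))).s (-(Pi.single i 1)) :=
  Algebra.subset_adjoin (Or.inl (Or.inl (Or.inl (Or.inr ⟨i, rfl⟩))))

private theorem chr_N2' (i : J) (hi : i ∉ T) :
    (1 : K) ∈ (Fam.ofSub (Algebra.adjoin k (sgens B x T v))).s (Pi.single i 1) :=
  Algebra.subset_adjoin (Or.inl (Or.inl (Or.inr ⟨i, hi, rfl⟩)))

private theorem chr_N3 (l : Fin n) :
    x l ∈ (Fam.ofSub (Algebra.adjoin k (sgens B x T v))).s (v l) :=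
  Algebra.subset_adjoin (Or.inl (Or.inr ⟨l, rfl⟩))

private theorem chr_N3' (l : Fin n) :
    (x l)⁻¹ ∈ (Fam.ofSub (Algebra.adjoin k (sgens B x T v))).s (-(v l)) :=
  Algebra.subset_adjoin (Or.inr ⟨l, rfl⟩)

private theorem chr_one (c : J → ℤ) (hc : ∀ i ∈ T, 0 ≤ c i) :
    (1 : K) ∈ (Fam.ofSub (Algebra.adjoin k (sgens B x T v))).s (-c) := by
  have h1 : -c = ∑ i, c i • (-(Pi.single i 1) : J → ℤ) := by
    funext i
    simp [Finset.sum_apply, Pi.single_apply]
  have h2 : (1 : K) = ∏ _i : J, (1 : K) := by simp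
  rw [h1, h2]
  refine chr_prod _ _ _ fun i _ => ?_
  by_cases hi : i ∈ T
  · obtain ⟨n', hn'⟩ := Int.eq_ofNat_of_zero_le (hc i hi)
    rw [hn']
    have h3 := (Fam.ofSub (Algebra.adjoin k (sgens B x T v))).pow' (chr_N2 i) n'
    rw [one_pow] at h3
    rwa [natCast_zsmul]
  · have h3 := (Fam.ofSub (Algebra.adjoin k (sgens B x T v))).zpow_mem
      (chr_N2 (B := B) (x := x) (T := T) (v := v) i)
      (by rw [inv_one, neg_neg]; exact chr_N2' i hi) (c i)
    rwa [one_zpow] at h3

private theorem chr_mem (hx : ∀ l, x l ≠ 0) (e : Fin n → ℤ) (w : J → ℤ)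
    (hw : ∀ i ∈ T, w i ≤ ∑ l, e l * v l i) :
    mon x e ∈ (Fam.ofSub (Algebra.adjoin k (sgens B x T v))).s w := by
  have h1 : mon x e ∈ (Fam.ofSub (Algebra.adjoin k (sgens B x T v))).s (∑ l, e l • v l) :=
    chr_prod _ _ _ fun l _ =>
      (Fam.ofSub (Algebra.adjoin k (sgens B x T v))).zpow_mem (chr_N3 l) (chr_N3' l) (e l)
  have h2 := (Fam.ofSub (Algebra.adjoin k (sgens B x T v))).mul' h1
    (chr_one (∑ l, e l • v l - w) (by
      intro i hi
      rw [Pi.sub_apply, Finset.sum_apply, sub_nonneg]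
      simpa using hw i hi))
  rw [mul_one] at h2
  have h3 : ∑ l, e l • v l + -(∑ l, e l • v l - w) = w := by abel
  rwa [h3] at h2

end N0

theorem exists_chartL (hQ : SemiD G A f u D Q) (h : Hyp G A) (hf : ∀ j, f j ∈ A)
    (hf0 : ∀ j, f j ≠ 0) (hU : ∀ j, IsU (atP (EF G A f u) Q) (dF m j) (f j))
    {W : ValuationSubring K} (hWi : Inv G A W) (hW : Dom W (zeroSub (atP (EF G A f u) Q)))
    (hR : Good G A R x) (hRW : ∀ c ∈ R, c ∈ W) (had : Adapt G A R x f D) :
    ∃ C : Fam k K (Ix N m), (∀ d, (EF G A f u).s d ≤ C.s d) ∧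
      (∀ d, C.s d ≤ (atP (EF G A f u) Q).s d) ∧ C.alg.FG ∧
      LSm C (fun i : Fin m => dR N i) (fun _ => (1 : K)) := by
  classical
  have hRz : R ≤ zeroSub (atP (EF G A f u) Q) := hQ.le_zero h hf0 hU hWi hW hR hRW had
  obtain ⟨P, P', hxl, hPD, hj⟩ := had.par
  choose S c hrep hval hSD using hj
  have hx0 : ∀ l, x l ≠ 0 := hR.ne
  have hvf : ∀ j, W.valuation (f j) ≠ 0 := fun j => (Valuation.ne_zero_iff _).2 (hf0 j)
  choose α hαS hα using fun j => (hval j W hWi hRW).1
  have hαle : ∀ j, ∀ β ∈ S j, W.valuation (mon x (zx β)) ≤ W.valuation (f j) :=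
    fun j => (hval j W hWi hRW).2
  set T : Set (Fin m) := {i | ¬ IsU (atP (EF G A f u) Q) (dR N i) 1} with hT
  set v : Fin n → Fin m → ℤ := fun l i => pr (u i) (dv (P l) (P' l)) with hv
  have hprev : ∀ (i : Fin m) (e : Fin n → ℤ), pr (u i) (ev P P' e) = ∑ l, e l * v l i := by
    intro i e
    unfold ev
    rw [chr_pr_sum]
    exact Finset.sum_congr rfl fun l _ => chr_pr_zsmul _ _ _
  have hv0 : ∀ l, ∀ i ∈ T, 0 ≤ v l i := by
    intro l i hi
    refine hQ.pr_nonneg hf0 hU hW (hPD l) ?_ i hi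
    rw [chr_mon_dv hf0, ← hxl]
    exact (W.valuation_le_one_iff _).2 (hRW _ (hR.mem l))
  have hmon : ∀ (j : Fin N) (β : Fin n → ℕ), mon f (ev P P' (zx β) - Pi.single j 1) =
      mon x (zx β) / f j := by
    intro j β
    rw [chr_mon_sub hf0, chr_mon_single, chr_mon_ev hf0 hxl]
  have hS1 : ∀ j, ∀ β ∈ S j, ∀ i ∈ T, (u i j : ℤ) ≤ ∑ l, (β l : ℤ) * v l i := by
    intro j β hβ i hi
    have h1 := hQ.pr_nonneg hf0 hU hW (hSD j β hβ) (by
      rw [hmon, map_div₀]
      exact (div_le_one₀ (zero_lt_iff.2 (hvf j))).2 (hαle j β hβ)) i hi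
    rw [chr_pr_sub, chr_pr_single, hprev, sub_nonneg] at h1
    exact h1
  have hS2 : ∀ j, ∀ i ∈ T, ∑ l, (α j l : ℤ) * v l i = (u i j : ℤ) := by
    intro j i hi
    have h1 := hQ.pr_zero hf0 hU hW (hSD j (α j) (hαS j)) (by
      rw [hmon, map_div₀, hα j, div_self (hvf j)]) i hi
    rw [chr_pr_sub, chr_pr_single, hprev, sub_eq_zero] at h1
    exact h1
  -- generators of the orbit ideals
  choose TT hTT hTTo using fun j => chr_orbit h (hf j)
  choose! γ hγG hγ using hTT
  obtain ⟨SA, hSA⟩ := h.fg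
  let E : Finset K := SA ∪ Finset.univ.biUnion (fun j => (S j).image (c j)) ∪
    Finset.univ.biUnion (fun j => (TT j ×ˢ S j).image (fun p => γ j p.1 (c j p.2))) ∪
    Finset.univ.biUnion (fun j => (TT j ×ˢ (Finset.univ : Finset (Fin n))).image
      (fun p => γ j p.1 (x p.2) / x p.2))
  have hER : (E : Set K) ⊆ R := by
    intro e he
    simp only [E, Finset.coe_union, Finset.coe_biUnion, Finset.coe_image, Set.mem_union,
      Set.mem_iUnion, Set.mem_image, Finset.mem_coe, Finset.mem_product, Finset.mem_univ] at he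
    rcases he with ((he | ⟨j, -, β, hβ, rfl⟩) | ⟨j, -, ⟨t, β⟩, ⟨ht, hβ⟩, rfl⟩) |
      ⟨j, -, ⟨t, l⟩, ⟨ht, -⟩, rfl⟩
    · have : e ∈ A := by rw [← hSA]; exact Algebra.subset_adjoin he
      exact hR.le this
    · exact (hrep j).mem β hβ
    · exact hR.stab _ (hγG j t ht) _ ((hrep j).mem β hβ)
    · exact hR.par _ (hγG j t ht) l
  obtain ⟨B, hBfg, hEB, hBR, hBs⟩ := hR.sm E hER
  have hAB : A ≤ B := by
    rw [← hSA]
    refine Algebra.adjoin_le fun a ha => hEB ?_
    simp only [E, Finset.coe_union, Set.mem_union]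
    exact Or.inl (Or.inl (Or.inl ha))
  have hcB : ∀ j, ∀ β ∈ S j, c j β ∈ B := by
    intro j β hβ
    apply hEB
    simp only [E, Finset.coe_union, Finset.coe_biUnion, Finset.coe_image, Set.mem_union,
      Set.mem_iUnion, Set.mem_image, Finset.mem_coe]
    exact Or.inl (Or.inl (Or.inr ⟨j, Finset.mem_univ j, β, hβ, rfl⟩))
  have hgcB : ∀ j, ∀ t ∈ TT j, ∀ β ∈ S j, γ j t (c j β) ∈ B := by
    intro j t ht β hβ
    apply hEB
    simp only [E, Finset.coe_union, Finset.coe_biUnion, Finset.coe_image, Set.mem_union,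
      Set.mem_iUnion, Set.mem_image, Finset.mem_coe, Finset.mem_product]
    exact Or.inl (Or.inr ⟨j, Finset.mem_univ j, ⟨t, β⟩, ⟨ht, hβ⟩, rfl⟩)
  have hgxB : ∀ j, ∀ t ∈ TT j, ∀ l, γ j t (x l) / x l ∈ B := by
    intro j t ht l
    apply hEB
    simp only [E, Finset.coe_union, Finset.coe_biUnion, Finset.coe_image, Set.mem_union,
      Set.mem_iUnion, Set.mem_image, Finset.mem_coe, Finset.mem_product]
    exact Or.inr ⟨j, Finset.mem_univ j, ⟨t, l⟩, ⟨ht, Finset.mem_univ l⟩, rfl⟩
  -- the family `N₀`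
  set N₀ : Fam k K (Fin m → ℤ) := Fam.ofSub (Algebra.adjoin k (sgens B x T v)) with hN₀
  have hN₀alg : N₀.alg = Algebra.adjoin k (sgens B x T v) :=
    chr_ofSub _ (chr_sgens_single B x T v)
  have hN₀sm : LSm N₀ (fun i : Fin m => -(Pi.single i 1)) (fun _ => (1 : K)) :=
    lsm_sgens hBfg hx0 hBs T v hv0
  have hN₀fg : N₀.alg.FG := by
    rw [hN₀alg]
    exact chr_fg hBfg x T v
  have hN1 : ∀ b ∈ B, b ∈ N₀.s 0 := fun b hb => chr_N1 hb
  have hNm : ∀ (e : Fin n → ℤ) (w : Fin m → ℤ), (∀ i ∈ T, w i ≤ ∑ l, e l * v l i) →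
      mon x e ∈ N₀.s w := fun e w hw => chr_mem hx0 e w hw
  have hNd : ∀ j, ∀ β ∈ S j, mon x (zx β - zx (α j)) ∈ N₀.s 0 := by
    intro j β hβ
    refine hNm _ _ fun i hi => ?_
    have h1 := hS1 j β hβ i hi
    have h2 := hS2 j i hi
    have h3 : ∑ l, (zx β - zx (α j)) l * v l i =
        ∑ l, (β l : ℤ) * v l i - ∑ l, (α j l : ℤ) * v l i := by
      rw [← Finset.sum_sub_distrib]
      exact Finset.sum_congr rfl fun l _ => by
        rw [Pi.sub_apply, sub_mul]; rfl
    rw [h3, h2, Pi.zero_apply]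
    linarith
  -- the elements `ω j`
  let ω : Fin N → K := fun j => f j / mon x (zx (α j))
  have hω0 : ∀ j, ω j ≠ 0 := fun j => div_ne_zero (hf0 j) (chr_mon_ne hx0 _)
  have hωN : ∀ j, ω j ∈ N₀.s 0 := by
    intro j
    have h1 : ω j = ∑ β ∈ S j, c j β * mon x (zx β - zx (α j)) := by
      change f j / _ = _
      conv_lhs => rw [(hrep j).sum]
      rw [Finset.sum_div]
      refine Finset.sum_congr rfl fun β _ => ?_
      rw [chr_mon_sub hx0, mul_div_assoc]
    rw [h1]
    refine Submodule.sum_mem _ fun β hβ => ?_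
    have := N₀.mul' (hN1 _ (hcB j β hβ)) (hNd j β hβ)
    rwa [add_zero] at this
  have hωW : ∀ j, W.valuation (ω j) = 1 := by
    intro j
    change W.valuation (f j / _) = 1
    rw [map_div₀, hα j, div_self (hvf j)]
  let Ω : K := ∏ j, ω j
  have hΩ0 : Ω ≠ 0 := Finset.prod_ne_zero_iff.2 fun j _ => hω0 j
  have hΩN : Ω ∈ N₀.s 0 := by
    have h1 := chr_prod (M := N₀) Finset.univ (fun _ => 0) ω (fun j _ => hωN j)
    rwa [Finset.sum_const_zero] at h1
  have hΩW : W.valuation Ω = 1 := by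
    change W.valuation (∏ j, ω j) = 1
    rw [map_prod]
    exact Finset.prod_eq_one fun j _ => hωW j
  let N₁ : Fam k K (Fin m → ℤ) := N₀.loc hΩN
  have hle1 : ∀ w, N₀.s w ≤ N₁.s w := fun w => N₀.le_loc hΩN w
  have hωinv : ∀ j, (ω j)⁻¹ ∈ N₁.s 0 := by
    intro j
    refine ⟨1, ?_⟩
    have h1 : Ω ^ 1 * (ω j)⁻¹ = ∏ j' ∈ Finset.univ.erase j, ω j' := by
      rw [pow_one]
      change (∏ j, ω j) * (ω j)⁻¹ = _
      rw [← Finset.mul_prod_erase Finset.univ ω (Finset.mem_univ j)]
      field_simp [hω0 j]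
    rw [h1, smul_zero, add_zero]
    have h2 := chr_prod (M := N₀) (Finset.univ.erase j) (fun _ => 0) ω (fun j _ => hωN j)
    rwa [Finset.sum_const_zero] at h2
  have hN₁fg : N₁.alg.FG := by
    have h1 := N₀.finiteType_loc hN₀fg hΩN hΩ0
    exact (Subalgebra.fg_iff_finiteType _).2 h1
  have hN₁sm : LSm N₁ (fun i : Fin m => -(Pi.single i 1)) (fun _ => (1 : K)) :=
    hN₀sm.loc hΩN hΩ0
  refine ⟨tw N₁ f hf0, ?_, ?_, tw_fg f hf0 hN₁fg, lsm_tw hN₁sm f hf0⟩
  · -- `M ≤ C`
    have hmem : ∀ (d : Ix N m) (z : K), z * mon f (-d.1) ∈ N₁.s d.2 →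
        z ∈ (tw N₁ f hf0).s d := fun d z hz => hz
    have hB1 : ∀ b ∈ B, b ∈ N₁.s 0 := fun b hb => hle1 _ (hN1 b hb)
    have horb : ∀ j, ∀ y ∈ orb G A (f j), y * (f j)⁻¹ ∈ N₁.s 0 := by
      intro j
      have h1 : ∀ t ∈ TT j, t * (f j)⁻¹ ∈ N₁.s 0 := by
        intro t ht
        have h2 : t / mon x (zx (α j)) ∈ N₀.s 0 := by
          have h3 : t / mon x (zx (α j)) = ∑ β ∈ S j, (γ j t (c j β) *
              ∏ l, (γ j t (x l) / x l) ^ β l) * mon x (zx β - zx (α j)) := by
            have h4 : t = ∑ β ∈ S j, γ j t (c j β) * γ j t (mon x (zx β)) := by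
              conv_lhs => rw [hγ j t ht, (hrep j).sum]
              rw [map_sum]
              exact Finset.sum_congr rfl fun β _ => map_mul _ _ _
            conv_lhs => rw [h4]
            rw [Finset.sum_div]
            refine Finset.sum_congr rfl fun β _ => ?_
            have h5 : γ j t (mon x (zx β)) = (∏ l, (γ j t (x l) / x l) ^ β l) * mon x (zx β) := by
              unfold mon
              rw [map_prod, ← Finset.prod_mul_distrib]
              refine Finset.prod_congr rfl fun l _ => ?_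
              change γ j t (x l ^ ((β l : ℕ) : ℤ)) = _ * x l ^ ((β l : ℕ) : ℤ)
              rw [zpow_natCast, map_pow, div_pow, div_mul_cancel₀ _ (pow_ne_zero _ (hx0 l))]
            rw [h5, chr_mon_sub hx0]
            ring
          rw [h3]
          refine Submodule.sum_mem _ fun β hβ => ?_
          have h6 : γ j t (c j β) * ∏ l, (γ j t (x l) / x l) ^ β l ∈ B :=
            B.mul_mem (hgcB j t ht β hβ) (B.prod_mem fun l _ => B.pow_mem (hgxB j t ht l) _)
          have := N₀.mul' (hN1 _ h6) (hNd j β hβ)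
          rwa [add_zero] at this
        have h3 := N₁.mul' (hle1 _ h2) (hωinv j)
        rw [add_zero] at h3
        have h4 : t / mon x (zx (α j)) * (ω j)⁻¹ = t * (f j)⁻¹ := by
          change t / mon x (zx (α j)) * (f j / mon x (zx (α j)))⁻¹ = _
          have := chr_mon_ne hx0 (zx (α j))
          field_simp
        rwa [h4] at h3
      intro y hy
      unfold orb at hy
      induction hy using Submodule.span_induction with
      | mem z hz =>
        obtain ⟨g, hg, rfl⟩ := hz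
        obtain ⟨a, ha, hs⟩ := hTTo j g hg
        rw [hs, Finset.sum_mul]
        refine Submodule.sum_mem _ fun t ht => ?_
        rw [mul_assoc]
        have := N₁.mul' (hB1 _ (hAB (ha t ht))) (h1 t ht)
        rwa [add_zero] at this
      | zero => rw [zero_mul]; exact Submodule.zero_mem _
      | add a b _ _ ha hb => rw [add_mul]; exact Submodule.add_mem _ ha hb
      | smul a b _ hb =>
        have h2 : a • b * (f j)⁻¹ = (a : K) * (b * (f j)⁻¹) := by
          rw [Algebra.smul_def, mul_assoc]; rfl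
        rw [h2]
        have := N₁.mul' (hB1 _ (hAB a.2)) hb
        rwa [add_zero] at this
    have hle : Algebra.adjoin k (egens G A f u) ≤ (tw N₁ f hf0).alg := by
      refine Algebra.adjoin_le ?_
      rintro _ (((⟨a, ha, rfl⟩ | ⟨j, y, hy, rfl⟩) | ⟨j, rfl⟩) | ⟨i, rfl⟩)
      · refine Fam.single_mem_alg.2 (hmem 0 a ?_)
        have h1 : mon f (-(0 : Ix N m).1) = 1 := by
          rw [Prod.fst_zero, neg_zero, chr_mon_zero]
        rw [h1, mul_one]
        exact hB1 _ (hAB ha)
      · refine Fam.single_mem_alg.2 (hmem (dF m j) y ?_)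
        have h1 : mon f (-(dF m j).1) = (f j)⁻¹ := by
          change mon f (-(Pi.single j 1)) = _
          rw [chr_mon_neg hf0, chr_mon_single]
        rw [h1]
        exact horb j y hy
      · refine Fam.single_mem_alg.2 (hmem (dS u j) 1 ?_)
        have h1 : mon f (-(dS u j).1) = f j := by
          change mon f (-(-(Pi.single j 1))) = _
          rw [neg_neg, chr_mon_single]
        rw [h1, one_mul]
        change f j ∈ N₁.s (fun i => (u i j : ℤ))
        have h2 : mon x (zx (α j)) ∈ N₀.s (fun i => (u i j : ℤ)) :=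
          hNm _ _ fun i hi => (hS2 j i hi).symm.le
        have h3 := N₀.mul' (hωN j) h2
        rw [zero_add] at h3
        have h4 : ω j * mon x (zx (α j)) = f j := div_mul_cancel₀ _ (chr_mon_ne hx0 _)
        rw [h4] at h3
        exact hle1 _ h3
      · refine Fam.single_mem_alg.2 (hmem (dR N i) 1 ?_)
        have h1 : mon f (-(dR N i).1) = 1 := by
          change mon f (-0) = 1
          rw [neg_zero, chr_mon_zero]
        rw [h1, mul_one]
        exact hle1 _ (chr_N2 i)
    intro d y hy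
    exact Fam.single_mem_alg.1 (hle hy)
  · -- `C ≤ At`
    set At : Fam k K (Ix N m) := atP (EF G A f u) Q with hAt
    have hgenR : ∀ i, (1 : K) ∈ At.s (dR N i) := fun i =>
      le_atP _ _ _ (Algebra.subset_adjoin (Or.inr ⟨i, rfl⟩))
    have hN₀At : ∀ w, N₀.s w ≤ At.s ((0 : Fin N → ℤ), w) := by
      let At' : Fam k K (Fin m → ℤ) := At.comap (AddMonoidHom.inr (Fin N → ℤ) (Fin m → ℤ))
      have hle : Algebra.adjoin k (sgens B x T v) ≤ At'.alg := by
        refine Algebra.adjoin_le ?_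
        rintro _ ((((⟨b, hb, rfl⟩ | ⟨i, rfl⟩) | ⟨i, hi, rfl⟩) | ⟨l, rfl⟩) | ⟨l, rfl⟩)
        · refine Fam.single_mem_alg.2 ?_
          change b ∈ At.s ((0 : Fin N → ℤ), (0 : Fin m → ℤ))
          exact hRz (hBR hb)
        · refine Fam.single_mem_alg.2 ?_
          exact hgenR i
        · refine Fam.single_mem_alg.2 ?_
          have h1 : IsU At (dR N i) 1 := by
            by_contra hcon
            exact hi hcon
          have h2 := h1.2.2
          rw [inv_one] at h2
          have h3 : -(dR N i) = ((0 : Fin N → ℤ), (Pi.single i 1 : Fin m → ℤ)) := by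
            unfold dR
            rw [Prod.neg_mk, neg_zero, neg_neg]
          rw [h3] at h2
          exact h2
        · refine Fam.single_mem_alg.2 ?_
          have h1 := (hQ.isU_mon hf0 hU (dv (P l) (P' l))).2.1
          rw [chr_mon_dv hf0, ← hxl] at h1
          exact h1
        · refine Fam.single_mem_alg.2 ?_
          have h1 := (hQ.isU_mon hf0 hU (dv (P l) (P' l))).2.2
          rw [chr_mon_dv hf0, ← hxl] at h1
          have h3 : -((0 : Fin N → ℤ), (fun i => pr (u i) (dv (P l) (P' l)))) =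
              ((0 : Fin N → ℤ), -(v l)) := by
            rw [Prod.neg_mk, neg_zero]
          rw [h3] at h1
          exact h1
      intro w y hy
      exact (Fam.single_mem_alg (M := At')).1 (hle hy)
    have hΩz : Ω ∈ zeroSub At := hN₀At 0 hΩN
    have hΩinv : Ω⁻¹ ∈ At.s 0 := hW.inv Ω hΩz hΩW
    have hN₁At : ∀ w, N₁.s w ≤ At.s ((0 : Fin N → ℤ), w) := by
      rintro w y ⟨m', hm'⟩
      rw [smul_zero, zero_add] at hm'
      have h1 := hN₀At w hm'
      have h2 := At.mul' (At.pow' hΩinv m') h1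
      rw [smul_zero, zero_add] at h2
      have h3 : Ω⁻¹ ^ m' * (Ω ^ m' * y) = y := by
        rw [← mul_assoc, ← mul_pow, inv_mul_cancel₀ hΩ0, one_pow, one_mul]
      rwa [h3] at h2
    have hft : ∀ t : Fin N → ℤ, mon f t ∈ At.s (t, (0 : Fin m → ℤ)) := by
      intro t
      have h1 : (t, (0 : Fin m → ℤ)) = ∑ j, t j • dF m j := by
        refine Prod.ext ?_ ?_
        · rw [Prod.fst_sum]
          funext i
          simp [dF, Finset.sum_apply, Pi.single_apply]
        · rw [Prod.snd_sum]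
          simp [dF]
      rw [h1]
      unfold mon
      exact chr_prod _ _ _ fun j _ => At.zpow_mem (hU j).2.1 (hU j).2.2 (t j)
    rintro ⟨t, w⟩ z hz
    have hz' : z * mon f (-t) ∈ N₁.s w := hz
    have h1 := At.mul' (hN₁At w hz') (hft t)
    have h2 : z * mon f (-t) * mon f t = z := by
      rw [mul_assoc, ← chr_mon_add hf0, neg_add_cancel, chr_mon_zero, mul_one]
    have h3 : ((0 : Fin N → ℤ), w) + (t, (0 : Fin m → ℤ)) = (t, w) := by
      rw [Prod.mk_add_mk, zero_add, add_zero]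
    rwa [h2, h3] at h1

end Pool.Agent.MP_b525bf_ag_EL
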