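import Pool.Agent.Lib.MP_b525bf_ag_EL.Defs
import Pool.Agent.Lib.MP_b525bf_ag_helper12.Lift

/-!
# Theorem EL, row DER: derivations of the degree zero part

Recipe. (1) Derivations extend along formally smooth homomorphisms: if `A → B` is formally smooth and
`d : Derivation k A B`, there is `D : Derivation k B B` with `D (algebraMap A B a) = d a` (lift the
identity of `B = (B[ε]) / (ε)` along `A → B[ε]`, `a ↦ a + d a ε`, `TrivSqZeroExt` or
`DualNumber`; or Mathlib: `Algebra.FormallySmooth` and the split exact sequence of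
`KaehlerDifferential`). Apply it to `pol N e 1 h` and to `∂/∂Y_i` (`MvPolynomial.pderiv i`,
composed): `D_i (N.el 1_{e j}) = δ_ij`. (2) The homomorphism `r : N.alg → zeroSub N`,
`N.el (x ∈ N.s a) ↦ x * ζ (-a)` (`Fam.liftHom` in `MP_b525bf_ag_helper12/Lift.lean`), is a
retraction of `j : zeroSub N → N.alg`, `x ↦ N.el x`. `Δ_i := r ∘ D_i ∘ j` is a derivation.
`j (F j) = N.el (1_{e j}) * N.el (ζ (-e j))`, so
`Δ_i (F j) = δ_ij * r (N.el (ζ (-e j))) + r (N.el 1_{e j}) * r (D_i (N.el (ζ (-e j))))`, and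
`r (N.el (ζ (-e j))) = 1`, `r (N.el 1_{e j}) = F j`.
-/

set_option autoImplicit false
set_option linter.unusedVariables false

namespace Pool.Agent.MP_b525bf_ag_EL

open Pool.Agent.MP_b525bf_ag Pool.Agent.MP_b525bf_ag_E

variable {k K ι σ : Type} [Field k] [Field K] [Algebra k K] [AddCommGroup ι]

open AddMonoidAlgebra in
/-- extension of a derivation along a formally smooth homomorphism -/
private theorem der_ext {k A B : Type} [Field k] [CommRing A] [CommRing B] [Algebra k A]
    [Algebra k B] (f : A →ₐ[k] B) (hf : f.toRingHom.FormallySmooth) (d : A →ₗ[k] B)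
    (hd : ∀ a b, d (a * b) = f a * d b + f b * d a) :
    ∃ D : Derivation k B B, ∀ a, D (f a) = d a := by
  have hd1 : d 1 = 0 := by
    have h1 : d (1 * 1) = f 1 * d 1 + f 1 * d 1 := hd 1 1
    rw [one_mul (1 : A), map_one f, one_mul] at h1
    exact left_eq_add.mp h1
  let g : A →+* DualNumber B :=
    { toFun := fun a => TrivSqZeroExt.inl (f a) + TrivSqZeroExt.inr (d a)
      map_one' := by
        rw [map_one, hd1]
        simp
      map_zero' := by simp
      map_add' := by
        intro a b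
        rw [map_add, map_add]
        simp only [TrivSqZeroExt.inl_add, TrivSqZeroExt.inr_add]
        abel
      map_mul' := by
        intro a b
        refine TrivSqZeroExt.ext ?_ ?_
        · simp
        · rw [hd]
          simp [mul_comm] }
  have hg1 : ∀ a, (g a).fst = f a := by
    intro a
    show (TrivSqZeroExt.inl (f a) + TrivSqZeroExt.inr (d a) : DualNumber B).fst = f a
    simp
  have hg2 : ∀ a, (g a).snd = d a := by
    intro a
    show (TrivSqZeroExt.inl (f a) + TrivSqZeroExt.inr (d a) : DualNumber B).snd = d a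
    simp
  let _ : Algebra A B := f.toRingHom.toAlgebra
  let _ : Algebra A (DualNumber B) := g.toAlgebra
  have : Algebra.FormallySmooth A B := hf
  let π : DualNumber B →ₐ[A] B :=
    { (TrivSqZeroExt.fstHom B B B).toRingHom with
      commutes' := fun a => hg1 a }
  have hπ : ∀ x, π x = x.fst := fun _ => rfl
  have hπs : Function.Surjective π := fun b => ⟨TrivSqZeroExt.inl b, by rw [hπ]; simp⟩
  have hnil : IsNilpotent (RingHom.ker (π : DualNumber B →+* B)) := by
    refine ⟨2, le_bot_iff.1 ((pow_two (RingHom.ker (π : DualNumber B →+* B))).le.trans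
      (Ideal.mul_le.2 fun x hx y hy => ?_))⟩
    have hx' : x.fst = 0 := hx
    have hy' : y.fst = 0 := hy
    rw [Ideal.mem_bot]
    refine TrivSqZeroExt.ext ?_ ?_
    · simp [hx']
    · simp [hx', hy']
  let φ : B →ₐ[A] DualNumber B :=
    Algebra.FormallySmooth.liftOfSurjective (AlgHom.id A B) π hπs hnil
  have hφ1 : ∀ x, (φ x).fst = x := fun x =>
    Algebra.FormallySmooth.liftOfSurjective_apply (AlgHom.id A B) π hπs hnil x
  have hφ2 : ∀ a, φ (f a) = g a := fun a => φ.commutes a
  have hmul : ∀ x y, (φ (x * y)).snd = x * (φ y).snd + y * (φ x).snd := by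
    intro x y
    rw [map_mul, TrivSqZeroExt.snd_mul, hφ1, hφ1, op_smul_eq_smul, smul_eq_mul, smul_eq_mul]
  let D0 : B →ₗ[k] B :=
    { toFun := fun x => (φ x).snd
      map_add' := by
        intro x y
        rw [map_add, TrivSqZeroExt.snd_add]
      map_smul' := by
        intro c x
        have h1 : c • x = f (algebraMap k A c) * x := by
          rw [f.commutes, Algebra.smul_def]
        have h2 : d (algebraMap k A c) = 0 := by
          rw [Algebra.algebraMap_eq_smul_one, map_smul, hd1, smul_zero]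
        rw [h1, hmul, hφ2, hg2, h2, mul_zero, add_zero, f.commutes, RingHom.id_apply,
          Algebra.smul_def] }
  refine ⟨Derivation.mk' D0 fun a b => hmul a b, fun a => ?_⟩
  show (φ (f a)).snd = d a
  rw [hφ2, hg2]

theorem exists_der [DecidableEq σ] {N : Fam k K ι} {e : σ → ι} (h : LSm N e (fun _ => (1 : K)))
    (ζ : ι →+ Additive Kˣ) (hζ : ∀ a, ((ζ a).toMul : K) ∈ N.s a) :
    ∃ (F : σ → zeroSub N) (Δ : σ → Derivation k (zeroSub N) (zeroSub N)),
      (∀ j, (F j : K) = ((ζ (-(e j))).toMul : K)) ∧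
        ∀ i j, ∃ c : zeroSub N, Δ i (F j) = (if i = j then 1 else 0) + F j * c := by
  obtain ⟨h1, hsm⟩ := h
  set f := pol N e (fun _ => (1 : K)) h1 with hf
  have hfX : ∀ j, f (MvPolynomial.X j) = N.el (h1 j) := by
    intro j
    rw [hf, pol, MvPolynomial.aeval_X]
  have hζ0 : ((ζ 0).toMul : K) = 1 := by rw [map_zero]; rfl
  have hζa : ∀ a b : ι, ((ζ (a + b)).toMul : K) = ((ζ a).toMul : K) * ((ζ b).toMul : K) := by
    intro a b
    rw [map_add]
    rfl
  -- the derivations of the graded algebra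
  have hD : ∀ i : σ, ∃ D : Derivation k N.alg N.alg, ∀ j, D (N.el (h1 j)) = if i = j then 1 else 0 := by
    intro i
    obtain ⟨D, hD⟩ := der_ext f hsm (f.toLinearMap ∘ₗ (MvPolynomial.pderiv i).toLinearMap) (by
      intro a b
      show f (MvPolynomial.pderiv i (a * b)) = _
      rw [Derivation.leibniz, map_add, smul_eq_mul, smul_eq_mul, map_mul, map_mul]
      rfl)
    refine ⟨D, fun j => ?_⟩
    rw [← hfX, hD]
    show f (MvPolynomial.pderiv i (MvPolynomial.X j)) = _
    rw [MvPolynomial.pderiv_X]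
    by_cases hij : i = j
    · subst hij
      rw [Pi.single_eq_same, map_one, if_pos rfl]
    · rw [Pi.single_eq_of_ne (Ne.symm hij), map_zero, if_neg hij]
  choose D hD using hD
  -- the retraction onto the degree zero part
  have hmem : ∀ (a : ι) (x : K), x ∈ N.s a → x * ((ζ (-a)).toMul : K) ∈ N.s 0 := by
    intro a x hx
    have h2 := N.mul' hx (hζ (-a))
    rwa [add_neg_cancel] at h2
  let φ : ∀ a, N.s a →ₗ[k] zeroSub N := fun a =>
    { toFun := fun x => ⟨x.1 * ((ζ (-a)).toMul : K), hmem a x.1 x.2⟩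
      map_add' := by
        intro x y
        refine Subtype.ext ?_
        show (x.1 + y.1) * _ = x.1 * _ + y.1 * _
        rw [add_mul]
      map_smul' := by
        intro c x
        refine Subtype.ext ?_
        show (c • x.1) * _ = c • (x.1 * _)
        rw [smul_mul_assoc] }
  have hφ : ∀ (a : ι) (x : K) (hx : x ∈ N.s a),
      ((φ a ⟨x, hx⟩ : zeroSub N) : K) = x * ((ζ (-a)).toMul : K) := fun _ _ _ => rfl
  have hφ1 : φ 0 ⟨1, N.one'⟩ = 1 := by
    refine Subtype.ext ?_
    rw [hφ, neg_zero, hζ0, one_mul]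
    rfl
  have hφm : ∀ (a b : ι) (x y : K) (hx : x ∈ N.s a) (hy : y ∈ N.s b),
      φ (a + b) ⟨x * y, N.mul' hx hy⟩ = φ a ⟨x, hx⟩ * φ b ⟨y, hy⟩ := by
    intro a b x y hx hy
    refine Subtype.ext ?_
    rw [hφ, neg_add, hζa]
    show _ = ((φ a ⟨x, hx⟩ : zeroSub N) : K) * ((φ b ⟨y, hy⟩ : zeroSub N) : K)
    rw [hφ, hφ]
    ring
  let r : N.alg →ₐ[k] zeroSub N := N.liftHom φ hφ1 hφm
  have hr : ∀ (a : ι) (x : K) (hx : x ∈ N.s a),
      ((r (N.el hx) : zeroSub N) : K) = x * ((ζ (-a)).toMul : K) := by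
    intro a x hx
    rw [show r (N.el hx) = φ a ⟨x, hx⟩ from N.liftHom_el φ hφ1 hφm hx, hφ]
  -- the inclusion of the degree zero part
  have hz : ∀ x : zeroSub N, (x : K) ∈ N.s 0 := fun x => x.2
  let j : zeroSub N → N.alg := fun x => N.el (hz x)
  have hj : ∀ x, j x = N.el (hz x) := fun _ => rfl
  have hjadd : ∀ x y, j (x + y) = j x + j y := by
    intro x y
    refine Subtype.ext ?_
    show AddMonoidAlgebra.single 0 ((x : K) + (y : K)) = _
    rw [AddMonoidAlgebra.single_add]
    rfl
  have hjmul : ∀ x y, j (x * y) = j x * j y := by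
    intro x y
    rw [hj, hj, hj, N.el_mul]
    exact N.el_eq _ _ (add_zero 0).symm rfl
  have hjsmul : ∀ (c : k) (x : zeroSub N), j (c • x) = c • j x := by
    intro c x
    refine Subtype.ext ?_
    show AddMonoidAlgebra.single 0 (c • (x : K)) = c • AddMonoidAlgebra.single 0 (x : K)
    rw [AddMonoidAlgebra.smul_single]
  have hrj : ∀ x, r (j x) = x := by
    intro x
    refine Subtype.ext ?_
    rw [hj, hr, neg_zero, hζ0, mul_one]
  let Δ0 : σ → (zeroSub N →ₗ[k] zeroSub N) := fun i =>
    { toFun := fun x => r (D i (j x))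
      map_add' := by
        intro x y
        rw [hjadd, map_add, map_add]
      map_smul' := by
        intro c x
        rw [hjsmul, Derivation.map_smul, map_smul, RingHom.id_apply] }
  let Δ : σ → Derivation k (zeroSub N) (zeroSub N) := fun i => Derivation.mk' (Δ0 i) (by
    intro a b
    show r (D i (j (a * b))) = a • r (D i (j b)) + b • r (D i (j a))
    rw [hjmul, Derivation.leibniz, map_add, smul_eq_mul, smul_eq_mul, map_mul, map_mul, hrj, hrj,
      smul_eq_mul, smul_eq_mul])
  have hF : ∀ l : σ, ((ζ (-(e l))).toMul : K) ∈ zeroSub N := by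
    intro l
    have h2 := N.mul' (h1 l) (hζ (-(e l)))
    rw [add_neg_cancel] at h2
    have h3 : (1 : K) * ((ζ (-(e l))).toMul : K) ∈ zeroSub N := h2
    rwa [one_mul] at h3
  refine ⟨fun l => ⟨((ζ (-(e l))).toMul : K), hF l⟩, Δ, fun l => rfl, fun i l => ?_⟩
  refine ⟨r (D i (N.el (hζ (-(e l))))), ?_⟩
  show r (D i (j ⟨((ζ (-(e l))).toMul : K), hF l⟩)) = _
  have e1 : j ⟨((ζ (-(e l))).toMul : K), hF l⟩ = N.el (h1 l) * N.el (hζ (-(e l))) := by
    rw [hj, N.el_mul]
    exact N.el_eq _ _ (add_neg_cancel (e l)).symm (one_mul _).symm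
  have e2 : r (N.el (h1 l)) = ⟨((ζ (-(e l))).toMul : K), hF l⟩ := by
    refine Subtype.ext ?_
    rw [hr, one_mul]
  have e3 : r (N.el (hζ (-(e l)))) = 1 := by
    refine Subtype.ext ?_
    rw [hr, ← hζa, add_neg_cancel, hζ0]
    rfl
  rw [e1, Derivation.leibniz, map_add, smul_eq_mul, smul_eq_mul, map_mul, map_mul, hD, e2, e3,
    one_mul, add_comm]
  congr 1
  split_ifs
  · exact map_one r
  · exact map_zero r

end Pool.Agent.MP_b525bf_ag_EL
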