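import Pool.Agent.Lib.MP_b525bf_ag_E.Defs
import Pool.Agent.Lib.MP_b525bf_ag_h52d.StepMain

/-!
# Theorem EL (log and cofinal form of Theorem E): definitions
-/

set_option autoImplicit false

namespace Pool.Agent.MP_b525bf_ag_EL

open Pool.Agent.MP_b525bf_ag

/-- Families indexed by `Option σ`. -/
def ocons {σ β : Type} (b : β) (f : σ → β) : Option σ → β
  | none => b
  | some i => f i

variable {k K ι σ : Type} [Field k] [Field K] [Algebra k K] [AddCommGroup ι]

/-- The homomorphism from the polynomial ring given by homogeneous elements. -/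
noncomputable def pol (M : Fam k K ι) (e : σ → ι) (y : σ → K) (h : ∀ i, y i ∈ M.s (e i)) :
    MvPolynomial σ k →ₐ[k] M.alg :=
  MvPolynomial.aeval fun i => M.el (h i)

/-- The graded algebra is formally smooth over the polynomial ring, by `Y_i ↦ y_i` in
degree `e i`. -/
def LSm (M : Fam k K ι) (e : σ → ι) (y : σ → K) : Prop :=
  ∃ h : ∀ i, y i ∈ M.s (e i), (pol M e y h).toRingHom.FormallySmooth

/-- `z` is in the piece of degree `d` of the homogeneous localisation at `P`. -/
def LocP {M : Fam k K ι} (P : GP M) (d : ι) (z : K) : Prop :=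
  ∃ (b : ι) (u : K), u ∈ M.s b ∧ u ∉ P.I b ∧ u * z ∈ M.s (b + d)

/-- `z` is a unit of degree `d` of the homogeneous localisation at `P`. -/
def UniP {M : Fam k K ι} (P : GP M) (d : ι) (z : K) : Prop :=
  ∃ (b : ι) (u : K), u ∈ M.s b ∧ u ∉ P.I b ∧ u * z ∈ M.s (b + d) ∧ u * z ∉ P.I (b + d)

/-- At every semistable graded prime the elements of `T` generate the ideal generated by a
monomial in the elements `1` of degrees `e i`. -/
def MonAt [Fintype σ] (M : Fam k K ι) (θ : ι) (e : σ → ι) (T : Set K) : Prop :=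
  ∀ P : GP M, P.Semi θ → ∃ t : σ → ℕ, (∀ a ∈ T, LocP P (-∑ i, t i • e i) a) ∧
    ∃ a ∈ T, UniP P (-∑ i, t i • e i) a

/-- The logarithmic data: the elements `1` of degrees `e i` are part of a system of coordinates
at the semistable points, the element `1` of degree `-θ` is a monomial in them, and the sets
`T ∈ 𝒯` generate monomial ideals. -/
structure LogI [Fintype σ] (M : Fam k K ι) (θ : ι) (e : σ → ι) (𝒯 : Set (Set K)) : Prop where
  one : ∀ i, (1 : K) ∈ M.s (e i)
  sm : ∀ P : GP M, P.Semi θ → ∃ (b : ι) (x : K) (hx : x ∈ M.s b), x ∉ P.I b ∧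
    LSm (M.loc hx) e (fun _ => 1)
  neg : ∃ m : σ → ℕ, -θ = ∑ i, m i • e i
  mon : ∀ T ∈ 𝒯, MonAt M θ e T

end Pool.Agent.MP_b525bf_ag_EL
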