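import Pool.Agent.Lib.MP_b525bf_ag_EL.Defs
import Pool.Agent.Lib.LU2_h15.Stage3B

/-!
# Theorem EL, row GPV: the graded prime at the center of a valuation

`gpV` is the graded prime of the elements `x` of degree `a` such that `x y / b ^ n` has value
`< 1` for all `y` of degree `n η - a`.

Recipe. (1) `gpV`: `mul'`: if `x ∈ M.s a`, `y ∈ I c`, `w ∈ M.s (n • η - (a + c))`, then
`w x ∈ M.s (n • η - c)`. `prime'`: if `x ∉ I a`, `y ∉ I c`, there are `n, x'`, `m, y'` with
`v (x x') ≥ v b ^ n`, `v (y y') ≥ v b ^ m`; `x' y' ∈ M.s ((n + m) • η - (a + c))`.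
(2) `semi`: `n = 1`, `y = 1`. (3) `LocP P 0 z → z ∈ V`: `u ∉ P.I c` gives `w ∈ M.s (n • η - c)` with
`v (u w) ≥ v b ^ n`, and `u z w ∈ M.s (n • η)` has value `≤ v b ^ n`. The element
`q = u w / b ^ n` of `zeroSub (M.loc hb)` has value one, `q z ∈ zeroSub (M.loc hb)`: this gives `≤`
of (5) for `y = b`; if `y = b y'` then `zeroSub (M.loc hb) ≤ zeroSub (M.loc hy)`. `≥`: if
`z ∈ zeroSub (M.loc hy)` then `y ^ m z ∈ M.s (m • a)`, `y ^ m ∉ P.I _`: `LocP P 0 z`; if
`v z = 1` then `LocP P 0 z⁻¹`: `y ^ m z ∉ P.I _` because `y ^ m z = z y ^ m` and some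
`w` has `v (y ^ m w) ≥ v b ^ n` (use this element).
-/

set_option autoImplicit false
set_option linter.unusedVariables false

namespace Pool.Agent.MP_b525bf_ag_EL

open Pool.Agent.LU2 Pool.Agent.MP_b525bf_ag Pool.Agent.MP_b525bf_ag_E

variable {k K ι : Type} [Field k] [Field K] [Algebra k K] [AddCommGroup ι]

/-- The values of the elements of degree `n η` are at most `n` times the value of `b`. -/
def Top (V : ValuationSubring K) (M : Fam k K ι) (η : ι) (b : K) : Prop :=
  ∀ (n : ℕ) (z : K), z ∈ M.s (n • η) → V.valuation z ≤ V.valuation b ^ n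

/-- The graded prime at the center of `V`. -/
def gpV {V : ValuationSubring K} (hk : ∀ c : k, algebraMap k K c ∈ V) {M : Fam k K ι} {η : ι}
    {b : K} (hb : b ∈ M.s η) (hb0 : b ≠ 0) (hV : Top V M η b) : GP M where
  I a :=
    { carrier := {x | x ∈ M.s a ∧ ∀ (n : ℕ) (y : K), y ∈ M.s (n • η - a) →
        V.valuation (x * y) < V.valuation b ^ n}
      add_mem' := by
        rintro x x' ⟨hx, hx'⟩ ⟨hy, hy'⟩
        refine ⟨Submodule.add_mem _ hx hy, fun n y h => ?_⟩
        rw [add_mul]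
        exact Valuation.map_add_lt _ (hx' n y h) (hy' n y h)
      zero_mem' := by
        refine ⟨Submodule.zero_mem _, fun n y _ => ?_⟩
        rw [zero_mul, map_zero]
        exact pow_pos (zero_lt_iff.mpr ((Valuation.ne_zero_iff _).mpr hb0)) n
      smul_mem' := by
        rintro c x ⟨hx, hx'⟩
        refine ⟨Submodule.smul_mem _ _ hx, fun n y h => ?_⟩
        rw [Algebra.smul_def, mul_assoc, map_mul]
        refine lt_of_le_of_lt ?_ (hx' n y h)
        exact mul_le_of_le_one_left' ((V.valuation_le_one_iff _).mpr (hk c)) }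
  le' := fun a x hx => hx.1
  mul' := by
    rintro a c x y hx ⟨hy, hy'⟩
    refine ⟨M.mul' hx hy, fun n w hw => ?_⟩
    have h1 : w * x ∈ M.s (n • η - c) := by
      have := M.mul' hw hx
      have e : n • η - (a + c) + a = n • η - c := by abel
      rwa [e] at this
    have h2 := hy' n _ h1
    have e : x * y * w = y * (w * x) := by ring
    rwa [e]
  one' := by
    rintro ⟨_, h⟩
    have := h 1 b (by rwa [one_nsmul, sub_zero])
    rw [one_mul, pow_one] at this
    exact lt_irrefl _ this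
  prime' := by
    rintro a c x y hx hy ⟨_, h⟩
    by_contra hno
    push Not at hno
    obtain ⟨h1, h2⟩ := hno
    have h1' : ∃ (n : ℕ) (x' : K), x' ∈ M.s (n • η - a) ∧
        V.valuation b ^ n ≤ V.valuation (x * x') := by
      by_contra hh
      push Not at hh
      exact h1 ⟨hx, hh⟩
    have h2' : ∃ (n : ℕ) (y' : K), y' ∈ M.s (n • η - c) ∧
        V.valuation b ^ n ≤ V.valuation (y * y') := by
      by_contra hh
      push Not at hh
      exact h2 ⟨hy, hh⟩
    obtain ⟨n, x', hx', hvx⟩ := h1'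
    obtain ⟨m, y', hy', hvy⟩ := h2'
    have h3 : x' * y' ∈ M.s ((n + m) • η - (a + c)) := by
      have := M.mul' hx' hy'
      have e : n • η - a + (m • η - c) = (n + m) • η - (a + c) := by
        rw [add_nsmul]
        abel
      rwa [e] at this
    have h4 := h (n + m) _ h3
    have e : x * y * (x' * y') = x * x' * (y * y') := by ring
    rw [e, map_mul, pow_add] at h4
    exact absurd h4 (not_lt.mpr (mul_le_mul' hvx hvy))

variable {V : ValuationSubring K} (hk : ∀ c : k, algebraMap k K c ∈ V) {M : Fam k K ι} {η : ι}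
    {b : K} (hb : b ∈ M.s η) (hb0 : b ≠ 0) (hV : Top V M η b)

theorem b_notMem : b ∉ (gpV hk hb hb0 hV).I η := by
  rintro ⟨_, h⟩
  have := h 1 1 (by rw [one_nsmul, sub_self]; exact M.one')
  rw [mul_one, pow_one] at this
  exact lt_irrefl _ this

theorem exists_of_notMem_gpV {c : ι} {u : K} (hu : u ∈ M.s c)
    (hu' : u ∉ (gpV hk hb hb0 hV).I c) : ∃ (n : ℕ) (w : K), w ∈ M.s (n • η - c) ∧
      V.valuation (u * w) = V.valuation b ^ n := by
  have h1 : ∃ (n : ℕ) (w : K), w ∈ M.s (n • η - c) ∧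
      V.valuation b ^ n ≤ V.valuation (u * w) := by
    by_contra hh
    push Not at hh
    exact hu' ⟨hu, hh⟩
  obtain ⟨n, w, hw, h2⟩ := h1
  refine ⟨n, w, hw, le_antisymm (hV n _ ?_) h2⟩
  have := M.mul' hu hw
  rwa [add_sub_cancel] at this

theorem notMem_gpV {c : ι} {u : K} {n : ℕ} {w : K} (hw : w ∈ M.s (n • η - c))
    (h : V.valuation (u * w) = V.valuation b ^ n) : u ∉ (gpV hk hb hb0 hV).I c := by
  rintro ⟨_, hh⟩
  have := hh n w hw
  rw [h] at this
  exact lt_irrefl _ this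

theorem mem_V_of_locP {z : K} (hz : LocP (gpV hk hb hb0 hV) 0 z) : z ∈ V := by
  obtain ⟨c, u, hu, hu', huz⟩ := hz
  obtain ⟨n, w, hw, h1⟩ := exists_of_notMem_gpV hk hb hb0 hV hu hu'
  have h2 : u * z * w ∈ M.s (n • η) := by
    have := M.mul' huz hw
    have e : c + 0 + (n • η - c) = n • η := by abel
    rwa [e] at this
  have h3 := hV n _ h2
  have e : u * z * w = z * (u * w) := by ring
  rw [e, map_mul, h1] at h3
  rw [← V.valuation_le_one_iff]
  have hpos : 0 < V.valuation b ^ n :=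
    pow_pos (zero_lt_iff.mpr ((Valuation.ne_zero_iff _).mpr hb0)) n
  by_contra hlt
  rw [not_le] at hlt
  have := mul_lt_mul_of_pos_right hlt hpos
  rw [one_mul] at this
  exact absurd h3 (not_le.mpr this)

theorem uniP_iff {z : K} : UniP (gpV hk hb hb0 hV) 0 z ↔
    LocP (gpV hk hb hb0 hV) 0 z ∧ V.valuation z = 1 := by
  constructor
  · rintro ⟨c, u, hu, hu', huz, huz'⟩
    have hz : LocP (gpV hk hb hb0 hV) 0 z := ⟨c, u, hu, hu', huz⟩
    refine ⟨hz, ?_⟩
    have hz0 : z ≠ 0 := by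
      rintro rfl
      rw [mul_zero] at huz'
      exact huz' (Submodule.zero_mem _)
    have hz' : LocP (gpV hk hb hb0 hV) 0 z⁻¹ := by
      refine ⟨c + 0, u * z, huz, huz', ?_⟩
      rw [mul_inv_cancel_right₀ hz0, add_zero, add_zero]
      exact hu
    have h1 := (V.valuation_le_one_iff _).mpr (mem_V_of_locP hk hb hb0 hV hz)
    have h2 := (V.valuation_le_one_iff _).mpr (mem_V_of_locP hk hb hb0 hV hz')
    rw [map_inv₀] at h2
    have h3 : 0 < V.valuation z := zero_lt_iff.mpr ((Valuation.ne_zero_iff _).mpr hz0)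
    exact le_antisymm h1 ((inv_le_one₀ h3).mp h2)
  · rintro ⟨⟨c, u, hu, hu', huz⟩, hv⟩
    obtain ⟨n, w, hw, h1⟩ := exists_of_notMem_gpV hk hb hb0 hV hu hu'
    refine ⟨c, u, hu, hu', huz, ?_⟩
    refine notMem_gpV hk hb hb0 hV (n := n) (w := w) (by rwa [add_zero]) ?_
    have e : u * z * w = z * (u * w) := by ring
    rw [e, map_mul, hv, one_mul, h1]

theorem locP_iff_locV {a : ι} {y : K} (hy : y ∈ M.s (η + a)) (hyP : y ∉ (gpV hk hb hb0 hV).I (η + a))
    {y' : K} (hy' : y' ∈ M.s a) (hbb : y = b * y') (z : K) :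
    LocP (gpV hk hb hb0 hV) 0 z ↔ z ∈ locV V (zeroSub (M.loc hy)) := by
  have hvb : V.valuation b ≠ 0 := (Valuation.ne_zero_iff _).mpr hb0
  constructor
  · rintro ⟨c, u, hu, hu', huz⟩
    obtain ⟨n, w, hw, h1⟩ := exists_of_notMem_gpV hk hb hb0 hV hu hu'
    have hbn : b ^ n ≠ 0 := pow_ne_zero n hb0
    have hq1 : V.valuation (u * w / b ^ n) = 1 := by
      rw [map_div₀, h1, map_pow, div_self (pow_ne_zero n hvb)]
    have hq0 : u * w / b ^ n ≠ 0 := by
      intro h0
      rw [h0, map_zero] at hq1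
      exact zero_ne_one hq1
    refine ⟨u * z * w / b ^ n, ?_, u * w / b ^ n, ?_, hq1, ?_⟩
    · refine ⟨n, ?_⟩
      have e1 : y ^ n * (u * z * w / b ^ n) = y' ^ n * (u * z * w) := by
        rw [hbb, mul_pow]
        field_simp
      rw [e1]
      have := M.mul' (M.pow' hy' n) (M.mul' huz hw)
      have e2 : n • a + (c + 0 + (n • η - c)) = n • (η + a) + 0 := by
        rw [nsmul_add]
        abel
      rwa [e2] at this
    · refine ⟨n, ?_⟩
      have e1 : y ^ n * (u * w / b ^ n) = y' ^ n * (u * w) := by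
        rw [hbb, mul_pow]
        field_simp
      rw [e1]
      have := M.mul' (M.pow' hy' n) (M.mul' hu hw)
      have e2 : n • a + (c + (n • η - c)) = n • (η + a) + 0 := by
        rw [nsmul_add]
        abel
      rwa [e2] at this
    · rw [eq_div_iff hq0]
      ring
  · have key : ∀ r ∈ zeroSub (M.loc hy), LocP (gpV hk hb hb0 hV) 0 r := by
      rintro r ⟨m, hm⟩
      exact ⟨m • (η + a), y ^ m, M.pow' hy m, GP.pow_notMem _ hy hyP m, hm⟩
    rintro ⟨p, hp, q, hq, hvq, rfl⟩
    obtain ⟨c, u, hu, hu', huq, huq'⟩ := (uniP_iff hk hb hb0 hV).mpr ⟨key q hq, hvq⟩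
    obtain ⟨c', u', hv, hv', hvp⟩ := key p hp
    have hq0 : q ≠ 0 := by
      rintro rfl
      rw [map_zero] at hvq
      exact zero_ne_one hvq
    refine ⟨c' + (c + 0), u' * (u * q), M.mul' hv huq, GP.mul_notMem _ hv hv' huq huq', ?_⟩
    have e1 : u' * (u * q) * (p / q) = u' * p * u := by
      field_simp
    rw [e1]
    have := M.mul' hvp hu
    have e2 : c' + 0 + c = c' + (c + 0) + 0 := by abel
    rwa [e2] at this

end Pool.Agent.MP_b525bf_ag_EL
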