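import Pool.Agent.Lib.MP_b525bf_ag_EL.StmtDefs
import Pool.Agent.Lib.LU2G.StatementE

/-!
# Theorem EL, row LDS: log desingularization from parameters

Recipe. This is the second half of the proof of `logUniformizable_of_LU_ess`
(`LU2G/StatementE.lean`), with `g := j0 * b`, `d0`, `j0`, `b` given, `A'` there replaced by `S`, and
`I` given. `chart (J * I) (j0 * b)` and `chart I b` have the same center ring `locV V S`: a
generator `x y / (j0 b)` (`x ∈ J`, `y ∈ I`) is `(x / j0) (y / b)`, and `y / b = j0 y / (j0 b)`.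
`C9e.equivOfMem`, `C9e.isRegular_locV` are there (`LU2G.chart` and `LU2.chart` are the same
definition).
-/

set_option autoImplicit false
set_option linter.unusedVariables false

namespace Pool.Agent.MP_b525bf_ag_EL

open Pool.Agent.LU2

theorem isLogDesing_of {k A : Type} [Field k] [CommRing A] [IsDomain A] [Algebra k A]
    (V : ValuationSubring (FractionRing A)) (hV : ∀ a : A, algebraMap A (FractionRing A) a ∈ V)
    (D J I : Ideal A) {d0 j0 b : A} (hd0 : d0 ∈ D) (hj0 : j0 ∈ J) (hb : b ∈ I) (hd00 : d0 ≠ 0)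
    (hj00 : j0 ≠ 0) (hb0 : b ≠ 0)
    (hbI : ∀ a ∈ I, V.valuation (algebraMap A (FractionRing A) a) ≤
      V.valuation (algebraMap A (FractionRing A) b))
    (S : Subalgebra k (FractionRing A)) (hfg : S.FG) (hS : ∀ z ∈ S, z ∈ V)
    (hO : ∀ z, z ∈ centerRing V (chart I b) ↔ z ∈ locV V S)
    (hD : ∀ a ∈ D, algebraMap A (FractionRing A) a / algebraMap A (FractionRing A) d0 ∈ locV V S)
    (hJ : ∀ a ∈ J, algebraMap A (FractionRing A) a / algebraMap A (FractionRing A) j0 ∈ locV V S)
    {r : ℕ} {z : Fin r → FractionRing A} (hz : IsPar V (locV V S) z) (n : Fin r → ℕ)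
    {u : FractionRing A} (hu : u ∈ locV V S) (hu1 : V.valuation u = 1)
    (hn : algebraMap A (FractionRing A) (d0 * (j0 * b)) = (∏ i, z i ^ n i) * u) :
    IsLogDesing V D (J * I) := by
  classical
  have hφ : Function.Injective (algebraMap A (FractionRing A)) :=
    IsFractionRing.injective A (FractionRing A)
  let φ : A →+* FractionRing A := algebraMap A (FractionRing A)
  have hφ0 : ∀ a : A, a ≠ 0 → φ a ≠ 0 := fun a ha h => ha (hφ (by
    change φ a = _
    rw [h, map_zero]))
  have hφv : ∀ a : A, V.valuation (φ a) ≤ 1 := fun a => (V.valuation_le_one_iff _).2 (hV a)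
  obtain ⟨hreg, hmax⟩ := Pool.Agent.LU2G.C9e.isRegular_locV hS hfg hz
  have hj0' : φ j0 ≠ 0 := hφ0 j0 hj00
  have hd0' : φ d0 ≠ 0 := hφ0 d0 hd00
  have hb0' : φ b ≠ 0 := hφ0 b hb0
  have hjb : j0 * b ≠ 0 := mul_ne_zero hj00 hb0
  -- elements of the charts
  have hch : ∀ z ∈ chart I b, z ∈ locV V S := fun z hz =>
    (hO z).1 ⟨z, hz, 1, (chart I b).one_mem, map_one _, by rw [div_one]⟩
  have hAR : ∀ a : A, φ a ∈ locV V S := fun a => hch _ ((chart I b).algebraMap_mem a)
  have hIR : ∀ a ∈ I, φ a / φ b ∈ locV V S := fun a ha =>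
    hch _ (Algebra.subset_adjoin ⟨a, ha, rfl⟩)
  have hJIR : ∀ a ∈ J * I, φ a / φ (j0 * b) ∈ locV V S := by
    intro a ha
    refine Submodule.mul_induction_on ha ?_ ?_
    · intro m hm n hn
      rw [map_mul, map_mul, ← div_mul_div_comm]
      exact Subalgebra.mul_mem _ (hJ m hm) (hIR n hn)
    · intro x y hx hy
      rw [map_add, add_div]
      exact Subalgebra.add_mem _ hx hy
  have hDJIR : ∀ a ∈ D * (J * I), φ a / φ (d0 * (j0 * b)) ∈ locV V S := by
    intro a ha
    refine Submodule.mul_induction_on ha ?_ ?_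
    · intro m hm n hn
      rw [map_mul, map_mul, ← div_mul_div_comm]
      exact Subalgebra.mul_mem _ (hD m hm) (hJIR n hn)
    · intro x y hx hy
      rw [map_add, add_div]
      exact Subalgebra.add_mem _ hx hy
  -- the two rings are equal
  have hSR : ∀ f ∈ chart (J * I) (j0 * b), f ∈ locV V S := by
    intro f hf
    refine Algebra.adjoin_induction (p := fun f _ => f ∈ locV V S) ?_ ?_ ?_ ?_ hf
    · rintro f ⟨a, ha, rfl⟩
      exact hJIR a ha
    · intro a
      exact hAR a
    · intro x y _ _ hx hy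
      exact Subalgebra.add_mem _ hx hy
    · intro x y _ _ hx hy
      exact Subalgebra.mul_mem _ hx hy
  have hS' : chart I b ≤ chart (J * I) (j0 * b) := by
    refine Algebra.adjoin_le ?_
    rintro f ⟨a, ha, rfl⟩
    refine Algebra.subset_adjoin ⟨j0 * a, Ideal.mul_mem_mul hj0 ha, ?_⟩
    change φ a / φ b = φ (j0 * a) / φ (j0 * b)
    rw [map_mul, map_mul, mul_div_mul_left _ _ hj0']
  have hmem : ∀ f, f ∈ centerRing V (chart (J * I) (j0 * b)) ↔ f ∈ locV V S := by
    intro f
    constructor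
    · rintro ⟨a, ha, c, hc, hvb, rfl⟩
      rw [div_eq_mul_inv]
      exact Subalgebra.mul_mem _ (hSR a ha) (locV_inv (hSR c hc) hvb)
    · intro hf
      obtain ⟨a, ha, c, hc, hvc, rfl⟩ := (hO f).2 hf
      exact ⟨a, hS' ha, c, hS' hc, hvc, rfl⟩
  let e : centerRing V (chart (J * I) (j0 * b)) ≃+* locV V S :=
    Pool.Agent.LU2G.C9e.equivOfMem _ _ hmem
  have hregO : IsRegularLocalRing (centerRing V (chart (J * I) (j0 * b))) :=
    IsRegularLocalRing.of_ringEquiv e.symm
  -- the parameters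
  let x : Fin r → centerRing V (chart (J * I) (j0 * b)) := fun i => e.symm ⟨z i, hz.mem i⟩
  have hu0 : u ≠ 0 := by
    rintro rfl
    rw [map_zero] at hu1
    exact zero_ne_one hu1
  have hu' : u⁻¹ ∈ locV V S := locV_inv hu hu1
  let s : Finset (Fin r) := Finset.univ.filter fun i => n i ≠ 0
  refine ⟨j0 * b, Ideal.mul_mem_mul hj0 hb, hjb, ?_, hregO, r, x, s, ?_, ?_, ?_⟩
  · intro a ha
    change V.valuation (φ a) ≤ V.valuation (φ (j0 * b))
    have h1 : V.valuation (φ a / φ (j0 * b)) ≤ 1 :=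
      (V.valuation_le_one_iff _).2 (locV_mem hS _ (hJIR a ha))
    have h2 : φ a = (φ a / φ (j0 * b)) * φ (j0 * b) := by
      rw [div_mul_cancel₀ _ (hφ0 _ hjb)]
    rw [h2, map_mul]
    exact mul_le_of_le_one_left' h1
  · rw [ringKrullDim_eq_of_ringEquiv e, hz.dim]
  · rw [← IsLocalRing.map_ringEquiv_maximalIdeal e.symm, hmax, Ideal.map_span]
    congr 1
    ext f
    constructor
    · rintro ⟨_, ⟨o, rfl⟩, rfl⟩
      exact ⟨o, rfl⟩
    · rintro ⟨i, rfl⟩
      exact ⟨_, ⟨i, rfl⟩, rfl⟩
  · ext P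
    have hP := P.isPrime
    rw [PrimeSpectrum.mem_zeroLocus, PrimeSpectrum.mem_zeroLocus, Set.singleton_subset_iff,
      SetLike.coe_subset_coe, Ideal.map_le_iff_le_comap, SetLike.mem_coe]
    let O := centerRing V (chart (J * I) (j0 * b))
    let t : O := algebraMap A O (d0 * (j0 * b))
    let U : O := e.symm ⟨u, hu⟩
    have hU : U ∉ P.asIdeal := by
      intro h1
      apply hP.ne_top
      rw [Ideal.eq_top_iff_one]
      have h2 : (1 : O) = U * e.symm ⟨u⁻¹, hu'⟩ := by
        apply Subtype.ext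
        exact (mul_inv_cancel₀ hu0).symm
      rw [h2]
      exact Ideal.mul_mem_right _ _ h1
    have ht : t = (∏ i, x i ^ n i) * U := by
      apply Subtype.ext
      change φ (d0 * (j0 * b)) = _
      refine hn.trans ?_
      push_cast
      rfl
    have hA : D * (J * I) ≤ Ideal.comap (algebraMap A O) P.asIdeal ↔ t ∈ P.asIdeal := by
      constructor
      · intro h1
        exact h1 (Ideal.mul_mem_mul hd0 (Ideal.mul_mem_mul hj0 hb))
      · intro h1 a ha
        rw [Ideal.mem_comap]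
        have h2 : algebraMap A O a =
            t * (⟨φ a / φ (d0 * (j0 * b)), (hmem _).2 (hDJIR a ha)⟩ : O) := by
          apply Subtype.ext
          change φ a = φ (d0 * (j0 * b)) * (φ a / φ (d0 * (j0 * b)))
          rw [mul_div_cancel₀ _ (hφ0 _ (mul_ne_zero hd00 hjb))]
        rw [h2]
        exact Ideal.mul_mem_right _ _ h1
    rw [hA, ht]
    constructor
    · intro h1
      rcases hP.mem_or_mem h1 with h2 | h2
      · obtain ⟨i, -, h3⟩ := hP.prod_mem_iff.1 h2
        have hni : n i ≠ 0 := by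
          intro h4
          rw [h4, pow_zero] at h3
          exact hP.ne_top ((Ideal.eq_top_iff_one _).2 h3)
        exact hP.prod_mem_iff.2 ⟨i, Finset.mem_filter.2 ⟨Finset.mem_univ i, hni⟩,
          hP.mem_of_pow_mem _ h3⟩
      · exact absurd h2 hU
    · intro h1
      obtain ⟨i, hi, h3⟩ := hP.prod_mem_iff.1 h1
      refine Ideal.mul_mem_right _ _ (hP.prod_mem_iff.2 ⟨i, Finset.mem_univ i, ?_⟩)
      exact Ideal.pow_mem_of_mem _ h3 _ (Nat.pos_of_ne_zero (Finset.mem_filter.1 hi).2)

end Pool.Agent.MP_b525bf_ag_EL
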