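import Pool.Agent.Lib.LU2G.SmoothB

/-!
# Theorem EL, row PRM: parameters with given elements

Recipe. `O := locV V S` is a localisation of `S` at the prime `PI V S hS` (see
`isPar_of_smooth` in `LU2G/SmoothB.lean`), regular by `regular_of_smooth`. The classes of the
`F j` in the cotangent space of `O` are linearly independent: if `∑ a j * F j ∈ m ^ 2`, `a j ∈ O`,
multiply by an element of `S` of value one to get `a j ∈ S` and
`∑ a j * F j = ∑ g l * h l` with `g l, h l ∈ S` of value `< 1`; apply `Δ i`:
`V.valuation (a i) < 1`. Extend to a basis of the cotangent space (dimension `n`, the dimension of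
`O`) and lift it; Nakayama. `IsPar` is defined in `LU2_h15/Defs.lean`; compare `exists_isPar` in
`LU2G/SmoothB.lean`.
-/

set_option autoImplicit false
set_option linter.unusedVariables false

namespace Pool.Agent.MP_b525bf_ag_EL

open Pool.Agent.LU2 Pool.Agent.LU2G

open IsLocalRing

private theorem PRM_deriv_sq {k S : Type} [CommRing k] [CommRing S] [Algebra k S] (I : Ideal S)
    (Δ : Derivation k S S) {x : S} (hx : x ∈ I ^ 2) : Δ x ∈ I := by
  rw [pow_two] at hx
  induction hx using Submodule.mul_induction_on' with
  | mem_mul_mem a ha b hb =>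
    rw [Derivation.leibniz, smul_eq_mul, smul_eq_mul]
    exact I.add_mem (I.mul_mem_right _ ha) (I.mul_mem_right _ hb)
  | add a _ b _ iha ihb =>
    rw [map_add]
    exact I.add_mem iha ihb

theorem exists_par {k K : Type} [Field k] [Field K] [Algebra k K] {V : ValuationSubring K}
    (S : Subalgebra k K) (hfg : S.FG) (hS : ∀ f ∈ S, f ∈ V) (hsm : Algebra.FormallySmooth k S)
    {τ : Type} [Fintype τ] [DecidableEq τ] (F : τ → S) (hF : ∀ j, V.valuation (F j : K) < 1)
    (Δ : τ → Derivation k S S)
    (hΔ : ∀ i j, V.valuation ((Δ i (F j) - if i = j then 1 else 0 : S) : K) < 1) :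
    ∃ (n : ℕ) (z : Fin n → K) (g : τ → Fin n), Function.Injective g ∧
      IsPar V (locV V S) z ∧ ∀ j, z (g j) = F j := by
  classical
  have hprime := PI_prime V S hS
  have hle : S ≤ locV V S := le_locV S
  have hloc := isLocalization_locV V S (locV V S) hS hle rfl
  let _ := (Subalgebra.inclusion hle).toAlgebra
  have hft : Algebra.FiniteType k S := S.fg_iff_finiteType.mp hfg
  have hsm' : Algebra.Smooth k S := ⟨hsm, Algebra.FinitePresentation.of_finiteType.mp hft⟩
  have hreg0 := regular_of_smooth k S (PI V S hS)
  have hreg : IsRegularLocalRing (locV V S) := IsRegularLocalRing.of_ringEquiv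
    (IsLocalization.algEquiv (PI V S hS).primeCompl (Localization.AtPrime (PI V S hS))
      (locV V S)).toRingEquiv
  have hmem : ∀ x : locV V S, x ∈ maximalIdeal (locV V S) ↔ V.valuation (x : K) < 1 := by
    intro x
    rw [IsLocalRing.mem_maximalIdeal, mem_nonunits_iff,
      isUnit_iff_val (locV_mem hS) (fun _ hf h1 => locV_inv hf h1)]
    have h1 := (V.valuation_le_one_iff (x : K)).2 (locV_mem hS x x.2)
    exact ⟨fun h => lt_of_le_of_ne h1 h, fun h => h.ne⟩
  have hmap : ∀ x : S, ((algebraMap S (locV V S) x : locV V S) : K) = x := fun x => rfl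
  -- the classes of the `F j`
  let f : τ → maximalIdeal (locV V S) := fun j =>
    ⟨algebraMap S (locV V S) (F j), (hmem _).2 (hF j)⟩
  let v : τ → CotangentSpace (locV V S) := fun j => (maximalIdeal (locV V S)).toCotangent (f j)
  have hli : LinearIndependent (ResidueField (locV V S)) v := by
    rw [Fintype.linearIndependent_iff]
    intro g hg i
    choose α hα using fun j => IsLocalRing.residue_surjective (R := locV V S) (g j)
    have h1 : (maximalIdeal (locV V S)).toCotangent (∑ j, α j • f j) = 0 := by
      rw [map_sum, ← hg]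
      refine Finset.sum_congr rfl fun j _ => ?_
      rw [map_smul, ← hα j]
      exact (algebraMap_smul (ResidueField (locV V S)) (α j) (v j)).symm
    rw [Ideal.toCotangent_eq_zero] at h1
    have h2 : ((∑ j, α j • f j : maximalIdeal (locV V S)) : locV V S) =
        ∑ j, α j * algebraMap S (locV V S) (F j) := by
      rw [Submodule.coe_sum]
      rfl
    rw [h2] at h1
    obtain ⟨t, ht⟩ := IsLocalization.exist_integer_multiples_of_finite
      (PI V S hS).primeCompl (S := locV V S) α
    choose s hs using ht
    have hmax : maximalIdeal (locV V S) = (PI V S hS).map (algebraMap S (locV V S)) :=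
      (IsLocalization.AtPrime.map_eq_maximalIdeal (PI V S hS) (locV V S)).symm
    rw [hmax, ← Ideal.map_pow,
      IsLocalization.mem_map_algebraMap_iff (PI V S hS).primeCompl (locV V S)] at h1
    obtain ⟨⟨⟨a, ha⟩, t'⟩, h3⟩ := h1
    have h4 : ∑ j, s j * (t' : S) * F j = (t : S) * a := by
      apply Subtype.ext
      have h5 := congrArg (fun x : locV V S => (x : K)) h3
      have h6 : ∀ j, ((s j : S) : K) = (t : S) * (α j : K) := by
        intro j
        have h7 := congrArg (fun x : locV V S => (x : K)) (hs j)
        simp only [hmap] at h7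
        rw [h7, Algebra.smul_def]
        rfl
      simp only [MulMemClass.coe_mul, AddSubmonoidClass.coe_finsetSum, hmap] at h5 ⊢
      rw [← h5, Finset.sum_mul, Finset.mul_sum]
      refine Finset.sum_congr rfl fun j _ => ?_
      rw [h6]
      ring
    have h5 : Δ i (∑ j, s j * (t' : S) * F j) ∈ PI V S hS := by
      rw [h4]
      exact PRM_deriv_sq _ _ (Ideal.mul_mem_left _ _ ha)
    have h6 : Δ i (∑ j, s j * (t' : S) * F j) - s i * (t' : S) ∈ PI V S hS := by
      have h7 : Δ i (∑ j, s j * (t' : S) * F j) - s i * (t' : S) =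
          ∑ j, (s j * (t' : S) * (Δ i (F j) - if i = j then 1 else 0) +
            F j * Δ i (s j * (t' : S))) := by
        rw [map_sum, Finset.sum_add_distrib]
        simp only [Derivation.leibniz (Δ i) (s _ * (t' : S)) (F _), smul_eq_mul, mul_sub,
          Finset.sum_sub_distrib, Finset.sum_add_distrib, mul_ite, mul_one, mul_zero,
          Finset.sum_ite_eq, Finset.mem_univ, if_true]
        ring
      rw [h7]
      refine Ideal.sum_mem _ fun j _ => Ideal.add_mem _ (Ideal.mul_mem_left _ _ ?_)
        (Ideal.mul_mem_right _ _ ?_)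
      · exact hΔ i j
      · exact hF j
    have h7 : s i * (t' : S) ∈ PI V S hS := by
      have h8 := Ideal.sub_mem _ h5 h6
      rwa [sub_sub_cancel] at h8
    have h8 : s i ∈ PI V S hS := (hprime.mem_or_mem h7).resolve_right t'.2
    have h9 : α i ∈ maximalIdeal (locV V S) := by
      rw [hmem]
      have h10 := congrArg (fun x : locV V S => (x : K)) (hs i)
      simp only [hmap] at h10
      have h11 : V.valuation ((s i : S) : K) < 1 := h8
      have h12 : V.valuation (((t : S) : S) : K) = 1 := by
        have h13 := (V.valuation_le_one_iff (((t : S) : S) : K)).2 (hS _ (t : S).2)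
        exact le_antisymm h13 (not_lt.mp t.2)
      rw [h10, Algebra.smul_def] at h11
      have h14 : (((algebraMap S (locV V S) (t : S)) * α i : locV V S) : K) =
          ((t : S) : K) * (α i : K) := rfl
      rw [h14, map_mul, h12, one_mul] at h11
      exact h11
    rw [← hα i]
    exact (IsLocalRing.residue_eq_zero_iff _).mpr h9
  -- extension to a basis
  have hli2 : LinearIndepOn (ResidueField (locV V S)) id (Set.range v) := hli.linearIndepOn_id
  let b := Module.Basis.extend hli2
  let X := hli2.extend (Set.subset_univ (Set.range v))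
  have hfin : Fintype X := FiniteDimensional.fintypeBasisIndex b
  have hb : ∀ x : X, b x = x := fun x => Module.Basis.extend_apply_self hli2 x
  have hvX : ∀ j, v j ∈ X := fun j => hli2.subset_extend _ ⟨j, rfl⟩
  choose ℓ0 hℓ0 using fun x : X => Ideal.toCotangent_surjective (maximalIdeal (locV V S)) x.1
  let ℓ : X → maximalIdeal (locV V S) := fun x =>
    if h : ∃ j, v j = x then f h.choose else ℓ0 x
  have hℓ : ∀ x, (maximalIdeal (locV V S)).toCotangent (ℓ x) = x := by
    intro x
    by_cases h : ∃ j, v j = x
    · simp only [ℓ, dif_pos h]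
      exact h.choose_spec
    · simp only [ℓ, dif_neg h]
      exact hℓ0 x
  have hℓv : ∀ j, ℓ ⟨v j, hvX j⟩ = f j := by
    intro j
    have h : ∃ j', v j' = ((⟨v j, hvX j⟩ : X) : CotangentSpace (locV V S)) := ⟨j, rfl⟩
    simp only [ℓ, dif_pos h]
    rw [hli.injective h.choose_spec]
  let e := Fintype.equivFin X
  have hspan : Submodule.span (locV V S) (Set.range ℓ) = ⊤ := by
    rw [← CotangentSpace.span_image_eq_top_iff]
    have h1 : (maximalIdeal (locV V S)).toCotangent '' Set.range ℓ = Set.range b := by
      rw [← Set.range_comp]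
      congr 1
      funext x
      rw [hb]
      exact hℓ x
    rw [h1]
    exact b.span_eq
  refine ⟨Fintype.card X, fun i => ((ℓ (e.symm i) : locV V S) : K), fun j => e ⟨v j, hvX j⟩,
    ?_, ⟨?_, ?_, ?_, ?_, ?_⟩, ?_⟩
  · intro j j' h
    have h1 := e.injective h
    exact hli.injective (congrArg Subtype.val h1)
  · intro i
    exact (ℓ (e.symm i) : locV V S).2
  · intro i h
    have h1 : ℓ (e.symm i) = 0 := Subtype.ext (Subtype.ext h)
    have h2 := hℓ (e.symm i)
    rw [h1, map_zero] at h2
    have h3 := b.ne_zero (e.symm i)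
    rw [hb] at h3
    exact h3 h2.symm
  · intro i
    exact (hmem _).1 (ℓ (e.symm i)).2
  · intro x hx hx1
    have h1 : (⟨⟨x, hx⟩, (hmem _).2 hx1⟩ : maximalIdeal (locV V S)) ∈
        Submodule.span (locV V S) (Set.range ℓ) := by
      rw [hspan]
      trivial
    rw [Submodule.mem_span_range_iff_exists_fun] at h1
    obtain ⟨c, hc⟩ := h1
    refine ⟨fun i => ((c (e.symm i) : locV V S) : K), fun i => (c (e.symm i)).2, ?_⟩
    have h2 := congrArg (fun y : maximalIdeal (locV V S) => ((y : locV V S) : K)) hc
    have h3 : (((∑ x : X, c x • ℓ x : maximalIdeal (locV V S)) : locV V S) : K) =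
        ∑ x : X, (c x : K) * ((ℓ x : locV V S) : K) := by
      rw [Submodule.coe_sum, AddSubmonoidClass.coe_finsetSum]
      rfl
    simp only [h3] at h2
    rw [← h2]
    exact (e.symm.sum_comp fun x => (c x : K) * ((ℓ x : locV V S) : K)).symm
  · rw [← hreg.spanFinrank_maximalIdeal, spanFinrank_maximalIdeal_eq_finrank_cotangentSpace,
      Module.finrank_eq_card_basis b]
  · intro j
    show ((ℓ (e.symm (e ⟨v j, hvX j⟩)) : locV V S) : K) = F j
    rw [e.symm_apply_apply, hℓv]
    rfl

end Pool.Agent.MP_b525bf_ag_EL
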