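import Pool.Agent.Lib.MP_b525bf_ag_EL.Defs

/-!
# Theorem EL, row REL: general facts on `LSm`
-/

set_option autoImplicit false
set_option linter.unusedVariables false

namespace Pool.Agent.MP_b525bf_ag_EL

open Pool.Agent.MP_b525bf_ag

variable {k K ι σ : Type} [Field k] [Field K] [Algebra k K] [AddCommGroup ι]

/-- `MvPolynomial σ k` is formally smooth over `k`. -/
theorem LSm.smooth {M : Fam k K ι} {e : σ → ι} {y : σ → K} (h : LSm M e y) :
    Algebra.FormallySmooth k M.alg := by
  obtain ⟨h1, h2⟩ := h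
  have hC : (algebraMap k (MvPolynomial σ k)).FormallySmooth :=
    RingHom.formallySmooth_algebraMap.2 inferInstance
  have h3 := hC.comp h2
  have h4 : ((pol M e y h1).toRingHom).comp (algebraMap k (MvPolynomial σ k)) =
      algebraMap k M.alg := (pol M e y h1).comp_algebraMap
  rw [h4] at h3
  exact RingHom.formallySmooth_algebraMap.1 h3

/-- The homomorphism is determined by the images of the variables; transport by an
isomorphism. -/
theorem LSm.of_equiv {K' ι' : Type} [Field K'] [Algebra k K'] [AddCommGroup ι']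
    {M : Fam k K ι} {N : Fam k K' ι'} {e : σ → ι} {y : σ → K} {e' : σ → ι'} {y' : σ → K'}
    (h : LSm M e y) (φ : M.alg ≃ₐ[k] N.alg) (h' : ∀ i, y' i ∈ N.s (e' i))
    (hφ : ∀ i (hi : y i ∈ M.s (e i)), φ (M.el hi) = N.el (h' i)) : LSm N e' y' := by
  obtain ⟨h1, h2⟩ := h
  refine ⟨h', ?_⟩
  have h3 : (pol N e' y' h').toRingHom =
      (φ : M.alg ≃+* N.alg).toRingHom.comp (pol M e y h1).toRingHom := by
    have h4 : pol N e' y' h' = (φ : M.alg →ₐ[k] N.alg).comp (pol M e y h1) := by
      apply MvPolynomial.algHom_ext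
      intro i
      rw [pol, pol, MvPolynomial.aeval_X, AlgHom.comp_apply, MvPolynomial.aeval_X]
      exact (hφ i (h1 i)).symm
    rw [h4]
    rfl
  rw [h3]
  exact h2.comp (RingHom.FormallySmooth.of_bijective φ.bijective)

/-- Composition of `pol` with the localisation map (`toLoc`, `isLocalization_loc`,
`formallySmooth_loc` in `MP_b525bf_ag/FamLoc.lean`). -/
theorem LSm.loc {M : Fam k K ι} {e : σ → ι} {y : σ → K} (h : LSm M e y) {a : ι} {x : K}
    (hx : x ∈ M.s a) (hx0 : x ≠ 0) : LSm (M.loc hx) e y := by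
  obtain ⟨h1, h2⟩ := h
  refine ⟨fun i => M.le_loc hx _ (h1 i), ?_⟩
  have h3 : (pol (M.loc hx) e y fun i => M.le_loc hx _ (h1 i)).toRingHom =
      (M.toLoc hx).toRingHom.comp (pol M e y h1).toRingHom := by
    have h4 : (pol (M.loc hx) e y fun i => M.le_loc hx _ (h1 i)) =
        (M.toLoc hx).comp (pol M e y h1) := by
      apply MvPolynomial.algHom_ext
      intro i
      rw [pol, pol, MvPolynomial.aeval_X, AlgHom.comp_apply, MvPolynomial.aeval_X]
      exact (M.toLoc_el hx (h1 i)).symm
    rw [h4]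
    rfl
  rw [h3]
  refine h2.comp ?_
  let := (M.toLoc hx).toRingHom.toAlgebra
  have := M.isLocalization_loc hx hx0
  exact Algebra.FormallySmooth.of_isLocalization (Submonoid.powers (M.el hx))

theorem LSm.loc_mul {M : Fam k K ι} {e : σ → ι} {y : σ → K} {a b : ι} {x z : K}
    (hx : x ∈ M.s a) (hz : z ∈ M.s b) (hz0 : z ≠ 0) (h : LSm (M.loc hx) e y) :
    LSm (M.loc (M.mul' hx hz)) e y := by
  rw [← Fam.loc_loc M hx hz]
  exact LSm.loc h (M.le_loc hx b hz) hz0

/-- Localising at a power is the same. -/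
theorem loc_pow (M : Fam k K ι) {a : ι} {x : K} (hx : x ∈ M.s a) (hx0 : x ≠ 0) {n : ℕ}
    (hn : 0 < n) : M.loc (M.pow' hx n) = M.loc hx := by
  ext e z
  constructor
  · rintro ⟨m, h⟩
    refine ⟨m * n, ?_⟩
    have e1 : m • n • a + e = (m * n) • a + e := by rw [smul_smul]
    rw [e1] at h
    convert h using 1
    rw [← pow_mul, mul_comm n m]
  · rintro ⟨m, h⟩
    refine ⟨m, ?_⟩
    have hle : m ≤ m * n := Nat.le_mul_of_pos_right m hn
    have h1 := M.mul' (M.pow' hx (m * n - m)) h
    have e1 : (m * n - m) • a + (m • a + e) = m • n • a + e := by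
      rw [smul_smul, ← add_assoc, ← add_nsmul, Nat.sub_add_cancel hle]
    rw [e1] at h1
    convert h1 using 1
    rw [← mul_assoc, ← pow_add, Nat.sub_add_cancel hle, ← pow_mul, mul_comm n m]

end Pool.Agent.MP_b525bf_ag_EL
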