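import Pool.Agent.Lib.MP_b525bf_ag_EL.IDE
import Pool.Agent.Lib.MP_b525bf_ag_EL.GPV
import Pool.Agent.Lib.MP_b525bf_ag_EL.REL
import Pool.Agent.Lib.MP_b525bf_ag_EL.DER
import Pool.Agent.Lib.MP_b525bf_ag_EL.PRM
import Pool.Agent.Lib.MP_b525bf_ag_EL.LDS
import Pool.Agent.Lib.MP_b525bf_ag_helper12.Lift
import Pool.Agent.Lib.MP_b525bf_ag_h52d.Final

/-!
# Theorem EL, row FIN: the end of the proof

Recipe. Let `b ∈ I` be of least value (`C9e.exists_least`), `η := d • θ`, `P := gpV ..` (`Top` by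
`IsIdl.pow`: `z ∈ M.s (n • η) ⊆ M.s 0` .. is the image of an element of `I ^ n`). `P.Semi θ`.
Choose `y₁ ∈ M.s (n • θ)` with `unitDegs (M.loc hy₁) = ⊤` (`GoodI.exists_unit_top`) and `y₂` from
`log.sm`, `y := b * (y₁ * y₂)`, `N := M.loc hy`: `LSm N e 1` (`LSm.loc_mul`), `unitDegs N = ⊤`
(`unitDegs_loc_mul`), `ζ` from `exists_zeta`. `S := zeroSub N`: finitely generated and smooth over
`k` (`N.alg` is, and `S` is a retract; for `FG`: image of `N.alg` under the retraction), and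
`locV V S = {z | LocP P 0 z}` (`locP_iff_locV`) `= centerRing V (chart I b)` (`mem_chart`,
`locP_iff_locV` with `y = b`). Let `τ := {j // V.valuation (ζ (-(e j))) < 1}`; rows DER, PRM give the
parameters `z` with `z (g j) = ζ (-(e j))`, `j ∈ τ`; the other `ζ (-(e j))` are units. `MonAt` for
`T = D, J` gives `d0`, `j0`, `t`: `a / d0 ∈ LocP P 0`, and `d0 * ζ (∑ t i • e i)` is a unit of
degree zero, so `d0 = unit * ∏ ζ (-(e i)) ^ t i`. `neg` gives the same for `b`
(`b` is a unit of degree `η`, `-η = ∑ (d m i) • e i`). Row LDS.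
-/

set_option autoImplicit false
set_option linter.unusedVariables false

namespace Pool.Agent.MP_b525bf_ag_EL

open Pool.Agent.LU2 Pool.Agent.MP_b525bf_ag Pool.Agent.MP_b525bf_ag_E

section FIN_aux

variable {k K ι : Type} [Field k] [Field K] [Algebra k K] [AddCommGroup ι]

/-- The inclusion of the degree zero part. -/
private noncomputable def FIN_incl (N : Fam k K ι) : zeroSub N →ₐ[k] N.alg where
  toFun x := N.el (a := 0) (x := (x : K)) x.2
  map_one' := by
    refine Subtype.ext ?_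
    rfl
  map_mul' x y := by
    refine Subtype.ext ?_
    change AddMonoidAlgebra.single (0 : ι) ((x : K) * y) =
      AddMonoidAlgebra.single (0 : ι) (x : K) * AddMonoidAlgebra.single (0 : ι) (y : K)
    rw [AddMonoidAlgebra.single_mul_single, add_zero]
  map_zero' := by
    refine Subtype.ext ?_
    change AddMonoidAlgebra.single (0 : ι) (0 : K) = 0
    rw [AddMonoidAlgebra.single_zero]
  map_add' x y := by
    refine Subtype.ext ?_
    exact AddMonoidAlgebra.single_add _ _ _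
  commutes' c := by
    refine Subtype.ext ?_
    change AddMonoidAlgebra.single (0 : ι) (algebraMap k K c) =
      algebraMap k (AddMonoidAlgebra K ι) c
    rw [AddMonoidAlgebra.coe_algebraMap]
    rfl

/-- The retraction onto the degree zero part. -/
private theorem FIN_retr (N : Fam k K ι) (ζ : ι →+ Additive Kˣ)
    (hζ : ∀ a, ((ζ a).toMul : K) ∈ N.s a) :
    ∃ r : N.alg →ₐ[k] zeroSub N, r.comp (FIN_incl N) = AlgHom.id k (zeroSub N) := by
  have hmem : ∀ (a : ι) (x : K), x ∈ N.s a → x * ((ζ (-a)).toMul : K) ∈ zeroSub N := by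
    intro a x hx
    have h1 := N.mul' hx (hζ (-a))
    rwa [add_neg_cancel] at h1
  let φ : ∀ a, N.s a →ₗ[k] zeroSub N := fun a =>
    { toFun := fun x => ⟨(x : K) * ((ζ (-a)).toMul : K), hmem a x x.2⟩
      map_add' := by
        intro x y
        refine Subtype.ext ?_
        exact add_mul _ _ _
      map_smul' := by
        intro c x
        refine Subtype.ext ?_
        exact smul_mul_assoc _ _ _ }
  refine ⟨N.liftHom φ ?_ ?_, ?_⟩
  · refine Subtype.ext ?_
    change (1 : K) * ((ζ (-0)).toMul : K) = 1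
    rw [neg_zero, map_zero, toMul_zero, Units.val_one, one_mul]
  · intro a b x y hx hy
    refine Subtype.ext ?_
    change (x * y) * ((ζ (-(a + b))).toMul : K) =
      (x * ((ζ (-a)).toMul : K)) * (y * ((ζ (-b)).toMul : K))
    rw [neg_add, map_add, toMul_add, Units.val_mul]
    ring
  · refine AlgHom.ext fun x => ?_
    refine Subtype.ext ?_
    change ((N.linHom φ (N.el (a := 0) (x := (x : K)) x.2) : zeroSub N) : K) = x
    rw [Fam.linHom_el]
    change (x : K) * ((ζ (-0)).toMul : K) = x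
    rw [neg_zero, map_zero, toMul_zero, Units.val_one, mul_one]

private theorem FIN_zeroSub (N : Fam k K ι) (ζ : ι →+ Additive Kˣ)
    (hζ : ∀ a, ((ζ a).toMul : K) ∈ N.s a) (hft : Algebra.FiniteType k N.alg)
    (hsm : Algebra.FormallySmooth k N.alg) :
    (zeroSub N).FG ∧ Algebra.FormallySmooth k (zeroSub N) := by
  obtain ⟨r, hr⟩ := FIN_retr N ζ hζ
  refine ⟨?_, formallySmooth_of_retract (FIN_incl N) r hr hsm⟩
  rw [Subalgebra.fg_iff_finiteType]
  refine Algebra.FiniteType.of_surjective r fun x => ⟨FIN_incl N x, ?_⟩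
  exact DFunLike.congr_fun hr x

private theorem FIN_uniP_mul {M : Fam k K ι} {P : GP M} {a c : ι} {x y : K} (hx : UniP P a x)
    (hy : UniP P c y) : UniP P (a + c) (x * y) := by
  obtain ⟨b, u, hu, huP, h1, h2⟩ := hx
  obtain ⟨b', u', hu', huP', h1', h2'⟩ := hy
  have e1 : u * u' * (x * y) = u * x * (u' * y) := by ring
  have e2 : b + b' + (a + c) = b + a + (b' + c) := by abel
  refine ⟨b + b', u * u', M.mul' hu hu', P.mul_notMem hu huP hu' huP', ?_, ?_⟩
  · rw [e1, e2]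
    exact M.mul' h1 h1'
  · rw [e1, e2]
    exact P.mul_notMem h1 h2 h1' h2'

private theorem FIN_uniP_ne {M : Fam k K ι} {P : GP M} {a : ι} {x : K} (hx : UniP P a x) :
    x ≠ 0 := by
  obtain ⟨b, u, hu, huP, h1, h2⟩ := hx
  rintro rfl
  exact P.ne_zero_of_notMem h2 (mul_zero _)

private theorem FIN_uniP_of {M : Fam k K ι} {P : GP M} {a : ι} {x : K} (hx : x ∈ M.s a)
    (hxP : x ∉ P.I a) : UniP P a x := by
  refine ⟨0, 1, M.one', P.one', ?_, ?_⟩
  · rwa [one_mul, zero_add]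
  · rwa [one_mul, zero_add]

private theorem FIN_div {M : Fam k K ι} {P : GP M} {a : ι} {x y : K} (hx : LocP P a x)
    (hy : UniP P a y) : LocP P 0 (x / y) := by
  have hy0 := FIN_uniP_ne hy
  obtain ⟨b, u, hu, huP, h1⟩ := hx
  obtain ⟨b', u', hu', huP', h1', h2'⟩ := hy
  refine ⟨b + (b' + a), u * (u' * y), M.mul' hu h1', P.mul_notMem hu huP h1' h2', ?_⟩
  have e1 : u * (u' * y) * (x / y) = u * x * u' := by
    field_simp
  have e2 : b + (b' + a) + 0 = b + a + b' := by abel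
  rw [e1, e2]
  exact M.mul' h1 hu'

private theorem FIN_uniP_zeta {M : Fam k K ι} {P : GP M} {a : ι} {y : K} (hy : y ∈ M.s a)
    (hyP : y ∉ P.I a) (ζ : ι →+ Additive Kˣ) (hζ : ∀ c, ((ζ c).toMul : K) ∈ (M.loc hy).s c)
    (c : ι) : UniP P c ((ζ c).toMul : K) := by
  obtain ⟨m, hm⟩ := hζ c
  obtain ⟨m', hm'⟩ := hζ (-c)
  refine ⟨m • a, y ^ m, M.pow' hy m, P.pow_notMem hy hyP m, hm, fun h => ?_⟩
  have h1 := P.mul_left' h hm'
  have e1 : y ^ m * ((ζ c).toMul : K) * (y ^ m' * ((ζ (-c)).toMul : K)) = y ^ (m + m') := by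
    rw [map_neg, toMul_neg, Units.val_inv_eq_inv_val, pow_add]
    have h2 : ((ζ c).toMul : K) ≠ 0 := Units.ne_zero _
    field_simp
  have e2 : m • a + c + (m' • a + -c) = (m + m') • a := by
    rw [add_nsmul]
    abel
  rw [e1, e2] at h1
  exact P.pow_notMem hy hyP (m + m') h1

private theorem FIN_zeta_prod {σ : Type} [Fintype σ] (ζ : ι →+ Additive Kˣ) (e : σ → ι)
    (t : σ → ℕ) : ((ζ (-∑ i, t i • e i)).toMul : K) = ∏ i, ((ζ (-(e i))).toMul : K) ^ t i := by
  have h1 : -∑ i, t i • e i = ∑ i, t i • (-(e i)) := by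
    rw [← Finset.sum_neg_distrib]
    exact Finset.sum_congr rfl fun i _ => (smul_neg _ _).symm
  rw [h1, map_sum, toMul_sum, Units.coe_prod]
  refine Finset.prod_congr rfl fun i _ => ?_
  rw [map_nsmul, toMul_nsmul, Units.val_pow_eq_pow_val]

end FIN_aux

section FIN_main

variable {k K ι σ : Type} [Field k] [Field K] [Algebra k K] [AddCommGroup ι] [Fintype σ]

/-- A unit is a monomial times a unit of degree zero. -/
private theorem FIN_unit {V : ValuationSubring K} (hk : ∀ c : k, algebraMap k K c ∈ V)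
    {M : Fam k K ι} {η : ι} {b : K} (hb : b ∈ M.s η) (hb0 : b ≠ 0) (hV : Top V M η b)
    {a : ι} {y : K} (hy : y ∈ M.s (η + a)) (hyP : y ∉ (gpV hk hb hb0 hV).I (η + a))
    {y' : K} (hy' : y' ∈ M.s a) (hbb : y = b * y') (ζ : ι →+ Additive Kˣ)
    (hζ : ∀ c, ((ζ c).toMul : K) ∈ (M.loc hy).s c) (e : σ → ι) (t : σ → ℕ) {x : K}
    (hx : UniP (gpV hk hb hb0 hV) (-∑ i, t i • e i) x) :
    ∃ w ∈ locV V (zeroSub (M.loc hy)), V.valuation w = 1 ∧
      x = (∏ i, ((ζ (-(e i))).toMul : K) ^ t i) * w := by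
  have h1 := FIN_uniP_mul hx (FIN_uniP_zeta hy hyP ζ hζ (- -∑ i, t i • e i))
  rw [add_neg_cancel, uniP_iff] at h1
  refine ⟨_, (locP_iff_locV hk hb hb0 hV hy hyP hy' hbb _).1 h1.1, h1.2, ?_⟩
  rw [← FIN_zeta_prod, map_neg ζ (-∑ i, t i • e i), toMul_neg, Units.val_inv_eq_inv_val]
  have h2 : ((ζ (-∑ i, t i • e i)).toMul : K) ≠ 0 := Units.ne_zero _
  field_simp

end FIN_main

private theorem FIN_pow_le {A : Type} [CommRing A] [IsDomain A]
    (V : ValuationSubring (FractionRing A)) (hV : ∀ a : A, algebraMap A (FractionRing A) a ∈ V)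
    {I : Ideal A} {b : A} (hmin : ∀ a ∈ I, V.valuation (algebraMap A (FractionRing A) a) ≤
      V.valuation (algebraMap A (FractionRing A) b)) (n : ℕ) : ∀ x ∈ I ^ n,
    V.valuation (algebraMap A (FractionRing A) x) ≤
      V.valuation (algebraMap A (FractionRing A) b) ^ n := by
  induction n with
  | zero =>
    intro x _
    rw [pow_zero]
    exact (V.valuation_le_one_iff _).2 (hV x)
  | succ n ih =>
    intro x hx
    rw [pow_succ] at hx
    refine Submodule.mul_induction_on hx ?_ ?_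
    · intro a ha c hc
      rw [map_mul, map_mul, pow_succ]
      exact mul_le_mul' (ih a ha) (hmin c hc)
    · intro a c ha hc
      rw [map_add]
      exact (V.valuation.map_add _ _).trans (max_le ha hc)

theorem isLogDesing_of_end {k A : Type} [Field k] [CommRing A] [IsDomain A] [Algebra k A]
    [Algebra.FiniteType k A] {ι σ : Type} [AddCommGroup ι] [Module.Free ℤ ι] [Module.Finite ℤ ι]
    [Fintype σ] {M : Fam k (FractionRing A) ι} {θ : ι} {e : σ → ι}
    {𝒯 : Set (Set (FractionRing A))} (hM : GoodI M θ 1) (hL : LogI M θ e 𝒯)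
    (h0 : ∀ z : FractionRing A, z ∈ M.s 0 ↔ ∃ x : A, algebraMap A (FractionRing A) x = z)
    {I : Ideal A} {d : ℕ} (hI : IsIdl M θ I d) (D J : Ideal A)
    (hD : {z | ∃ a ∈ D, algebraMap A (FractionRing A) a = z} ∈ 𝒯)
    (hJ : {z | ∃ a ∈ J, algebraMap A (FractionRing A) a = z} ∈ 𝒯)
    (V : ValuationSubring (FractionRing A)) (hV : ∀ a : A, algebraMap A (FractionRing A) a ∈ V) :
    IsLogDesing V D (J * I) := by
  classical
  have hnoe : IsNoetherianRing A := Algebra.FiniteType.isNoetherianRing k A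
  obtain ⟨s, hs, b, hbs, hb0, hmin⟩ := LU2G.C9e.exists_least V hV I hI.ne
  have hbI : b ∈ I := by
    rw [← hs]
    exact Ideal.subset_span hbs
  have hinj : Function.Injective (algebraMap A (FractionRing A)) :=
    IsFractionRing.injective A (FractionRing A)
  obtain ⟨β, hβdef⟩ : ∃ β, β = algebraMap A (FractionRing A) b := ⟨_, rfl⟩
  have hβ0 : β ≠ 0 := fun h => hb0 (hinj (by rw [← hβdef, h, map_zero]))
  have hβ : β ∈ M.s (d • θ) := by
    have h1 : b ∈ I ^ 1 := by rwa [pow_one]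
    rw [hI.pow, one_mul, ← hβdef] at h1
    exact h1
  have hk : ∀ c : k, algebraMap k (FractionRing A) c ∈ V := by
    intro c
    rw [IsScalarTower.algebraMap_apply k A (FractionRing A)]
    exact hV _
  have hTop : Top V M (d • θ) β := by
    intro n z hz
    rw [smul_smul] at hz
    have h1 := M.mul' hz (hM.neg (n * d))
    rw [mul_one, add_neg_cancel, h0] at h1
    obtain ⟨x, rfl⟩ := h1
    rw [← hI.pow] at hz
    rw [hβdef]
    exact FIN_pow_le V hV hmin n x hz
  obtain ⟨P, hPdef⟩ : ∃ P, P = gpV hk hβ hβ0 hTop := ⟨_, rfl⟩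
  have hβP : β ∉ P.I (d • θ) := by
    rw [hPdef]
    exact b_notMem hk hβ hβ0 hTop
  have hP : P.Semi θ := ⟨d, hI.pos, β, hβ, hβP⟩
  obtain ⟨n₁, hn₁, y₁, hy₁, hy₁P, htop⟩ := hM.exists_unit_top P hP
  obtain ⟨c₂, x₂, hx₂, hx₂P, hLS⟩ := hL.sm P hP
  have hy₁0 := P.ne_zero_of_notMem hy₁P
  have hx₂0 := P.ne_zero_of_notMem hx₂P
  have hy' : y₁ * x₂ ∈ M.s (n₁ • θ + c₂) := M.mul' hy₁ hx₂
  have hy'P : y₁ * x₂ ∉ P.I (n₁ • θ + c₂) := P.mul_notMem hy₁ hy₁P hx₂ hx₂P
  have hy : β * (y₁ * x₂) ∈ M.s (d • θ + (n₁ • θ + c₂)) := M.mul' hβ hy'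
  have hyP : β * (y₁ * x₂) ∉ P.I (d • θ + (n₁ • θ + c₂)) := P.mul_notMem hβ hβP hy' hy'P
  have hy0 := P.ne_zero_of_notMem hyP
  -- the family `N`
  have hN1 : LSm (M.loc hy) e (fun _ => (1 : FractionRing A)) := by
    have h1 := LSm.loc_mul hx₂ (M.mul' hβ hy₁) (mul_ne_zero hβ0 hy₁0) hLS
    rw [M.loc_congr' (M.mul' hx₂ (M.mul' hβ hy₁)) hy (by abel) (by ring)] at h1
    exact h1
  have hN2 : unitDegs (M.loc hy) = ⊤ := by
    have h1 := unitDegs_loc_mul (M.mul' hβ hx₂) hy₁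
    rw [htop, M.loc_congr' (M.mul' (M.mul' hβ hx₂) hy₁) hy (by abel) (by ring)] at h1
    exact top_le_iff.1 h1
  obtain ⟨ζ, hζ⟩ := exists_zeta (M.loc hy) hN2
  have hft : Algebra.FiniteType k (M.loc hy).alg := M.finiteType_loc hM.fg hy hy0
  obtain ⟨hfg, hsm⟩ := FIN_zeroSub (M.loc hy) ζ hζ hft hN1.smooth
  have hlocP : ∀ z, LocP P 0 z ↔ z ∈ locV V (zeroSub (M.loc hy)) := by
    subst hPdef
    exact fun z => locP_iff_locV hk hβ hβ0 hTop hy hyP hy' rfl z
  have hSV : ∀ z ∈ zeroSub (M.loc hy), z ∈ V := by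
    intro z hz
    have h1 := (hlocP z).2 (le_locV _ hz)
    subst hPdef
    exact mem_V_of_locP hk hβ hβ0 hTop h1
  have hunit : ∀ (t : σ → ℕ) (x : FractionRing A), UniP P (-∑ i, t i • e i) x →
      ∃ w ∈ locV V (zeroSub (M.loc hy)), V.valuation w = 1 ∧
        x = (∏ i, ((ζ (-(e i))).toMul : FractionRing A) ^ t i) * w := by
    subst hPdef
    exact fun t x hx => FIN_unit hk hβ hβ0 hTop hy hyP hy' rfl ζ hζ e t hx
  -- the local ring
  have hO : ∀ z, z ∈ centerRing V (chart I b) ↔ z ∈ locV V (zeroSub (M.loc hy)) := by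
    intro z
    have hβ' : β ∈ M.s (d • θ + 0) := by rwa [add_zero]
    have h1 : LocP P 0 z ↔ z ∈ locV V (zeroSub (M.loc hβ')) := by
      subst hPdef
      exact locP_iff_locV hk hβ hβ0 hTop hβ' (by rwa [add_zero]) M.one' (mul_one _).symm z
    have h2 : ∀ x : FractionRing A, x ∈ chart I b ↔ x ∈ zeroSub (M.loc hβ') := by
      intro x
      rw [hI.mem_chart b hbI hb0]
      change (∃ m : ℕ, algebraMap A (FractionRing A) b ^ m * x ∈ M.s ((m * d) • θ)) ↔
        ∃ m : ℕ, β ^ m * x ∈ M.s (m • (d • θ + 0) + 0)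
      rw [← hβdef]
      simp only [add_zero, smul_smul]
    rw [← hlocP, h1]
    constructor
    · rintro ⟨x, hx, y, hy, hy1, rfl⟩
      exact ⟨x, (h2 x).1 hx, y, (h2 y).1 hy, hy1, rfl⟩
    · rintro ⟨x, hx, y, hy, hy1, rfl⟩
      exact ⟨x, (h2 x).2 hx, y, (h2 y).2 hy, hy1, rfl⟩
  -- the parameters
  obtain ⟨F, Δ, hF, hΔ⟩ := exists_der hN1 ζ hζ
  have hFle : ∀ j, V.valuation (F j : FractionRing A) ≤ 1 := fun j =>
    (V.valuation_le_one_iff _).2 (hSV _ (F j).2)
  obtain ⟨r, z, g, hg, hz, hzg⟩ := exists_par (zeroSub (M.loc hy)) hfg hSV hsm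
    (τ := {j : σ // V.valuation (F j : FractionRing A) < 1}) (fun j => F j.1) (fun j => j.2)
    (fun j => Δ j.1) (by
      intro i j
      obtain ⟨c, hc⟩ := hΔ i.1 j.1
      have h1 : Δ i.1 (F j.1) - (if i = j then 1 else 0) = F j.1 * c := by
        rw [hc]
        by_cases hij : i = j
        · rw [if_pos hij, if_pos (congrArg Subtype.val hij)]
          ring
        · rw [if_neg hij, if_neg (fun h => hij (Subtype.ext h))]
          ring
      rw [h1, MulMemClass.coe_mul, map_mul]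
      exact mul_lt_of_lt_of_le_one j.2 ((V.valuation_le_one_iff _).2 (hSV _ c.2)))
  -- the monomials
  obtain ⟨tD, hD1, _, ⟨d0, hd0, rfl⟩, hD2⟩ := hL.mon _ hD P hP
  obtain ⟨tJ, hJ1, _, ⟨j0, hj0, rfl⟩, hJ2⟩ := hL.mon _ hJ P hP
  obtain ⟨m, hm⟩ := hL.neg
  have hb2 : UniP P (-∑ i, (d * m i) • e i) β := by
    have h1 : -∑ i, (d * m i) • e i = d • θ := by
      rw [neg_eq_iff_eq_neg, ← smul_neg, hm, Finset.smul_sum]
      exact Finset.sum_congr rfl fun i _ => by rw [smul_smul]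
    rw [h1]
    exact FIN_uniP_of hβ hβP
  obtain ⟨wD, hwD, hwD1, hDe⟩ := hunit tD _ hD2
  obtain ⟨wJ, hwJ, hwJ1, hJe⟩ := hunit tJ _ hJ2
  obtain ⟨wb, hwb, hwb1, hbe⟩ := hunit _ _ hb2
  have hd00 : d0 ≠ 0 := by
    rintro rfl
    exact FIN_uniP_ne hD2 (map_zero _)
  have hj00 : j0 ≠ 0 := by
    rintro rfl
    exact FIN_uniP_ne hJ2 (map_zero _)
  obtain ⟨T, hT⟩ : ∃ T : σ → ℕ, ∀ i, T i = tD i + (tJ i + d * m i) := ⟨_, fun _ => rfl⟩
  have hprod : algebraMap A (FractionRing A) (d0 * (j0 * b)) =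
      (∏ i, (F i : FractionRing A) ^ T i) * (wD * (wJ * wb)) := by
    rw [map_mul, map_mul, ← hβdef, hDe, hJe]
    have h2 := congrArg (fun x => (∏ i, ((ζ (-(e i))).toMul : FractionRing A) ^ tD i) * wD *
      ((∏ i, ((ζ (-(e i))).toMul : FractionRing A) ^ tJ i) * wJ * x)) hbe
    refine h2.trans ?_
    have h1 : ∏ i, (F i : FractionRing A) ^ T i =
        (∏ i, ((ζ (-(e i))).toMul : FractionRing A) ^ tD i) *
          ((∏ i, ((ζ (-(e i))).toMul : FractionRing A) ^ tJ i) *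
            ∏ i, ((ζ (-(e i))).toMul : FractionRing A) ^ (d * m i)) := by
      rw [← Finset.prod_mul_distrib, ← Finset.prod_mul_distrib]
      refine Finset.prod_congr rfl fun i _ => ?_
      rw [hF, hT, pow_add, pow_add]
    rw [h1]
    ring
  have hsplit : ∏ i, (F i : FractionRing A) ^ T i =
      (∏ i : {j : σ // V.valuation (F j : FractionRing A) < 1}, (F i.1 : FractionRing A) ^ T i.1) *
        ∏ i : {j : σ // ¬ V.valuation (F j : FractionRing A) < 1},
          (F i.1 : FractionRing A) ^ T i.1 :=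
    (Fintype.prod_subtype_mul_prod_subtype
      (fun j : σ => V.valuation (F j : FractionRing A) < 1)
      (fun i => (F i : FractionRing A) ^ T i)).symm
  have hτ : ∏ i : {j : σ // V.valuation (F j : FractionRing A) < 1},
      (F i.1 : FractionRing A) ^ T i.1 =
      ∏ i, z i ^ Function.extend g (fun j => T j.1) 0 i := by
    refine Fintype.prod_of_injective g hg _ _ ?_ ?_
    · intro i hi
      rw [Function.extend_apply' _ _ _ (fun h => hi h), Pi.zero_apply, pow_zero]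
    · intro j
      rw [hg.extend_apply, hzg]
  refine isLogDesing_of V hV D J I hd0 hj0 hbI hd00 hj00 hb0 hmin (zeroSub (M.loc hy)) hfg hSV hO
    ?_ ?_ hz (Function.extend g (fun j => T j.1) 0)
    (u := (∏ i : {j : σ // ¬ V.valuation (F j : FractionRing A) < 1},
          (F i.1 : FractionRing A) ^ T i.1) * (wD * (wJ * wb))) ?_ ?_ ?_
  · intro a ha
    exact (hlocP _).1 (FIN_div (hD1 _ ⟨a, ha, rfl⟩) hD2)
  · intro a ha
    exact (hlocP _).1 (FIN_div (hJ1 _ ⟨a, ha, rfl⟩) hJ2)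
  · refine mul_mem (Subalgebra.prod_mem _ fun i _ => pow_mem ?_ _)
      (mul_mem hwD (mul_mem hwJ hwb))
    exact le_locV _ (F i.1).2
  · rw [map_mul, map_mul, map_mul, hwD1, hwJ1, hwb1, mul_one, mul_one, mul_one, map_prod]
    refine Finset.prod_eq_one fun i _ => ?_
    rw [map_pow, le_antisymm (hFle i.1) (not_lt.1 i.2), one_pow]
  · rw [hprod, hsplit, hτ]
    ring

end Pool.Agent.MP_b525bf_ag_EL
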