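import Pool.Agent.Lib.MP_b525bf_ag_EL.IND
import Pool.Agent.Lib.MP_b525bf_ag_E.IDL

/-!
# Theorem EL, row IDE: the ideal, with more information

Recipe. `GoodI.goodC` gives `GoodC (M.comap (ray θ)) 1`. Copy the proof of `exists_ideal_of_goodC`
(`MP_b525bf_ag_E/IDL.lean`); there `I = F.I N`, `I ^ n = F.I (N n)` (`exists_veronese`), and
`x ∈ F.I n ↔ x ∈ (M.comap (ray θ)).s (c n) = M.s ((c n) • θ)`; `d := c N`. The elements of
`chart I b`: `IDL.mem_chart_iff` and `hmem`.
-/

set_option autoImplicit false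
set_option linter.unusedVariables false

namespace Pool.Agent.MP_b525bf_ag_EL

open Pool.Agent.LU2 Pool.Agent.MP_b525bf_ag Pool.Agent.MP_b525bf_ag_E

/-- The ideal `I` whose powers are the pieces of degrees `n • d • θ`. -/
structure IsIdl {k A ι : Type} [Field k] [CommRing A] [IsDomain A] [Algebra k A] [AddCommGroup ι]
    (M : Fam k (FractionRing A) ι) (θ : ι) (I : Ideal A) (d : ℕ) : Prop where
  ne : I ≠ ⊥
  pos : 0 < d
  pow : ∀ (n : ℕ) (x : A), x ∈ I ^ n ↔ algebraMap A (FractionRing A) x ∈ M.s ((n * d) • θ)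
  smooth : ∀ b ∈ I, b ≠ 0 → Algebra.FormallySmooth k (chart I b)
  mem_chart : ∀ b ∈ I, b ≠ 0 → ∀ z : FractionRing A, z ∈ chart I b ↔
    ∃ m : ℕ, algebraMap A (FractionRing A) b ^ m * z ∈ M.s ((m * d) • θ)

/-- The ideal, for a family indexed by the integers. -/
private theorem exists_isIdl_aux {k A : Type} [Field k] [CommRing A] [IsDomain A] [Algebra k A]
    (M : Fam k (FractionRing A) ℤ) (hM : GoodC M 1)
    (h0 : ∀ z : FractionRing A, z ∈ M.s 0 ↔ ∃ x : A, algebraMap A (FractionRing A) x = z) :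
    ∃ (I : Ideal A) (d : ℕ), I ≠ ⊥ ∧ 0 < d ∧
      (∀ (n : ℕ) (x : A), x ∈ I ^ n ↔
        algebraMap A (FractionRing A) x ∈ M.s ((n * d : ℕ) : ℤ)) ∧
      (∀ b ∈ I, b ≠ 0 → Algebra.FormallySmooth k (chart I b)) ∧
      ∀ b ∈ I, b ≠ 0 → ∀ z : FractionRing A, z ∈ chart I b ↔
        ∃ m : ℕ, algebraMap A (FractionRing A) b ^ m * z ∈ M.s ((m * d : ℕ) : ℤ) := by
  classical
  have hinj : Function.Injective (algebraMap A (FractionRing A)) :=
    IsFractionRing.injective A (FractionRing A)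
  obtain ⟨c, hc, hneg⟩ := hM.one_neg
  have hcZ : (0 : ℤ) < c := by exact_mod_cast hc
  let f : ℤ →+ ℤ := AddMonoidHom.mulLeft (c : ℤ)
  have hfa : ∀ n, f n = c * n := fun _ => rfl
  have hf : Function.Injective f := fun a b h => mul_left_cancel₀ hcZ.ne' h
  have h0' : ∀ z : FractionRing A, z ∈ (M.comap f).s 0 ↔
      ∃ x : A, algebraMap A (FractionRing A) x = z := by
    intro z
    rw [Fam.comap_s, map_zero]
    exact h0 z
  have hle : ∀ (n : ℤ), 0 ≤ n → ∀ z : FractionRing A, z ∈ M.s (c * n) → z ∈ M.s 0 := by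
    intro n hn z hz
    have h := M.mul' hz (hneg (-(c * n)) (by nlinarith) ⟨-n, by ring⟩)
    rwa [mul_one, add_neg_cancel] at h
  let F : IdealFam A := Good.idealFam h0'
  have hfin : Algebra.FiniteType k F.rees := by
    refine Fam.finiteType_rees hinj (M.comap f) (Fam.fg_comap f hf M hM.fg) _ (fun _ _ => Iff.rfl)
      fun n z hz => (h0 z).1 (hle n (Int.natCast_nonneg n) z ?_)
    rw [Fam.comap_s, hfa] at hz
    exact hz
  have hne : ∃ n : ℕ, 0 < n ∧ ∃ x ∈ F.I n, x ≠ 0 := by
    obtain ⟨d, hd, x, hx, hx0⟩ := hM.nontriv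
    have hxc : x ^ c ∈ M.s (c * d) := by
      have := M.pow' hx c
      rwa [nsmul_eq_mul] at this
    obtain ⟨y, hy⟩ := (h0 _).1 (hle d hd.le _ hxc)
    refine ⟨d.toNat, by omega, y, ?_, ?_⟩
    · rw [Good.mem_idealFam, Int.toNat_of_nonneg hd.le, Fam.comap_s, hfa, hy]; exact hxc
    · rintro rfl
      rw [map_zero] at hy
      exact pow_ne_zero c hx0 hy.symm
  have hsmooth : ∀ (n : ℕ), 0 < n → ∀ (x : A) (hx : x ∈ F.I n), x ≠ 0 →
      Algebra.FormallySmooth k (F.chart k (FractionRing A) hx) := by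
    intro n hn x hx hx0
    have hX : algebraMap A (FractionRing A) x ∈ M.s ((c * n : ℕ) : ℤ) := by
      have h1 : algebraMap A (FractionRing A) x ∈ (M.comap f).s n := hx
      rw [Fam.comap_s, hfa] at h1
      rw [Nat.cast_mul]; exact h1
    have hX0 : algebraMap A (FractionRing A) x ≠ 0 := fun h => hx0 (hinj (by rw [h, map_zero]))
    have hsm := hM.formallySmooth_comap_loc (Nat.mul_pos hc hn) hX hX0
    have hmem : ∀ z : FractionRing A, z ∈ F.chart k (FractionRing A) hx ↔ z ∈ (M.loc hX).s 0 := by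
      intro z
      constructor
      · rintro ⟨m, y, hy, hz⟩
        refine ⟨m, ?_⟩
        rw [Good.mem_idealFam, Fam.comap_s, hfa] at hy
        rw [mul_comm (algebraMap A (FractionRing A) x ^ m) z, hz, add_zero, nsmul_eq_mul]
        have e1 : (m : ℤ) * ((c * n : ℕ) : ℤ) = c * ((m * n : ℕ) : ℤ) := by push_cast; ring
        rw [e1]; exact hy
      · rintro ⟨m, hm⟩
        have e1 : (m : ℤ) * ((c * n : ℕ) : ℤ) = c * ((m * n : ℕ) : ℤ) := by push_cast; ring
        rw [add_zero, nsmul_eq_mul, e1] at hm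
        obtain ⟨y, hy⟩ := (h0 _).1 (hle _ (Int.natCast_nonneg _) _ hm)
        refine ⟨m, y, ?_, ?_⟩
        · rw [Good.mem_idealFam, Fam.comap_s, hfa, hy]; exact hm
        · rw [hy, mul_comm]
    let g : F.chart k (FractionRing A) hx →ₐ[k]
        ((M.loc hX).comap (0 : PUnit.{1} →+ ℤ)).alg :=
      (((Algebra.ofId (FractionRing A)
          (AddMonoidAlgebra (FractionRing A) PUnit.{1})).restrictScalars k).comp
        (F.chart k (FractionRing A) hx).val).codRestrict _ fun z => by
          have h1 : ((Algebra.ofId (FractionRing A)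
            (AddMonoidAlgebra (FractionRing A) PUnit.{1})).restrictScalars k)
            ((F.chart k (FractionRing A) hx).val z) =
              AddMonoidAlgebra.single 0 (z : FractionRing A) := rfl
          rw [AlgHom.comp_apply, h1]
          exact Fam.single_mem_alg.2 ((hmem z).1 z.2)
    have hg : ∀ z, (g z : AddMonoidAlgebra (FractionRing A) PUnit.{1}) =
        AddMonoidAlgebra.single 0 (z : FractionRing A) := fun _ => rfl
    have hbij : Function.Bijective g := by
      constructor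
      · intro y z hyz
        have h1 := congrArg
          (fun F : AddMonoidAlgebra (FractionRing A) PUnit.{1} => F.coeff 0)
          (congrArg Subtype.val hyz)
        simp only [hg] at h1
        exact Subtype.ext (by simpa using h1)
      · rintro ⟨F', hF'⟩
        refine ⟨⟨F'.coeff 0, (hmem _).2 (hF' 0)⟩, Subtype.ext ?_⟩
        rw [hg]
        refine AddMonoidAlgebra.ext (Finsupp.ext fun a => ?_)
        obtain rfl : a = 0 := Subsingleton.elim _ _
        simp
    exact Algebra.FormallySmooth.of_equiv (AlgEquiv.ofBijective g hbij).symm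
  have hfinA : Algebra.FiniteType A F.rees := Algebra.FiniteType.of_restrictScalars_finiteType k A _
  obtain ⟨N, hN0, hN⟩ := exists_veronese F hfinA
  have hFm : ∀ (n : ℕ) (x : A), x ∈ F.I n ↔
      algebraMap A (FractionRing A) x ∈ M.s ((c * n : ℕ) : ℤ) := by
    intro n x
    rw [Good.mem_idealFam, Fam.comap_s, hfa, Nat.cast_mul]
  refine ⟨F.I N, c * N, ?_, Nat.mul_pos hc hN0, ?_, ?_, ?_⟩
  · obtain ⟨n, hn, x, hx, hx0⟩ := hne
    intro hbot
    have h1 : x ^ N ∈ F.I (N * n) := F.pow_mem' hx N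
    rw [hN n, hbot] at h1
    have h2 : x ^ N ∈ (⊥ : Ideal A) := Ideal.pow_le_self hn.ne' h1
    rw [Ideal.mem_bot] at h2
    exact pow_ne_zero N hx0 h2
  · intro n x
    rw [← hN n, hFm, ← mul_assoc, mul_comm (c * N) n]
  · intro b hb hb0
    have hs := hsmooth N hN0 b hb hb0
    have hmem := IDL.mem_chart_iff (k := k) F N hN hb hb0
    let g : F.chart k (FractionRing A) hb →ₐ[k] chart (F.I N) b :=
      { toFun := fun z => ⟨z.1, (hmem z.1).1 z.2⟩
        map_one' := rfl
        map_mul' := fun _ _ => rfl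
        map_zero' := rfl
        map_add' := fun _ _ => rfl
        commutes' := fun r => Subtype.ext rfl }
    have hg : Function.Bijective g := by
      constructor
      · intro y z hyz
        exact Subtype.ext (congrArg (fun w : chart (F.I N) b => (w : FractionRing A)) hyz)
      · intro z
        exact ⟨⟨z.1, (hmem z.1).2 z.2⟩, rfl⟩
    exact Algebra.FormallySmooth.of_equiv (AlgEquiv.ofBijective g hg)
  · intro b hb hb0 z
    rw [← IDL.mem_chart_iff (k := k) F N hN hb hb0]
    constructor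
    · rintro ⟨m, y, hy, hz⟩
      refine ⟨m, ?_⟩
      have h1 := (hFm _ _).1 hy
      have e1 : c * (m * N) = m * (c * N) := by ring
      rw [e1, ← hz, mul_comm z] at h1
      exact h1
    · rintro ⟨m, hm⟩
      have e1 : ((m * (c * N) : ℕ) : ℤ) = c * ((m * N : ℕ) : ℤ) := by push_cast; ring
      rw [e1] at hm
      obtain ⟨y, hy⟩ := (h0 _).1 (hle _ (Int.natCast_nonneg _) _ hm)
      refine ⟨m, y, ?_, ?_⟩
      · rw [hFm, hy, Nat.cast_mul]; exact hm
      · rw [hy, mul_comm]

theorem exists_isIdl {k A ι : Type} [Field k] [CommRing A] [IsDomain A] [Algebra k A]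
    [AddCommGroup ι] [Module.Free ℤ ι] [Module.Finite ℤ ι] (M : Fam k (FractionRing A) ι)
    (θ : ι) (hM : GoodI M θ 1)
    (h0 : ∀ z : FractionRing A, z ∈ M.s 0 ↔ ∃ x : A, algebraMap A (FractionRing A) x = z) :
    ∃ (I : Ideal A) (d : ℕ), IsIdl M θ I d := by
  have hs : ∀ n : ℕ, (M.comap (ray θ)).s (n : ℤ) = M.s (n • θ) := by
    intro n
    rw [Fam.comap_s, ray, zmultiplesHom_apply, natCast_zsmul]
  obtain ⟨I, d, h1, h2, h3, h4, h5⟩ := exists_isIdl_aux (M.comap (ray θ)) (GoodI.goodC hM)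
    (by
      intro z
      rw [Fam.comap_s, map_zero]
      exact h0 z)
  refine ⟨I, d, h1, h2, fun n x => ?_, h4, fun b hb hb0 z => ?_⟩
  · rw [h3, hs]
  · rw [h5 b hb hb0]
    simp only [hs]

end Pool.Agent.MP_b525bf_ag_EL
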