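import Pool.Agent.Lib.MP_b525bf_ag_EL.WREL

/-!
# Theorem EL, row LST: the logarithmic data under one step of the destackification

Recipe. `neg`: `-θ' = (-(ρ l θ), -(ρ c θ) + 1)`, `-θ = ∑ m i • e i`; take `ρ l m i` times
`(e i, c (e i) / l)` and `q` times `(0, 1)`, `q = 1 + ρ ∑ m i (c (e i) - l (c (e i) / l)) ≥ 0`.
`one`: `wr_gen`, `wr_one`. `sm`: let `P'` be semistable, `P` its contraction, `x ∈ M.s b`,
`x ∉ P.I b`, `LSm (M.loc hx) e 1`. Replace `x` by `x ^ l` (`loc_pow`), so `l ∣ c b`. `wr_loc` and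
`LSm.wr` for `M.loc hx` give `LSm ((M.wr c l).loc _) ..`; `x ∉ P'.I (b, c b / l)` by the definition
of `contrA`, `contrB`. `mon`: let `t` be as in `MonAt` for `P`, `E := ∑ t i • e i`. Case A (`1` is
not in `P'.I (0, 1)`): `t' := ocons 0 t`: if `u a ∈ M.s (b - E)` then `u` (in degree
`(b, c b / l)`) times `1` (in degree `(0, N)`, `N` large, not in `P'.I`) times `a` is in
`(M.wr c l).s (b - E, c b / l + N - ∑ t i (c (e i) / l))`. Case B: `u ∉ P.I b` implies
`l ∣ c b`; the unit `a₀`, `u₀ a₀ ∉ P.I (b₀ - E)`, gives `l ∣ c (b₀ - E)`, so `l ∣ c E`; then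
`t' := ocons q t`, `q = c E / l - ∑ t i (c (e i) / l) ≥ 0`, and all degrees match:
`c (b - E) / l = c b / l - c E / l`.
-/

set_option autoImplicit false
set_option linter.unusedVariables false

namespace Pool.Agent.MP_b525bf_ag_EL

open Pool.Agent.MP_b525bf_ag

variable {k K ι σ : Type} [Field k] [Field K] [Algebra k K] [AddCommGroup ι] [Fintype σ]

/-- The sum of the new degrees. -/
lemma sum_ocons (t0 : ℕ) (t : σ → ℕ) (c : ι →+ ℤ) (l : ℕ) (e : σ → ι) :
    ∑ i, (ocons t0 t : Option σ → ℕ) i •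
      (ocons ((0 : ι), (1 : ℤ)) (fun i => (e i, c (e i) / l)) : Option σ → ι × ℤ) i =
      (∑ i, t i • e i, (t0 : ℤ) + ∑ i, (t i : ℤ) * (c (e i) / l)) := by
  rw [Fintype.sum_option]
  simp only [ocons]
  rw [Prod.ext_iff]
  constructor
  · simp [Prod.fst_sum]
  · simp [Prod.snd_sum]

/-- Elements outside the contraction are outside the graded prime, in all large degrees. -/
lemma contrA_out {M : Fam k K ι} {c : ι →+ ℤ} {l : ℕ} (hl : 0 < l) (P' : GP (M.wr c l))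
    (hs : (1 : K) ∉ P'.I (0, 1)) {a : ι} {x : K} (hx : x ∈ M.s a)
    (hx' : x ∉ (contrA hl P' hs).I a) {m : ℤ} (hm : c a / l ≤ m) :
    x ∈ (M.wr c l).s (a, m) ∧ x ∉ P'.I (a, m) := by
  have h1 : x ∉ P'.I (a, c a / l) := fun h => hx' ⟨hx, h⟩
  have h2 := P'.mul_notMem (M.wr_gen c l hx) h1 ((M.wr c l).pow' (M.wr_one c l)
    (m - c a / l).toNat) (P'.pow_notMem (M.wr_one c l) hs _)
  have h3 := (M.wr c l).mul' (M.wr_gen c l hx) ((M.wr c l).pow' (M.wr_one c l)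
    (m - c a / l).toNat)
  rw [one_pow, mul_one] at h2 h3
  have e1 : ((a, c a / l) : ι × ℤ) + (m - c a / l).toNat • ((0, 1) : ι × ℤ) = (a, m) := by
    rw [Prod.ext_iff]
    constructor
    · simp
    · change c a / l + (m - c a / l).toNat • (1 : ℤ) = m
      rw [nsmul_eq_mul, Int.toNat_of_nonneg (by omega)]
      ring
  rw [e1] at h2 h3
  exact ⟨h3, h2⟩

lemma contrB_out {M : Fam k K ι} {c : ι →+ ℤ} {l : ℕ} (hl : 0 < l) (P' : GP (M.wr c l))
    (hs : (1 : K) ∈ P'.I (0, 1)) {a : ι} {x : K} (hx : x ∈ M.s a)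
    (hx' : x ∉ (contrB hl P' hs).I a) : (l : ℤ) ∣ c a ∧ x ∉ P'.I (a, c a / l) := by
  by_cases hd : (l : ℤ) ∣ c a
  · exact ⟨hd, fun h => hx' ⟨hx, fun _ => h⟩⟩
  · exact absurd ⟨hx, fun h => absurd h hd⟩ hx'

omit [Fintype σ] in
/-- The smoothness condition. -/
lemma sm_wr [IsDomain (AddMonoidAlgebra K ι)] {M : Fam k K ι} {e : σ → ι} (hfg : M.alg.FG)
    {c : ι →+ ℤ} {l : ℕ} (hl : 0 < l) (P' : GP (M.wr c l)) (P : GP M)
    (hP : ∀ (a : ι) (x : K), x ∈ M.s a → (l : ℤ) ∣ c a → x ∉ P.I a → x ∉ P'.I (a, c a / l))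
    (h : ∃ (b : ι) (x : K) (hx : x ∈ M.s b), x ∉ P.I b ∧ LSm (M.loc hx) e (fun _ => 1)) :
    ∃ (b : ι × ℤ) (x : K) (hx : x ∈ (M.wr c l).s b), x ∉ P'.I b ∧
      LSm ((M.wr c l).loc hx) (ocons ((0 : ι), (1 : ℤ)) fun i => (e i, c (e i) / l))
        (fun _ => 1) := by
  obtain ⟨b, x, hx, hxP, hsm⟩ := h
  have hx0 : x ≠ 0 := P.ne_zero_of_notMem hxP
  have hxl := M.pow' hx l
  have hxl0 : x ^ l ≠ 0 := pow_ne_zero _ hx0
  have hdvd : (l : ℤ) ∣ c (l • b) := by
    rw [map_nsmul, nsmul_eq_mul]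
    exact Dvd.intro _ rfl
  have h1 := P.pow_notMem hx hxP l
  refine ⟨(l • b, c (l • b) / l), x ^ l, M.wr_gen c l hxl, hP _ _ hxl hdvd h1, ?_⟩
  have h2 : LSm (M.loc hxl) e (fun _ => (1 : K)) := by
    rw [loc_pow M hx hx0 hl]
    exact hsm
  have h3 : (M.loc hxl).alg.FG :=
    (Subalgebra.fg_iff_finiteType _).2 (M.finiteType_loc hfg hxl hxl0)
  have h4 := LSm.wr h2 h3 c hl
  rw [M.wr_loc c hl hdvd hxl hxl0] at h4
  exact h4

/-- The multiplicities at the exceptional divisor. -/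
lemma sum_ediv_le (t : σ → ℕ) (c : ι →+ ℤ) {l : ℕ} (hl : 0 < l) (e : σ → ι) :
    ∑ i, (t i : ℤ) * (c (e i) / l) ≤ c (∑ i, t i • e i) / l := by
  have hl' : (0 : ℤ) < l := by exact_mod_cast hl
  rw [Int.le_ediv_iff_mul_le hl', Finset.sum_mul, map_sum]
  refine Finset.sum_le_sum fun i _ => ?_
  rw [map_nsmul, nsmul_eq_mul, mul_assoc]
  exact mul_le_mul_of_nonneg_left (Int.ediv_mul_le _ hl'.ne') (by positivity)

theorem LogI.wr [IsDomain (AddMonoidAlgebra K ι)] {M : Fam k K ι} {θ : ι} {e : σ → ι}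
    {𝒯 : Set (Set K)} (h : LogI M θ e 𝒯) (hfg : M.alg.FG) {c : ι →+ ℤ} {l : ℕ} (hl : 0 < l)
    {θ' : ι × ℤ} {ρ : ℕ} (hθ' : θ' = (ρ • l • θ, ρ * c θ - 1))
    (hA : ∀ P' : GP (M.wr c l), P'.Semi θ' →
      ∀ hs : (1 : K) ∉ P'.I (0, 1), (contrA hl P' hs).Semi θ)
    (hB : ∀ P' : GP (M.wr c l), P'.Semi θ' →
      ∀ hs : (1 : K) ∈ P'.I (0, 1), (contrB hl P' hs).Semi θ) :
    LogI (M.wr c l) θ' (ocons ((0 : ι), (1 : ℤ)) fun i => (e i, c (e i) / l)) 𝒯 := by
  have hl' : (0 : ℤ) < l := by exact_mod_cast hl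
  refine ⟨?_, ?_, ?_, ?_⟩
  · rintro (_ | i)
    · exact M.wr_one c l
    · exact M.wr_gen c l (h.one i)
  · intro P' hP'
    by_cases hs : (1 : K) ∈ P'.I (0, 1)
    · exact sm_wr hfg hl P' (contrB hl P' hs)
        (fun a x hx _ hx' => (contrB_out hl P' hs hx hx').2) (h.sm _ (hB P' hP' hs))
    · exact sm_wr hfg hl P' (contrA hl P' hs)
        (fun a x hx _ hx' => (contrA_out hl P' hs hx hx' le_rfl).2) (h.sm _ (hA P' hP' hs))
  · obtain ⟨m, hm⟩ := h.neg
    have h0 : ∀ i, 0 ≤ c (e i) - l * (c (e i) / l) := by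
      intro i
      have h1 := Int.emod_add_mul_ediv (c (e i)) l
      have h2 := Int.emod_nonneg (c (e i)) hl'.ne'
      linarith
    have h1 : 0 ≤ 1 + ρ * ∑ i, (m i : ℤ) * (c (e i) - l * (c (e i) / l)) := by
      have : 0 ≤ ∑ i, (m i : ℤ) * (c (e i) - l * (c (e i) / l)) :=
        Finset.sum_nonneg fun i _ => mul_nonneg (by positivity) (h0 i)
      positivity
    refine ⟨ocons (1 + ρ * ∑ i, (m i : ℤ) * (c (e i) - l * (c (e i) / l))).toNat
      (fun i => ρ * l * m i), ?_⟩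
    rw [sum_ocons, Int.toNat_of_nonneg h1, hθ', Prod.ext_iff]
    constructor
    · change -(ρ • l • θ) = ∑ i, (ρ * l * m i) • e i
      have h2 : ∑ i, (ρ * l * m i) • e i = (ρ * l) • ∑ i, m i • e i := by
        rw [Finset.smul_sum]
        exact Finset.sum_congr rfl fun i _ => mul_nsmul' _ _ _
      rw [h2, ← hm, smul_smul, smul_neg]
    · change -(ρ * c θ - 1) = 1 + ρ * ∑ i, (m i : ℤ) * (c (e i) - l * (c (e i) / l)) +
        ∑ i, ((ρ * l * m i : ℕ) : ℤ) * (c (e i) / l)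
      have h2 : c θ = -∑ i, (m i : ℤ) * c (e i) := by
        have h3 := congrArg c hm
        rw [map_neg, map_sum] at h3
        simp only [map_nsmul, nsmul_eq_mul] at h3
        linarith
      have h3 : ∑ i, (m i : ℤ) * (c (e i) - l * (c (e i) / l)) =
          ∑ i, (m i : ℤ) * c (e i) - l * ∑ i, (m i : ℤ) * (c (e i) / l) := by
        rw [Finset.mul_sum, ← Finset.sum_sub_distrib]
        exact Finset.sum_congr rfl fun i _ => by ring
      have h4 : ∑ i, ((ρ * l * m i : ℕ) : ℤ) * (c (e i) / l) =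
          ρ * (l * ∑ i, (m i : ℤ) * (c (e i) / l)) := by
        rw [Finset.mul_sum, Finset.mul_sum]
        refine Finset.sum_congr rfl fun i _ => ?_
        push_cast
        ring
      rw [h2, h3, h4]
      ring
  · intro T hT P' hP'
    by_cases hs : (1 : K) ∈ P'.I (0, 1)
    · obtain ⟨t, h1, a₀, ha₀, b₀, u₀, hu₀, hu₀', hu₀a, hu₀a'⟩ := h.mon T hT _ (hB P' hP' hs)
      set E := ∑ i, t i • e i with hE
      have hdE : (l : ℤ) ∣ c E := by
        have h2 := (contrB_out hl P' hs hu₀ hu₀').1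
        have h3 := (contrB_out hl P' hs hu₀a hu₀a').1
        have h4 := dvd_sub h2 h3
        rwa [map_add, map_neg, sub_add_eq_sub_sub, sub_self, zero_sub, neg_neg] at h4
      have hq : 0 ≤ c E / l - ∑ i, (t i : ℤ) * (c (e i) / l) := by
        have := sum_ediv_le t c hl e
        linarith
      have hdeg : ∀ b : ι, ((b, c b / l) : ι × ℤ) + -(E, c E / l) = (b + -E, c (b + -E) / l) := by
        intro b
        rw [Prod.ext_iff]
        constructor
        · rfl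
        · change c b / l + -(c E / l) = c (b + -E) / l
          rw [map_add, map_neg, Int.add_ediv_of_dvd_right (by rwa [dvd_neg]),
            Int.neg_ediv_of_dvd hdE]
      refine ⟨ocons (c E / l - ∑ i, (t i : ℤ) * (c (e i) / l)).toNat t, ?_⟩
      rw [sum_ocons, Int.toNat_of_nonneg hq, sub_add_cancel, ← hE]
      refine ⟨fun a ha => ?_, a₀, ha₀, (b₀, c b₀ / l), u₀, M.wr_gen c l hu₀,
        (contrB_out hl P' hs hu₀ hu₀').2, ?_, ?_⟩
      · obtain ⟨b, u, hu, hu', hua⟩ := h1 a ha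
        refine ⟨(b, c b / l), u, M.wr_gen c l hu, (contrB_out hl P' hs hu hu').2, ?_⟩
        rw [hdeg]
        exact M.wr_gen c l hua
      · rw [hdeg]
        exact M.wr_gen c l hu₀a
      · rw [hdeg]
        exact (contrB_out hl P' hs hu₀a hu₀a').2
    · obtain ⟨t, h1, a₀, ha₀, b₀, u₀, hu₀, hu₀', hu₀a, hu₀a'⟩ := h.mon T hT _ (hA P' hP' hs)
      set E := ∑ i, t i • e i with hE
      set F := ∑ i, (t i : ℤ) * (c (e i) / l) with hF
      -- a large degree
      have hN : ∀ b : ι, ∃ m : ℤ, c b / l ≤ m ∧ c (b + -E) / l + 1 ≤ m - F := by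
        intro b
        exact ⟨max (c b / l) (c (b + -E) / l + 1 + F), le_max_left _ _, by
          have := le_max_right (c b / l) (c (b + -E) / l + 1 + F)
          linarith⟩
      have hdeg : ∀ (b : ι) (m : ℤ), ((b, m) : ι × ℤ) + -(E, F) = (b + -E, m - F) := by
        intro b m
        rfl
      refine ⟨ocons 0 t, ?_⟩
      rw [sum_ocons, Nat.cast_zero, zero_add, ← hE, ← hF]
      refine ⟨fun a ha => ?_, a₀, ha₀, ?_⟩
      · obtain ⟨b, u, hu, hu', hua⟩ := h1 a ha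
        obtain ⟨m, hm1, hm2⟩ := hN b
        obtain ⟨h2, h3⟩ := contrA_out hl P' hs hu hu' hm1
        refine ⟨(b, m), u, h2, h3, ?_⟩
        rw [hdeg]
        refine M.wr_of_nonpos c hl ?_ hua
        have h4 := Int.emod_add_mul_ediv (c (b + -E)) l
        have h5 := Int.emod_lt_of_pos (c (b + -E)) hl'
        have h6 := mul_le_mul_of_nonneg_left hm2 hl'.le
        rw [mul_add, mul_one] at h6
        linarith
      · obtain ⟨m, hm1, hm2⟩ := hN b₀
        obtain ⟨h2, h3⟩ := contrA_out hl P' hs hu₀ hu₀' hm1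
        obtain ⟨h4, h5⟩ := contrA_out hl P' hs hu₀a hu₀a' (m := m - F) (by omega)
        refine ⟨(b₀, m), u₀, h2, h3, ?_, ?_⟩
        · rw [hdeg]; exact h4
        · rw [hdeg]; exact h5

end Pool.Agent.MP_b525bf_ag_EL
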