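import Pool.Agent.Lib.MP_b525bf_ag_EL.STEP
import Pool.Agent.Lib.MP_b525bf_ag_EL.LST
import Pool.Agent.Lib.MP_b525bf_ag_E.EQ1

/-!
# Theorem EL, row IND: the induction

Recipe. As `exists_goodC_stab` and `destack_stab` (`MP_b525bf_ag_E/EQ1.lean`), with rows STEP, LST.
-/

set_option autoImplicit false
set_option linter.unusedVariables false

namespace Pool.Agent.MP_b525bf_ag_EL

open Pool.Agent.MP_b525bf_ag Pool.Agent.MP_b525bf_ag_E

variable {k K : Type} [Field k] [Field K] [Algebra k K] {G : Subgroup (K ≃ₐ[k] K)}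

/-- The end of the destackification. -/
structure EndL (G : Subgroup (K ≃ₐ[k] K)) (S : Submodule k K) (𝒯 : Set (Set K)) {ι σ : Type}
    [AddCommGroup ι] [Fintype σ] (M : Fam k K ι) (θ : ι) (e : σ → ι) : Prop where
  good : GoodI M θ 1
  zero : M.s 0 = S
  stab : FStab G M
  log : LogI M θ e 𝒯

/-- The induction. -/
theorem IND.ind (G : Subgroup (K ≃ₐ[k] K)) (𝒯 : Set (Set K)) (S : Submodule k K) :
    ∀ (w n : ℕ) (ι σ : Type) [AddCommGroup ι] [Module.Free ℤ ι] [Module.Finite ℤ ι] [Fintype σ]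
    (M : Fam k K ι) (θ : ι) (e : σ → ι), GoodI M θ w → FStab G M → LogI M θ e 𝒯 → M.s 0 = S →
    (occ M θ w).ncard ≤ n →
    ∃ (ι' : Type) (_ : AddCommGroup ι') (_ : Module.Free ℤ ι') (_ : Module.Finite ℤ ι')
      (σ' : Type) (_ : Fintype σ') (M' : Fam k K ι') (θ' : ι') (e' : σ' → ι'),
      EndL G S 𝒯 M' θ' e' := by
  intro w
  induction w with
  | zero =>
    intro n ι σ _ _ _ _ M θ e hM _ _ _ _
    obtain ⟨h1, h2⟩ := hM.idx _ hM.nontriv
    omega
  | succ w ihw =>
    intro n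
    induction n with
    | zero =>
      intro ι σ _ _ _ _ M θ e hM hG hL hS hn
      rcases Nat.eq_zero_or_pos w with rfl | hw
      · exact ⟨ι, inferInstance, inferInstance, inferInstance, σ, inferInstance, M, θ, e,
          ⟨by simpa using hM, hS, hG, hL⟩⟩
      · have hempty : occ M θ (w + 1) = ∅ := by
          rw [← Set.ncard_eq_zero (occ_finite hM.fg θ (w + 1))]
          omega
        have hM' : GoodI M θ w := by
          refine ⟨hM.fg, hM.smooth, fun P hP => ?_, hM.neg, hM.nontriv, hM.gen⟩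
          obtain ⟨h1, h2⟩ := hM.idx P hP
          refine ⟨h1, ?_⟩
          have h3 : P.grp.index ≠ w + 1 := by
            intro h
            have : P.grp ∈ occ M θ (w + 1) := ⟨h, P, hP, rfl⟩
            rw [hempty] at this
            exact this
          omega
        exact ihw _ ι σ M θ e hM' hG hL hS le_rfl
    | succ n ihn =>
      intro ι σ _ _ _ _ M θ e hM hG hL hS hn
      rcases Nat.eq_zero_or_pos w with rfl | hw
      · exact ⟨ι, inferInstance, inferInstance, inferInstance, σ, inferInstance, M, θ, e,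
          ⟨by simpa using hM, hS, hG, hL⟩⟩
      · by_cases hne : (occ M θ (w + 1)).Nonempty
        · obtain ⟨H₀, hH₀⟩ := hne
          have htop : H₀ ≠ ⊤ := by
            rintro rfl
            have := hH₀.1
            rw [AddSubgroup.index_top] at this
            omega
          obtain ⟨c, l, hc, hl, hcH⟩ := exists_functional H₀ htop
          have hdom := isDomain_of_free K ι
          have hl0 : 0 < l := by omega
          obtain ⟨θ', h1, h2, h3, ⟨ρ, hρ⟩, h4⟩ := stepL hM hH₀ hc hl hl0 hcH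
          have hfree : Module.Free ℤ (ι × ℤ) := inferInstance
          have hfin : Module.Finite ℤ (ι × ℤ) := inferInstance
          have hL' := hL.wr hM.fg (c := c) hl0 hρ (fun P' hP' => (h4 P' hP').1)
            (fun P' hP' => (h4 P' hP').2)
          exact ihn (ι × ℤ) (Option σ) (M.wr c l) θ' _ h1 (hG.wr c l) hL' (h3.trans hS)
            (by omega)
        · refine ihn ι σ M θ e hM hG hL hS ?_
          rw [Set.not_nonempty_iff_eq_empty.1 hne, Set.ncard_empty]
          omega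

theorem exists_end {ι σ : Type} [AddCommGroup ι] [Module.Free ℤ ι] [Module.Finite ℤ ι]
    [Fintype σ] (M : Fam k K ι) (θ : ι) (h : Stk M θ) (hG : FStab G M) {e : σ → ι}
    {𝒯 : Set (Set K)} (hL : LogI M θ e 𝒯) :
    ∃ (ι' : Type) (_ : AddCommGroup ι') (_ : Module.Free ℤ ι') (_ : Module.Finite ℤ ι')
      (σ' : Type) (_ : Fintype σ') (M' : Fam k K ι') (θ' : ι') (e' : σ' → ι'),
      EndL G (M.s 0) 𝒯 M' θ' e' := by
  obtain ⟨w, hw, hidx⟩ := h.idx
  have hfi := finiteIndex_range_nsmul (ι := ι) hw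
  have hbot : ∀ (a : ι) (x : K), x ≠ 0 → x ∉ (GP.bot M).I a := by
    intro a x hx h
    change x ∈ (⊥ : Submodule k K) at h
    rw [Submodule.mem_bot] at h
    exact hx h
  have hM : GoodI M θ ((nsmulAddMonoidHom w : ι →+ ι).range).index := by
    refine ⟨h.fg, h.smooth, ?_, h.neg, ?_, ?_⟩
    · intro P hP
      obtain ⟨Q, hQ, hQP⟩ := P.exists_ideal
      have h1 : (∃ n : ℕ, 0 < n ∧ ∃ (x : K) (hx : x ∈ M.s (n • θ)), M.el hx ∉ Q) := by
        obtain ⟨n, hn, x, hx, hx'⟩ := hP
        exact ⟨n, hn, x, hx, fun h => hx' ((hQP _ x hx).1 h)⟩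
      have h2 : ∀ a, a ∈ M.degs Q → a ∈ P.degs := by
        rintro a ⟨x, hx, hx'⟩
        exact ⟨x, hx, fun h => hx' ((hQP _ x hx).2 h)⟩
      have h3 : (nsmulAddMonoidHom w : ι →+ ι).range ≤ P.grp := by
        rintro _ ⟨d, rfl⟩
        obtain ⟨l', h4, h5⟩ := hidx Q h1 d
        exact ⟨l', h2 _ h4, h2 _ h5⟩
      refine ⟨?_, AddSubgroup.index_antitone h3⟩
      intro h0
      have h4 := AddSubgroup.index_dvd_of_le h3
      rw [h0, zero_dvd_iff] at h4
      exact hfi.index_ne_zero h4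
    · obtain ⟨n, hn, x, hx, hx0⟩ := h.nontriv
      exact ⟨n, hn, x, hx, hbot _ _ hx0⟩
    · rw [eq_top_iff]
      intro d _
      obtain ⟨a, ⟨x, hx, hx0⟩, y, hy, hy0⟩ := h.gen d
      exact ⟨a, ⟨x, hx, hbot _ _ hx0⟩, by rw [add_comm]; exact ⟨y, hy, hbot _ _ hy0⟩⟩
  exact IND.ind G 𝒯 (M.s 0) _ _ ι σ M θ e hM hG hL rfl le_rfl

end Pool.Agent.MP_b525bf_ag_EL
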