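import Pool.Agent.Lib.MP_b525bf_ag_EL.REL
import Pool.Agent.Lib.MP_b525bf_ag_E.LOC
import Pool.Agent.Lib.MP_b525bf_ag_E.RED

/-!
# Theorem EL, row LOCR

(a) Copy of `exists_smooth_loc` (`MP_b525bf_ag_E/LOC.lean`).
(b) Copy of `smooth_of_stab` (`MP_b525bf_ag_E/RED.lean`) with `Algebra.FormallySmooth k N.alg`
replaced by `LSm N e 1`: the property is invariant under `g ∈ G` (`LSm.of_equiv` with the
isomorphism `(M.loc hy).alg ≃ (M.loc (g y)).alg`, which maps `single (e i) 1` to itself). With `𝔫`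
as there: for every semistable prime `Q` some generator `M.el hy` of `𝔫` is not in `Q`: otherwise
`𝔫 ≤ Q`, so `M.el hx ∉ 𝔫.radical` for `x ∈ M.s (n • a)`, `M.el hx ∉ Q`; the second case of the
proof (`hr`) is then a contradiction.
-/

set_option autoImplicit false
set_option linter.unusedVariables false

namespace Pool.Agent.MP_b525bf_ag_EL

open Pool.Agent.LU2 Pool.Agent.MP_b525bf_ag Pool.Agent.MP_b525bf_ag_W Pool.Agent.MP_b525bf_ag_E
open scoped Pointwise

variable {k K ι σ : Type} [Field k] [Field K] [Algebra k K] [AddCommGroup ι]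
  {G : Subgroup (K ≃ₐ[k] K)} {M : Fam k K ι}

/-- an automorphism of the field, applied to the coefficients -/
private noncomputable def LOCRhom (g : K ≃ₐ[k] K) (M N : Fam k K ι)
    (h : ∀ (d : ι) (x : K), x ∈ M.s d → g x ∈ N.s d) : M.alg →ₐ[k] N.alg :=
  ((AddMonoidAlgebra.mapAlgHom ι (g : K →ₐ[k] K)).comp M.alg.val).codRestrict N.alg (by
    intro F d
    change (AddMonoidAlgebra.mapAlgHom ι (g : K →ₐ[k] K) F.1).coeff d ∈ N.s d
    rw [AddMonoidAlgebra.coeff_mapAlgHom]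
    exact h d _ (F.2 d))

private theorem LOCRhom_coeff (g : K ≃ₐ[k] K) (M N : Fam k K ι)
    (h : ∀ (d : ι) (x : K), x ∈ M.s d → g x ∈ N.s d) (F : M.alg) (d : ι) :
    (LOCRhom g M N h F).1.coeff d = g (F.1.coeff d) := by
  change (AddMonoidAlgebra.mapAlgHom ι (g : K →ₐ[k] K) F.1).coeff d = _
  rw [AddMonoidAlgebra.coeff_mapAlgHom]
  rfl

private theorem LOCRhom_el (g : K ≃ₐ[k] K) (M N : Fam k K ι)
    (h : ∀ (d : ι) (x : K), x ∈ M.s d → g x ∈ N.s d) {d : ι} {x : K} (hx : x ∈ M.s d) :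
    LOCRhom g M N h (M.el hx) = N.el (h d x hx) := by
  apply Subtype.ext
  change AddMonoidAlgebra.mapAlgHom ι (g : K →ₐ[k] K) (AddMonoidAlgebra.single d x) = _
  rw [AddMonoidAlgebra.mapAlgHom_single]
  rfl

private theorem LOCR_el_congr (N : Fam k K ι) {d : ι} {x y : K} (hx : x ∈ N.s d) (hy : y ∈ N.s d)
    (hxy : x = y) : N.el hx = N.el hy := by
  subst hxy; rfl

private theorem LOCR_lsm (g : K ≃ₐ[k] K) (M N : Fam k K ι) {e : σ → ι}
    (h : ∀ (d : ι) (x : K), x ∈ M.s d → g x ∈ N.s d)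
    (h' : ∀ (d : ι) (x : K), x ∈ N.s d → g.symm x ∈ M.s d)
    (hs : LSm M e (fun _ => (1 : K))) : LSm N e (fun _ => (1 : K)) := by
  have e1 : (LOCRhom g M N h).comp (LOCRhom g.symm N M h') = AlgHom.id k _ := by
    refine AlgHom.ext fun F => Subtype.ext (AddMonoidAlgebra.ext (Finsupp.ext fun d => ?_))
    change (LOCRhom g M N h (LOCRhom g.symm N M h' F)).1.coeff d = F.1.coeff d
    rw [LOCRhom_coeff, LOCRhom_coeff, AlgEquiv.apply_symm_apply]
  have e2 : (LOCRhom g.symm N M h').comp (LOCRhom g M N h) = AlgHom.id k _ := by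
    refine AlgHom.ext fun F => Subtype.ext (AddMonoidAlgebra.ext (Finsupp.ext fun d => ?_))
    change (LOCRhom g.symm N M h' (LOCRhom g M N h F)).1.coeff d = F.1.coeff d
    rw [LOCRhom_coeff, LOCRhom_coeff, AlgEquiv.symm_apply_apply]
  have hone : ∀ i, (1 : K) ∈ N.s (e i) := by
    intro i
    have h1 := h _ _ (hs.1 i)
    rw [map_one] at h1
    exact h1
  refine LSm.of_equiv hs (AlgEquiv.ofAlgHom (LOCRhom g M N h) (LOCRhom g.symm N M h') e1 e2)
    (fun i => hone i) ?_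
  intro i hi
  change LOCRhom g M N h (M.el hi) = _
  rw [LOCRhom_el]
  exact LOCR_el_congr N _ _ (map_one g)

/-- the action of `G` on the algebra -/
@[reducible] private noncomputable def LOCRact (hM : FStab G M) : MulSemiringAction G M.alg where
  smul g F := LOCRhom (g : K ≃ₐ[k] K) M M (hM g g.2) F
  one_smul F := by
    refine Subtype.ext (AddMonoidAlgebra.ext (Finsupp.ext fun d => ?_))
    change (LOCRhom (1 : K ≃ₐ[k] K) M M _ F).1.coeff d = F.1.coeff d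
    rw [LOCRhom_coeff]
    rfl
  mul_smul g g' F := by
    refine Subtype.ext (AddMonoidAlgebra.ext (Finsupp.ext fun d => ?_))
    change (LOCRhom ((g : K ≃ₐ[k] K) * (g' : K ≃ₐ[k] K)) M M _ F).1.coeff d =
      (LOCRhom (g : K ≃ₐ[k] K) M M _ (LOCRhom (g' : K ≃ₐ[k] K) M M _ F)).1.coeff d
    rw [LOCRhom_coeff, LOCRhom_coeff, LOCRhom_coeff]
    rfl
  smul_zero g := map_zero _
  smul_add g F F' := map_add _ _ _
  smul_one g := map_one _
  smul_mul g F F' := map_mul _ _ _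

theorem exists_lsm_loc (Q : Ideal M.alg) [Q.IsPrime] (C : Fam k K ι)
    (hle : ∀ d, M.s d ≤ C.s d) (hge : ∀ d, C.s d ≤ (atP M Q).s d) (hfg : C.alg.FG)
    {e : σ → ι} (hsm : LSm C e (fun _ => (1 : K))) :
    ∃ (c : ι) (y : K) (hy : y ∈ M.s c), M.el hy ∉ Q ∧ LSm (M.loc hy) e (fun _ => (1 : K)) := by
  obtain ⟨c, y, hy, hyQ, hC⟩ := exists_loc_le M Q C hfg hge
  refine ⟨c, y, hy, hyQ, ?_⟩
  have hy0 : y ≠ 0 := ne_zero_of_el_notMem M Q hyQ
  have hyC : y ∈ C.s c := hle c hy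
  have heq : M.loc hy = C.loc hyC := by
    refine Fam.ext fun d => le_antisymm ?_ ?_
    · rintro z ⟨n, hz⟩
      exact ⟨n, hle _ hz⟩
    · rintro z ⟨n, hz⟩
      obtain ⟨n', hz'⟩ := hC _ hz
      refine ⟨n' + n, ?_⟩
      have e1 : n' • c + (n • c + d) = (n' + n) • c + d := by rw [add_nsmul]; abel
      rw [e1] at hz'
      convert hz' using 1
      ring
  rw [heq]
  exact LSm.loc hsm hyC hy0

theorem lsm_of_stab (hidx : ∀ H : Subgroup G, H.FiniteIndex → H = ⊤) (hfg : M.alg.FG)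
    (hM : FStab G M) {a : ι} {e : σ → ι}
    (h : ∀ (Q : Ideal M.alg) [Q.IsPrime], SemiS M a Q → QStab G M Q →
      ∃ (c : ι) (y : K) (hy : y ∈ M.s c), M.el hy ∉ Q ∧ LSm (M.loc hy) e (fun _ => (1 : K)))
    (Q : Ideal M.alg) [Q.IsPrime] (hQ : SemiS M a Q) :
    ∃ (c : ι) (y : K) (hy : y ∈ M.s c), M.el hy ∉ Q ∧ LSm (M.loc hy) e (fun _ => (1 : K)) := by
  classical
  let _ : MulSemiringAction G M.alg := LOCRact hM
  have hact : ∀ (g : G) {d : ι} {y : K} (hy : y ∈ M.s d),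
      g • M.el hy = M.el (hM g g.2 d y hy) := fun g d y hy => LOCRhom_el _ _ _ _ _
  set S : Set M.alg := {F | ∃ (c : ι) (y : K) (hy : y ∈ M.s c),
    LSm (M.loc hy) e (fun _ => (1 : K)) ∧ F = M.el hy} with hS
  set 𝔫 : Ideal M.alg := Ideal.span S with h𝔫
  have hSact : ∀ (g : G), ∀ F ∈ S, g • F ∈ S := by
    rintro g _ ⟨c, y, hy, hs, rfl⟩
    refine ⟨c, (g : K ≃ₐ[k] K) y, hM g g.2 c y hy, ?_, hact g hy⟩
    refine LOCR_lsm (g : K ≃ₐ[k] K) (M.loc hy) (M.loc (hM g g.2 c y hy)) ?_ ?_ hs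
    · rintro d z ⟨m, hm⟩
      refine ⟨m, ?_⟩
      have := hM g g.2 _ _ hm
      rwa [map_mul, map_pow] at this
    · rintro d z ⟨m, hm⟩
      refine ⟨m, ?_⟩
      have h1 := hM _ (G.inv_mem g.2) _ _ hm
      rw [map_mul, map_pow] at h1
      have h2 : (g : K ≃ₐ[k] K)⁻¹ ((g : K ≃ₐ[k] K) y) = y :=
        AlgEquiv.symm_apply_apply (g : K ≃ₐ[k] K) y
      rw [h2] at h1
      exact h1
  have h𝔫le : ∀ g : G, g • 𝔫 ≤ 𝔫 := by
    intro g
    rw [Ideal.pointwise_smul_def, h𝔫, Ideal.map_span, Ideal.span_le]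
    rintro _ ⟨F, hF, rfl⟩
    exact Ideal.subset_span (hSact g F hF)
  have h𝔫eq : ∀ g : G, g • 𝔫 = 𝔫 := by
    intro g
    refine le_antisymm (h𝔫le g) ?_
    rw [Ideal.subset_pointwise_smul_iff]
    exact h𝔫le g⁻¹
  obtain ⟨n, hn, x, hx, hxQ⟩ := hQ
  by_cases hle : 𝔫 ≤ Q
  · exfalso
    have hQp0 : Q.IsPrime := inferInstance
    have hr : M.el hx ∉ 𝔫.radical := fun hmem => hxQ (hQp0.radical_le_iff.2 hle hmem)
    rw [← Ideal.sInf_minimalPrimes, Ideal.mem_sInf] at hr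
    push Not at hr
    obtain ⟨Q', hQ', hxQ'⟩ := hr
    have hQp : Q'.IsPrime := hQ'.1.1
    have hNoeth : IsNoetherianRing M.alg := by
      have := M.finiteType_alg hfg
      exact Algebra.FiniteType.isNoetherianRing k M.alg
    have hfin : 𝔫.minimalPrimes.Finite := Ideal.finite_minimalPrimes_of_isNoetherianRing _ 𝔫
    have hmin : ∀ (g : G) (P : Ideal M.alg), P ∈ 𝔫.minimalPrimes → g • P ∈ 𝔫.minimalPrimes := by
      intro g P hP
      have hPp : P.IsPrime := hP.1.1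
      refine ⟨⟨inferInstance, ?_⟩, ?_⟩
      · rw [← h𝔫eq g]
        exact Ideal.pointwise_smul_le_pointwise_smul_iff.2 hP.1.2
      · rintro P' ⟨hP'p, hP'⟩ hle
        have h1 : g⁻¹ • P' ≤ P := by
          rw [← Ideal.subset_pointwise_smul_iff]
          exact hle
        have h2 : 𝔫 ≤ g⁻¹ • P' := by
          rw [← h𝔫eq g⁻¹]
          exact Ideal.pointwise_smul_le_pointwise_smul_iff.2 hP'
        have h3 := hP.2 ⟨inferInstance, h2⟩ h1
        exact Ideal.pointwise_smul_subset_iff.2 h3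
    have hstab : MulAction.stabilizer G Q' = ⊤ := by
      apply hidx
      constructor
      rw [MulAction.index_stabilizer]
      have h1 : (MulAction.orbit G Q').Finite := hfin.subset (by
        rintro _ ⟨g, rfl⟩
        exact hmin g Q' hQ')
      have h2 : 0 < (MulAction.orbit G Q').ncard :=
        (Set.ncard_pos h1).2 ⟨Q', MulAction.mem_orbit_self Q'⟩
      exact h2.ne'
    have hQst : QStab G M Q' := by
      intro g hg d y hy hgy hyQ
      have h1 : (⟨g, hg⟩ : G) ∈ MulAction.stabilizer G Q' := by rw [hstab]; trivial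
      have h2 : (⟨g, hg⟩ : G) • Q' = Q' := h1
      have h3 := Ideal.smul_mem_pointwise_smul (⟨g, hg⟩ : G) _ Q' hyQ
      rw [h2, hact] at h3
      exact h3
    obtain ⟨c, y, hy, hyQ, hs⟩ := h Q' ⟨n, hn, x, hx, hxQ'⟩ hQst
    exact hyQ (hQ'.1.2 (Ideal.subset_span ⟨c, y, hy, hs, rfl⟩))
  · have h2 : ∃ F ∈ S, F ∉ Q := by
      by_contra hcon
      push Not at hcon
      exact hle (Ideal.span_le.2 hcon)
    obtain ⟨_, ⟨c, y, hy, hs, rfl⟩, hyq⟩ := h2
    exact ⟨c, y, hy, hyq, hs⟩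

end Pool.Agent.MP_b525bf_ag_EL
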