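import Pool.Agent.Lib.MP_b525bf_ag_EL.Defs
import Pool.Agent.Lib.MP_b525bf_ag_E.EFB
import Pool.Agent.Lib.MP_b525bf_ag_E.SEM

/-!
# Theorem EL, row MON: stable ideals of `A` are monomial at the semistable points of `EF`

Recipe. Let `P` be semistable; take the prime ideal `Q` of `GP.exists_ideal`: `LocP P d z` iff
`z ∈ (atP _ Q).s d`, and `UniP P d z` iff `IsU (atP _ Q) d z`. Let `hS := semiD ..`. For `j` and
`z ∈ orb G A (f j)`: `z ∈ (EF ..).s (dF m j + dS u j)`, and `dF m j + dS u j = (0, u · j)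
= -∑ i, u i j • dR N i`; by `unF`, `unS` some `z ∈ orb G A (f j)` is a unit in this degree. Let
`Jt := {j | f j ∈ T}` (not empty: `hgen`, `hne`). By `sign` for `dv j j' ∈ D`
(`pr (u i) (dv j j') = u i j - u i j'`) the `j ∈ Jt` are totally preordered by
`u i j ≤ u i j'` for all tight `i` (i.e. `¬ IsU (atP _ Q) (dR N i) 1`); choose `j₀` minimal
and `t i := u i j₀`. Every `z ∈ orb G A (f j)`, `j ∈ Jt`, is in `(atP _ Q).s (0, u · j₀)`: multiply
by `1` in degree `dR N i` (`u i j - u i j₀` times; if this is negative, `i` is not tight and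
`1` is a unit in degree `dR N i`). `hgen` gives all `a ∈ T`; `orb G A (f j₀) ⊆ T` gives the
unit.
-/

set_option autoImplicit false
set_option linter.unusedVariables false

namespace Pool.Agent.MP_b525bf_ag_EL

open Pool.Agent.LU2 Pool.Agent.MP_b525bf_ag Pool.Agent.MP_b525bf_ag_W Pool.Agent.MP_b525bf_ag_E

variable {k K : Type} [Field k] [Field K] [Algebra k K] {G : Subgroup (K ≃ₐ[k] K)}
  {A : Subalgebra k K} {N m : ℕ} {f : Fin N → K} {u : Fin m → Fin N → ℕ} {θ : Fin m → ℕ}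
  {D : Set (Fin N → ℤ)}

private theorem mon_mem {d : Ix N m} {x : K}
    (hx : (AddMonoidAlgebra.single d x : AddMonoidAlgebra K (Ix N m)) ∈ egens G A f u) :
    x ∈ (EF G A f u).s d := Algebra.subset_adjoin hx

private theorem mon_memA {a : K} (ha : a ∈ A) : a ∈ (EF G A f u).s 0 :=
  mon_mem (Or.inl (Or.inl (Or.inl ⟨a, ha, rfl⟩)))

private theorem mon_memF (j : Fin N) {y : K} (hy : y ∈ orb G A (f j)) :
    y ∈ (EF G A f u).s (dF m j) := mon_mem (Or.inl (Or.inl (Or.inr ⟨j, y, hy, rfl⟩)))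

private theorem mon_memS (j : Fin N) : (1 : K) ∈ (EF G A f u).s (dS u j) :=
  mon_mem (Or.inl (Or.inr ⟨j, rfl⟩))

private theorem mon_memR (i : Fin m) : (1 : K) ∈ (EF G A f u).s (dR N i) :=
  mon_mem (Or.inr ⟨i, rfl⟩)

private theorem mon_prod {ι σ : Type} [AddCommGroup ι] (M : Fam k K ι) (s : Finset σ) (d : σ → ι)
    (h : ∀ i, (1 : K) ∈ M.s (d i)) : (1 : K) ∈ M.s (∑ i ∈ s, d i) := by
  classical
  induction s using Finset.induction_on with
  | empty => simpa using M.one'
  | insert a s ha ih =>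
    rw [Finset.sum_insert ha]
    have := M.mul' (h a) ih
    rwa [one_mul] at this

private theorem mon_locP {ι : Type} [AddCommGroup ι] {M : Fam k K ι} (P : GP M) (Q : Ideal M.alg)
    [Q.IsPrime] (hQ : ∀ (a : ι) (x : K) (hx : x ∈ M.s a), M.el hx ∈ Q ↔ x ∈ P.I a) (d : ι)
    (z : K) (hz : z ∈ (atP M Q).s d) : LocP P d z := by
  obtain ⟨c, f, hf, hfq, hy⟩ := hz
  exact ⟨c, f, hf, fun h => hfq ((hQ c f hf).2 h), hy⟩

private theorem mon_uniP {ι : Type} [AddCommGroup ι] {M : Fam k K ι} (P : GP M) (Q : Ideal M.alg)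
    [Q.IsPrime] (hQ : ∀ (a : ι) (x : K) (hx : x ∈ M.s a), M.el hx ∈ Q ↔ x ∈ P.I a) (d : ι)
    (z : K) (hz : IsU (atP M Q) d z) : UniP P d z := by
  obtain ⟨c, f, hf, hfq, hy⟩ := hz.2.1
  refine ⟨c, f, hf, fun h => hfq ((hQ c f hf).2 h), hy, fun h => ?_⟩
  have h1 : IsU (atP M Q) (c + d) (f * z) := ((isU_atP_iff M Q hf).2 hfq).mul hz
  exact (isU_atP_iff M Q hy).1 h1 ((hQ _ _ hy).2 h)

theorem monAt_EF (h : Hyp G A) (hf : ∀ j, f j ∈ A) (hf0 : ∀ j, f j ≠ 0) (hC : Comb D u θ)
    (hD : ∀ a b, dv a b ∈ D) (T : Submodule A K) (hTA : ∀ a ∈ T, a ∈ A)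
    (hst : ∀ g ∈ G, ∀ a ∈ T, g a ∈ T) (Y : Finset K) (hne : Y.Nonempty) (hYT : ∀ y ∈ Y, y ∈ T)
    (hgen : T ≤ Submodule.span A (Y : Set K)) (hY : ∀ y ∈ Y, ∃ j, f j = y) :
    MonAt (EF G A f u) (amp N θ) (fun i : Fin m => dR N i) (T : Set K) := by
  classical
  intro P hP
  obtain ⟨Q, hQp, hQ⟩ := P.exists_ideal
  have hsemi : SemiS (EF G A f u) (amp N θ) Q := by
    obtain ⟨n, hn, x, hx, hx'⟩ := hP
    exact ⟨n, hn, x, hx, fun h => hx' ((hQ _ _ hx).1 h)⟩
  have hS := semiD h hf hf0 hC Q hsemi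
  set L := atP (EF G A f u) Q with hL
  have hle : ∀ d, (EF G A f u).s d ≤ L.s d := le_atP _ _
  -- the degree
  have hdeg : ∀ j : Fin N, dF m j + dS u j = -∑ i, u i j • dR N i := by
    intro j
    apply Prod.ext
    · rw [Prod.fst_add, Prod.fst_neg, Prod.fst_sum]
      simp [dF, dS, dR]
    · rw [Prod.snd_add, Prod.snd_neg, Prod.snd_sum]
      funext i
      simp only [dF, dS, dR, Prod.smul_snd, Pi.add_apply, Pi.neg_apply, Finset.sum_apply,
        Pi.smul_apply, Pi.zero_apply]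
      rw [Finset.sum_eq_single i]
      · simp
      · intro b _ hb
        simp [Ne.symm hb]
      · intro hh
        exact absurd (Finset.mem_univ i) hh
  let s : Fin N → ℕ := fun j => ∑ i, if IsU L (dR N i) 1 then 0 else u i j
  let Jt : Finset (Fin N) := Finset.univ.filter fun j => f j ∈ T
  have hJt : Jt.Nonempty := by
    obtain ⟨y, hy⟩ := hne
    obtain ⟨j, rfl⟩ := hY y hy
    exact ⟨j, Finset.mem_filter.2 ⟨Finset.mem_univ _, hYT _ hy⟩⟩
  obtain ⟨j₀, hj₀, hmin⟩ := Finset.exists_min_image Jt s hJt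
  have hj₀T : f j₀ ∈ T := (Finset.mem_filter.1 hj₀).2
  have hpr : ∀ (i : Fin m) (a b : Fin N), pr (u i) (dv a b) = (u i a : ℤ) - u i b := by
    intro i a b
    simp only [pr, dv, Pi.sub_apply, mul_sub, Finset.sum_sub_distrib]
    simp [Pi.single_apply]
  have hj₀le : ∀ j, f j ∈ T → ∀ i, ¬ IsU L (dR N i) 1 → u i j₀ ≤ u i j := by
    intro j hj
    have hmj := hmin j (Finset.mem_filter.2 ⟨Finset.mem_univ _, hj⟩)
    rcases hS.sign (dv j j₀) (hD j j₀) with h1 | h1
    · intro i hi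
      have := h1 i hi
      rw [hpr] at this
      omega
    · have h2 : ∀ i, (if IsU L (dR N i) 1 then 0 else u i j) ≤
          if IsU L (dR N i) 1 then 0 else u i j₀ := by
        intro i
        split_ifs with hi
        · exact le_rfl
        · have := h1 i hi
          rw [hpr] at this
          omega
      intro i hi
      by_contra hlt
      rw [not_le] at hlt
      have h3 : s j < s j₀ := by
        refine Finset.sum_lt_sum (fun i _ => h2 i) ⟨i, Finset.mem_univ _, ?_⟩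
        rw [if_neg hi, if_neg hi]
        exact hlt
      omega
  have hone : ∀ j, f j ∈ T → (1 : K) ∈ L.s (∑ i, ((u i j : ℤ) - u i j₀) • dR N i) := by
    intro j hj
    refine mon_prod L _ _ fun i => ?_
    by_cases hi : IsU L (dR N i) 1
    · rcases le_total 0 ((u i j : ℤ) - u i j₀) with h0 | h0
      · obtain ⟨n, hn⟩ := Int.eq_ofNat_of_zero_le h0
        rw [hn, natCast_zsmul]
        have := L.pow' hi.2.1 n
        rwa [one_pow] at this
      · obtain ⟨n, hn⟩ := Int.eq_ofNat_of_zero_le (neg_nonneg.2 h0)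
        have e : ((u i j : ℤ) - u i j₀) • dR N i = n • (-(dR N i : Ix N m)) := by
          rw [← natCast_zsmul, ← hn, neg_smul_neg]
        rw [e]
        have h5 := hi.2.2
        rw [inv_one] at h5
        have := L.pow' h5 n
        rwa [one_pow] at this
    · have h0 := hj₀le j hj i hi
      have h0' : 0 ≤ (u i j : ℤ) - u i j₀ := by omega
      obtain ⟨n, hn⟩ := Int.eq_ofNat_of_zero_le h0'
      rw [hn, natCast_zsmul]
      have := L.pow' (hle _ (mon_memR i)) n
      rwa [one_pow] at this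
  have horb : ∀ j, f j ∈ T → ∀ z ∈ orb G A (f j), z ∈ L.s (-∑ i, u i j₀ • dR N i) := by
    intro j hj z hz
    have h1 := L.mul' (L.mul' (hle _ (mon_memF j hz)) (hle _ (mon_memS j))) (hone j hj)
    rw [mul_one, mul_one, hdeg j] at h1
    have e : (-∑ i, u i j • dR N i + ∑ i, ((u i j : ℤ) - u i j₀) • dR N i : Ix N m) =
        -∑ i, u i j₀ • dR N i := by
      have : ∑ i, ((u i j : ℤ) - u i j₀) • (dR N i : Ix N m) =
          ∑ i, u i j • dR N i - ∑ i, u i j₀ • dR N i := by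
        rw [← Finset.sum_sub_distrib]
        refine Finset.sum_congr rfl fun i _ => ?_
        rw [sub_smul, natCast_zsmul, natCast_zsmul]
      rw [this]
      abel
    rwa [e] at h1
  have horbT : ∀ z ∈ orb G A (f j₀), z ∈ T := by
    intro z hz
    have : orb G A (f j₀) ≤ T := by
      refine Submodule.span_le.2 ?_
      rintro _ ⟨g, hg, rfl⟩
      exact hst g hg _ hj₀T
    exact this hz
  refine ⟨fun i => u i j₀, fun a ha => ?_, ?_⟩
  · apply mon_locP P Q hQ
    have ha' := hgen ha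
    refine Submodule.span_induction (p := fun a _ => a ∈ L.s (-∑ i, u i j₀ • dR N i)) ?_ ?_ ?_ ?_
      ha'
    · intro y hy
      obtain ⟨j, rfl⟩ := hY y hy
      exact horb j (hYT _ hy) _ (Submodule.subset_span ⟨1, G.one_mem, rfl⟩)
    · exact Submodule.zero_mem _
    · intro x y _ _ hx hy
      exact Submodule.add_mem _ hx hy
    · intro a x _ hx
      have := L.mul' (hle _ (mon_memA (f := f) (u := u) (G := G) a.2)) hx
      rw [zero_add] at this
      exact this
  · obtain ⟨y, hy, hyU⟩ := hS.unF j₀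
    refine ⟨y, horbT y hy, mon_uniP P Q hQ _ _ ?_⟩
    have := hyU.mul (hS.unS j₀)
    rw [mul_one, hdeg j₀] at this
    exact this

end Pool.Agent.MP_b525bf_ag_EL
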