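import Pool.Agent.Lib.MP_b525bf_ag_EL.CHR
import Pool.Agent.Lib.MP_b525bf_ag_EL.LOCR
import Pool.Agent.Lib.MP_b525bf_ag_EL.ADPR
import Pool.Agent.Lib.MP_b525bf_ag_EL.MON
import Pool.Agent.Lib.MP_b525bf_ag_EL.IND
import Pool.Agent.Lib.MP_b525bf_ag_E.MAIN

/-!
# Theorem EL, row INI: the logarithmic data of the smooth multigraded family

Recipe. Copy `exists_stk` (`MP_b525bf_ag_E/MAIN.lean`), with `exists_adaptL` for `exists_adapt`
(`Y₀` := nonzero generators of the `T j` as `A`-modules, `A` is Noetherian). `LogI`: `one`: the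
generators; `neg`: `-(amp N θ) = ∑ i, θ i • dR N i`; `mon`: row MON; `sm`: for a semistable graded
prime take the prime ideal (`GP.exists_ideal`) and `lsm_of_stab`, where for a stable `Q` the chart
`C` is given by `exists_chartL` and `exists_lsm_loc` (as in `exists_stk`).
-/

set_option autoImplicit false
set_option linter.unusedVariables false

namespace Pool.Agent.MP_b525bf_ag_EL

open Pool.Agent.LU2 Pool.Agent.MP_b525bf_ag Pool.Agent.MP_b525bf_ag_W Pool.Agent.MP_b525bf_ag_E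

variable {k K : Type} [Field k] [Field K] [Algebra k K] {G : Subgroup (K ≃ₐ[k] K)}
  {A : Subalgebra k K}

private theorem ini_memR {N m : ℕ} {f : Fin N → K} {u : Fin m → Fin N → ℕ} (i : Fin m) :
    (1 : K) ∈ (EF G A f u).s (dR N i) :=
  Algebra.subset_adjoin (Or.inr ⟨i, rfl⟩)

private theorem ini_neg {N m : ℕ} (θ : Fin m → ℕ) :
    -(amp N θ) = ∑ i : Fin m, θ i • dR N i := by
  refine Prod.ext ?_ ?_
  · rw [Prod.fst_sum]
    simp [dR, amp]
  · rw [Prod.snd_sum]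
    funext i
    rw [Finset.sum_apply]
    simp [dR, amp, Pi.single_apply]

private theorem ini_gens (h : Hyp G A) (T : Submodule A K) (hT0 : T ≠ ⊥)
    (hTA : ∀ a ∈ T, a ∈ A) : ∃ Y : Finset K, Y.Nonempty ∧ (∀ y ∈ Y, y ∈ T ∧ y ∈ A ∧ y ≠ 0) ∧
      T ≤ Submodule.span A (Y : Set K) := by
  classical
  have hN : IsNoetherianRing A := isNoetherianRing_of_fg h.fg
  have h1 : T ≤ LinearMap.range (Algebra.linearMap A K) := by
    intro y hy
    exact ⟨⟨y, hTA y hy⟩, rfl⟩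
  have h2 : IsNoetherian A (LinearMap.range (Algebra.linearMap A K)) := inferInstance
  obtain ⟨S, hS⟩ := isNoetherian_submodule.1 h2 _ h1
  have h3 : T ≤ Submodule.span A ((S.erase 0 : Finset K) : Set K) := by
    rw [← hS, Submodule.span_le]
    intro y hy
    by_cases h0 : y = 0
    · rw [h0]
      exact Submodule.zero_mem _
    · exact Submodule.subset_span (Finset.mem_coe.2 (Finset.mem_erase.2 ⟨h0, hy⟩))
  refine ⟨S.erase 0, ?_, ?_, h3⟩
  · by_contra hne
    rw [Finset.not_nonempty_iff_eq_empty] at hne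
    rw [hne, Finset.coe_empty, Submodule.span_empty] at h3
    exact hT0 (le_bot_iff.1 h3)
  · intro y hy
    have h4 : y ∈ T := by
      rw [← hS]
      exact Submodule.subset_span (Finset.mem_coe.2 (Finset.mem_of_mem_erase hy))
    exact ⟨h4, hTA y h4, Finset.ne_of_mem_erase hy⟩

theorem exists_stkL (h : Hyp G A) {m : ℕ} {n : Fin m → ℕ} {R : Fin m → Subalgebra k K}
    {x : ∀ i, Fin (n i) → K} (hR : ∀ i, Good G A (R i) (x i))
    (hcov : ∀ W : ValuationSubring K, Inv G A W → ∃ i, ∀ f ∈ R i, f ∈ W) {r : ℕ}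
    (T : Fin r → Submodule A K) (hT0 : ∀ j, T j ≠ ⊥) (hTA : ∀ j, ∀ a ∈ T j, a ∈ A)
    (hTG : ∀ j, ∀ g ∈ G, ∀ a ∈ T j, g a ∈ T j) :
    ∃ (N m : ℕ) (M : Fam k K (Ix N m)) (a : Ix N m) (e : Fin m → Ix N m), Stk M a ∧
      M.s 0 = Subalgebra.toSubmodule A ∧ FStab G M ∧
      LogI M a e (Set.range fun j => (T j : Set K)) := by
  classical
  have hY := fun j => ini_gens h (T j) (hT0 j) (hTA j)
  choose Y hYne hYT hYgen using hY
  obtain ⟨N, f, D, hD, hf, hf0, had, hfY, hdv⟩ := exists_adaptL h hR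
    ((Finset.univ : Finset (Fin r)).biUnion Y) (by
      intro y hy
      obtain ⟨j, -, hj⟩ := Finset.mem_biUnion.1 hy
      exact (hYT j y hj).2)
  obtain ⟨m', u, θ, hC⟩ := exists_comb D hD
  -- the charts at the stable semistable primes
  have hchart : ∀ (Q : Ideal (EF G A f u).alg) [Q.IsPrime], SemiS (EF G A f u) (amp N θ) Q →
      QStab G (EF G A f u) Q →
      ∃ C : Fam k K (Ix N m'), (∀ d, (EF G A f u).s d ≤ C.s d) ∧
        (∀ d, C.s d ≤ (atP (EF G A f u) Q).s d) ∧ C.alg.FG ∧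
        LSm C (fun i : Fin m' => dR N i) (fun _ => (1 : K)) := by
    intro Q _ hQ hst
    have hQ' := semiD h hf hf0 hC Q hQ
    have hU := hQ'.isU_f h hf hst
    obtain ⟨W, hWi, hW⟩ := exists_dom h (zeroSub (atP (EF G A f u) Q)) (by
      intro a ha
      exact le_atP _ _ _ (by rw [EF_zero h hf]; exact ha))
      (zeroSub_stab (EF_stab h) Q hst) (isLocalRing_zeroSub Q)
    obtain ⟨i, hi⟩ := hcov W hWi
    exact exists_chartL hQ' h hf hf0 hU hWi hW (hR i) hi (had i)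
  have hloc : ∀ (Q : Ideal (EF G A f u).alg) [Q.IsPrime], SemiS (EF G A f u) (amp N θ) Q →
      ∃ (c : Ix N m') (y : K) (hy : y ∈ (EF G A f u).s c), (EF G A f u).el hy ∉ Q ∧
        LSm ((EF G A f u).loc hy) (fun i : Fin m' => dR N i) (fun _ => (1 : K)) := by
    intro Q _ hQ
    refine lsm_of_stab h.idx (EF_fg h hf) (EF_stab h) ?_ Q hQ
    intro Q' _ hQ' hst
    obtain ⟨C, h1, h2, h3, h4⟩ := hchart Q' hQ' hst
    exact exists_lsm_loc Q' C h1 h2 h3 h4
  refine ⟨N, m', EF G A f u, amp N θ, fun i => dR N i, ?_, EF_zero h hf, EF_stab h, ?_⟩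
  · refine ⟨EF_fg h hf, ?_, ?_, EF_neg hC, ⟨1, one_pos, ?_⟩, fun d => ⟨0, ?_, ?_⟩⟩
    · refine smooth_of_stab h.idx (EF_fg h hf) (EF_stab h) ?_
      intro Q _ hQ hst
      obtain ⟨C, h1, h2, h3, h4⟩ := hchart Q hQ hst
      exact exists_smooth_loc Q C h1 h2 h3 h4.smooth
    · obtain ⟨w, hw, hidx⟩ := EF_idx (u := u) (D := D) h hf
      exact ⟨w, hw, fun Q _ hQ => hidx Q (semiD h hf hf0 hC Q hQ)⟩
    · exact EF_ne hC hf0 _
    · exact EF_ne hC hf0 _
    · exact EF_ne hC hf0 _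
  · refine ⟨fun i => ini_memR i, ?_, ⟨θ, ini_neg θ⟩, ?_⟩
    · intro P hP
      obtain ⟨Q, hQ, hQP⟩ := P.exists_ideal
      have hQs : SemiS (EF G A f u) (amp N θ) Q := by
        obtain ⟨n, hn, y, hy, hy'⟩ := hP
        exact ⟨n, hn, y, hy, fun h' => hy' ((hQP _ y hy).1 h')⟩
      obtain ⟨c, y, hy, hyQ, hL⟩ := hloc Q hQs
      exact ⟨c, y, hy, fun h' => hyQ ((hQP _ y hy).2 h'), hL⟩
    · rintro _ ⟨j, rfl⟩
      exact monAt_EF h hf hf0 hC hdv (T j) (hTA j) (hTG j) (Y j) (hYne j)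
        (fun y hy => (hYT j y hy).1) (hYgen j)
        (fun y hy => hfY y (Finset.mem_biUnion.2 ⟨j, Finset.mem_univ _, hy⟩))

end Pool.Agent.MP_b525bf_ag_EL
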