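import Mathlib.RingTheory.RingHom.Smooth
import Pool.Agent.Lib.MP_b525bf_ag_EL.Defs

/-!
# Theorem EL: lifting property of formally smooth homomorphisms
-/

set_option autoImplicit false

namespace Pool.Agent.MP_b525bf_ag_EL

/-- The lifting property. -/
theorem exists_lift_rel {P B D : Type} [CommRing P] [CommRing B] [CommRing D] {φ : P →+* B}
    (hφ : φ.FormallySmooth) (J : Ideal D) (hJ : J ^ 2 = ⊥) (ψ : P →+* D) (f : B →+* D ⧸ J)
    (h : ∀ p, f (φ p) = Ideal.Quotient.mk J (ψ p)) :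
    ∃ F : B →+* D, (∀ b, Ideal.Quotient.mk J (F b) = f b) ∧ ∀ p, F (φ p) = ψ p := by
  letI := φ.toAlgebra
  letI := ψ.toAlgebra
  have : Algebra.FormallySmooth P B := hφ.toAlgebra
  let f' : B →ₐ[P] D ⧸ J := { f with commutes' := fun p => h p }
  obtain ⟨F, hF⟩ := Algebra.FormallySmooth.exists_lift J ⟨2, hJ⟩ f'
  refine ⟨F.toRingHom, fun b => ?_, fun p => F.commutes p⟩
  exact congrArg (fun g : B →ₐ[P] D ⧸ J => g b) hF

/-- The lifting property characterises formal smoothness. -/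
theorem formallySmooth_of_lift {P B : Type} [CommRing P] [CommRing B] {φ : P →+* B}
    (h : ∀ (D : Type) [CommRing D] (J : Ideal D) (_ : J ^ 2 = ⊥) (ψ : P →+* D) (f : B →+* D ⧸ J)
      (_ : ∀ p, f (φ p) = Ideal.Quotient.mk J (ψ p)),
      ∃ F : B →+* D, (∀ b, Ideal.Quotient.mk J (F b) = f b) ∧ ∀ p, F (φ p) = ψ p) :
    φ.FormallySmooth := by
  letI := φ.toAlgebra
  change Algebra.FormallySmooth P B
  refine Algebra.FormallySmooth.of_comp_surjective ?_
  intro D _ _ J hJ f
  obtain ⟨F, h1, h2⟩ := h D J hJ (algebraMap P D) f.toRingHom (fun p => f.commutes p)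
  refine ⟨{ F with commutes' := fun p => h2 p }, ?_⟩
  ext b
  exact h1 b

/-- Composition with isomorphisms on the right. -/
theorem formallySmooth_equiv_comp {P B C : Type} [CommRing P] [CommRing B] [CommRing C]
    {φ : P →+* B} (hφ : φ.FormallySmooth) (e : B ≃+* C) {ψ : P →+* C}
    (h : ∀ p, ψ p = e (φ p)) : ψ.FormallySmooth := by
  have h1 : ψ = e.toRingHom.comp φ := RingHom.ext h
  rw [h1]
  exact hφ.comp (RingHom.FormallySmooth.of_bijective e.bijective)

end Pool.Agent.MP_b525bf_ag_EL
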