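import Pool.Agent.Lib.MP_b525bf_ag_EL.INI
import Pool.Agent.Lib.MP_b525bf_ag_EL.FIN

/-!
# Theorem EL: assembly
-/

set_option autoImplicit false

namespace Pool.Agent.MP_b525bf_ag_EL

open Pool.Agent.LU2 Pool.Agent.MP_b525bf_ag Pool.Agent.MP_b525bf_ag_E

/-- The submodule of the field given by an ideal. -/
def idT (k : Type) {A : Type} [Field k] [CommRing A] [IsDomain A] [Algebra k A] (D : Ideal A) :
    Submodule (rangeA k A) (FractionRing A) where
  carrier := {z | ∃ a ∈ D, algebraMap A (FractionRing A) a = z}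
  add_mem' := by
    rintro _ _ ⟨a, ha, rfl⟩ ⟨b, hb, rfl⟩
    exact ⟨a + b, D.add_mem ha hb, map_add _ _ _⟩
  zero_mem' := ⟨0, D.zero_mem, map_zero _⟩
  smul_mem' := by
    rintro ⟨_, c, rfl⟩ _ ⟨a, ha, rfl⟩
    exact ⟨c * a, D.mul_mem_left c ha, map_mul _ _ _⟩

/-- The equivariant log resolution. -/
theorem exists_log_ideal (p : ℕ) [Fact p.Prime] (k : Type) [Field k] [PerfectField k]
    [Infinite k] [CharP k p] (A : Type) [CommRing A] [IsDomain A] [Algebra k A]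
    [Algebra.FiniteType k A] (G : Subgroup (A ≃ₐ[k] A))
    (hG : ∀ H : Subgroup G, H.FiniteIndex → H = ⊤) (hA : AllAbhyankar G)
    (hF : ∀ I : Ideal A, I ≠ ⊥ → (∀ g ∈ G, ∀ a ∈ I, g a ∈ I) → (invariantCenters G I).Finite)
    (D J : Ideal A) (hD0 : D ≠ ⊥) (hDG : ∀ g ∈ G, ∀ a ∈ D, g a ∈ D) (hJ0 : J ≠ ⊥)
    (hJG : ∀ g ∈ G, ∀ a ∈ J, g a ∈ J) :
    ∃ I : Ideal A, I ≠ ⊥ ∧ (∀ g ∈ G, ∀ a ∈ I, g a ∈ I) ∧
      ∀ V : ValuationSubring (FractionRing A), (∀ a : A, algebraMap A (FractionRing A) a ∈ V) →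
        IsLogDesing V D (J * I) := by
  have hfin : Algebra.trdeg k (FractionRing A) < Cardinal.aleph0 := by
    have h1 : Algebra.EssFiniteType A (FractionRing A) :=
      Algebra.EssFiniteType.of_isLocalization _ (nonZeroDivisors A)
    have h2 : Algebra.EssFiniteType k (FractionRing A) :=
      Algebra.EssFiniteType.comp k A (FractionRing A)
    exact trdeg_lt_aleph0 k (FractionRing A)
  have hinj : Function.Injective (algebraMap A (FractionRing A)) :=
    IsFractionRing.injective A (FractionRing A)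
  have hhyp := hyp_liftG G hG
  obtain ⟨m, n, R, x, hR, hcov⟩ := exists_atlas (realCaseR p Fact.out).realCase hhyp
    (defLE_of_inv G hA) (finC_of_centers G hF) hfin
  have hne : ∀ D : Ideal A, D ≠ ⊥ → idT k D ≠ ⊥ := by
    intro D hD h
    obtain ⟨a, ha, ha0⟩ := Submodule.exists_mem_ne_zero_of_ne_bot hD
    have h1 : algebraMap A (FractionRing A) a ∈ idT k D := ⟨a, ha, rfl⟩
    rw [h, Submodule.mem_bot] at h1
    exact ha0 (hinj (by rw [h1, map_zero]))
  have hst : ∀ D : Ideal A, (∀ g ∈ G, ∀ a ∈ D, g a ∈ D) → ∀ g ∈ liftG G, ∀ a ∈ idT k D,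
      g a ∈ idT k D := by
    rintro D hD _ ⟨g, hg, rfl⟩ _ ⟨a, ha, rfl⟩
    refine ⟨g a, hD g hg a ha, ?_⟩
    rw [IsFractionRing.fieldEquivOfAlgEquivHom_apply,
      IsFractionRing.fieldEquivOfAlgEquiv_algebraMap]
  obtain ⟨N, m', M, a, e, hM, h0, hstab, hlog⟩ := exists_stkL hhyp hR hcov
    (r := 2) ![idT k D, idT k J] (fun j => by
      fin_cases j
      · exact hne D hD0
      · exact hne J hJ0) (fun j => by
      fin_cases j
      · rintro _ ⟨a, -, rfl⟩
        exact ⟨a, rfl⟩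
      · rintro _ ⟨a, -, rfl⟩
        exact ⟨a, rfl⟩) (fun j => by
      fin_cases j
      · exact hst D hDG
      · exact hst J hJG)
  obtain ⟨ι', _, _, _, σ', _, M', θ', e', hE⟩ := exists_end M a hM hstab hlog
  have h00 : ∀ z : FractionRing A, z ∈ M'.s 0 ↔ ∃ x : A, algebraMap A (FractionRing A) x = z := by
    intro z
    rw [hE.zero, h0]
    exact Iff.rfl
  obtain ⟨I, d, hI⟩ := exists_isIdl M' θ' hE.good h00
  refine ⟨I, hI.ne, fun g hg a ha => ?_, fun V hV => ?_⟩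
  · have h1 : a ∈ I ^ 1 := by rwa [pow_one]
    rw [hI.pow] at h1
    have h2 := hE.stab (IsFractionRing.fieldEquivOfAlgEquivHom k (FractionRing A) g)
      ⟨g, hg, rfl⟩ _ _ h1
    rw [IsFractionRing.fieldEquivOfAlgEquivHom_apply,
      IsFractionRing.fieldEquivOfAlgEquiv_algebraMap, ← hI.pow, pow_one] at h2
    exact h2
  · exact isLogDesing_of_end hE.good hE.log h00 hI D J
      ⟨0, rfl⟩ ⟨1, rfl⟩ V hV

end Pool.Agent.MP_b525bf_ag_EL
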