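import Pool.Agent.Lib.MP_b525bf_ag_EL.Defs
import Pool.Agent.Lib.MP_b525bf_ag_E.SMT

/-!
# Theorem EL, row SGR

Recipe. Copy the proof of `smooth_sgens` (`MP_b525bf_ag_E/SMT.lean`). There `C ≅ P ⊗_R B`, with
`P = Localization (inv T)` a localisation of `MvPolynomial (J ⊕ Fin n) k`, `R = k[X_1..X_n]`,
`R → B` formally smooth, so `P → P ⊗ B` is formally smooth (`s2` in `core1`), and
`MvPolynomial J k → P` (`Y_i ↦ X (Sum.inl i)`) is formally smooth: a polynomial ring extension
(`SM0_rename` in `SM0.lean` for `Fin`), then a localisation. So the composite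
`MvPolynomial J k → P → P ⊗ B ≅ C` is formally smooth, and it maps `Y_i` to
`delta (lam (X (inl i))) = single (-(Pi.single i 1)) 1` (`e1` in the proof). State a version of
`core1`, `core` with an additional formally smooth `κ : S →ₐ[k] P` and the conclusion that the
ring homomorphism `s ↦ ⟨δ (lm (κ s)), _⟩ : S → C` is formally smooth.
-/

set_option autoImplicit false
set_option linter.unusedVariables false
set_option linter.unusedSectionVars false

namespace Pool.Agent.MP_b525bf_ag_EL

open Pool.Agent.LU2 Pool.Agent.MP_b525bf_ag Pool.Agent.MP_b525bf_ag_W Pool.Agent.MP_b525bf_ag_E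

variable {k K : Type} [Field k] [Field K] [Algebra k K]

namespace SGR

open Pool.Agent.MP_b525bf_ag_E.SMT TensorProduct MvPolynomial

/-- Adding variables is formally smooth. -/
theorem rename_smooth (k : Type) [Field k] (J : Type) (d : ℕ) :
    (MvPolynomial.rename Sum.inl : MvPolynomial J k →ₐ[k]
      MvPolynomial (J ⊕ Fin d) k).toRingHom.FormallySmooth := by
  have h1 : (algebraMap (MvPolynomial J k)
      (MvPolynomial (Fin d) (MvPolynomial J k))).FormallySmooth :=
    RingHom.formallySmooth_algebraMap.2 inferInstance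
  let e : MvPolynomial (Fin d) (MvPolynomial J k) ≃+* MvPolynomial (J ⊕ Fin d) k :=
    (MvPolynomial.sumRingEquiv k (Fin d) J).symm.trans
      (MvPolynomial.renameEquiv k (Equiv.sumComm (Fin d) J)).toRingEquiv
  have h2 : (e : MvPolynomial (Fin d) (MvPolynomial J k) →+*
      MvPolynomial (J ⊕ Fin d) k).FormallySmooth :=
    RingHom.FormallySmooth.of_bijective e.bijective
  have h3 := h1.comp h2
  have h4 : (e : MvPolynomial (Fin d) (MvPolynomial J k) →+*
      MvPolynomial (J ⊕ Fin d) k).comp (algebraMap (MvPolynomial J k)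
      (MvPolynomial (Fin d) (MvPolynomial J k))) =
      (MvPolynomial.rename Sum.inl : MvPolynomial J k →ₐ[k]
        MvPolynomial (J ⊕ Fin d) k).toRingHom := by
    apply MvPolynomial.ringHom_ext
    · intro c
      change MvPolynomial.rename (Equiv.sumComm (Fin d) J)
        ((MvPolynomial.sumRingEquiv k (Fin d) J).symm (MvPolynomial.C (MvPolynomial.C c))) =
        MvPolynomial.rename Sum.inl (MvPolynomial.C c)
      rw [MvPolynomial.sumRingEquiv_symm_C_C, MvPolynomial.rename_C, MvPolynomial.rename_C]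
    · intro i
      change MvPolynomial.rename (Equiv.sumComm (Fin d) J)
        ((MvPolynomial.sumRingEquiv k (Fin d) J).symm (MvPolynomial.C (MvPolynomial.X i))) =
        MvPolynomial.rename Sum.inl (MvPolynomial.X i)
      rw [MvPolynomial.sumRingEquiv_symm_C_X, MvPolynomial.rename_X, MvPolynomial.rename_X]
      rfl
  rwa [h4] at h3

/-- the algebra of the family of homogeneous pieces -/
theorem ofSub_alg {k K ι : Type} [Field k] [Field K] [Algebra k K] [AddCommGroup ι]
    (S : Set (AddMonoidAlgebra K ι))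
    (hS : ∀ F ∈ S, ∃ d y, F = AddMonoidAlgebra.single d y) :
    (Fam.ofSub (Algebra.adjoin k S)).alg = Algebra.adjoin k S := by
  apply le_antisymm
  · intro F hF
    rw [Fam.eq_sum F]
    exact Subalgebra.sum_mem _ fun a _ => hF a
  · refine Algebra.adjoin_le ?_
    intro F hF
    obtain ⟨d, y, rfl⟩ := hS F hF
    exact Fam.single_mem_alg.2 (Algebra.subset_adjoin hF)

theorem sgens_single {k K : Type} [Field k] [Field K] [Algebra k K] {n : ℕ} {J : Type}
    [DecidableEq J] (B : Subalgebra k K) (x : Fin n → K) (T : Set J) (v : Fin n → J → ℤ) :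
    ∀ F ∈ sgens B x T v, ∃ d y, F = AddMonoidAlgebra.single d y := by
  rintro F ((((⟨b, _, rfl⟩ | ⟨i, rfl⟩) | ⟨i, _, rfl⟩) | ⟨l, rfl⟩) | ⟨l, rfl⟩)
  · exact ⟨_, _, rfl⟩
  · exact ⟨_, _, rfl⟩
  · exact ⟨_, _, rfl⟩
  · exact ⟨_, _, rfl⟩
  · exact ⟨_, _, rfl⟩

section Core

variable {k : Type} [Field k] {S R P L D B' : Type} [CommRing S] [CommRing R] [CommRing P] [CommRing L]
  [CommRing D] [CommRing B'] [Algebra k S]
  [Algebra k R] [Algebra k P] [Algebra k L] [Algebra k D] [Algebra k B']

/-- The map from the tensor product. -/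
theorem core1 [Algebra R P] [Algebra R B'] [Algebra R L] [Algebra R D] [IsScalarTower k R P]
    [Module.Flat R B'] [Algebra.FormallySmooth R B']
    (i : P →ₐ[R] L) (hi : Function.Injective i) (jL : L →ₐ[R] D) (jB : B' →ₐ[R] D)
    (hinj : Function.Injective (Algebra.TensorProduct.lift jB jL fun _ _ => Commute.all _ _))
    (hk : ∀ r : k, jL (i (algebraMap k P r)) = algebraMap k D r) (C : Subalgebra k D)
    (h1 : ∀ a, jL (i a) ∈ C) (h2 : ∀ b, jB b ∈ C)
    (h3 : ∀ c ∈ C, c ∈ (Algebra.TensorProduct.lift (jL.comp i) jB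
      fun _ _ => Commute.all _ _).range) (κ : S →ₐ[k] P) (hκ : κ.toRingHom.FormallySmooth)
    (ψ : S →ₐ[k] C) (hψ : ∀ s, (ψ s : D) = jL (i (κ s))) :
    ψ.toRingHom.FormallySmooth := by
  have hinj' : Function.Injective (Algebra.TensorProduct.lift jB (jL.comp i)
      fun _ _ => Commute.all _ _) :=
    MP_b525bf_ag_P.lift_injective_of_flat i hi jB jL hinj (jL.comp i) fun _ => rfl
  let Φ : P ⊗[R] B' →ₐ[k] D :=
    { (Algebra.TensorProduct.lift (jL.comp i) jB fun _ _ => Commute.all _ _).toRingHom with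
      commutes' := fun r => by
        change Algebra.TensorProduct.lift (jL.comp i) jB (fun _ _ => Commute.all _ _)
          ((algebraMap k P r) ⊗ₜ 1) = _
        rw [Algebra.TensorProduct.lift_tmul, map_one, mul_one]
        exact hk r }
  have hΦ0 : ∀ z, Φ z = Algebra.TensorProduct.lift (jL.comp i) jB (fun _ _ => Commute.all _ _) z :=
    fun _ => rfl
  have hΦt : ∀ (a : P) (b : B'), Φ (a ⊗ₜ b) = jL (i a) * jB b := fun a b => by
    rw [hΦ0, Algebra.TensorProduct.lift_tmul]
    rfl
  have hΦ : Function.Injective Φ := by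
    have hcomm : ∀ z : P ⊗[R] B', Algebra.TensorProduct.lift jB (jL.comp i)
        (fun _ _ => Commute.all _ _) (Algebra.TensorProduct.comm R P B' z) = Φ z := by
      intro z
      induction z with
      | zero => simp
      | add a b ha hb => rw [map_add, map_add, map_add, ha, hb]
      | tmul a b =>
        rw [Algebra.TensorProduct.comm_tmul, Algebra.TensorProduct.lift_tmul, hΦt, mul_comm]
        rfl
    intro z w hzw
    apply (Algebra.TensorProduct.comm R P B').injective
    apply hinj'
    rw [hcomm, hcomm, hzw]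
  have hrange : Φ.range = C := by
    refine le_antisymm ?_ ?_
    · rintro _ ⟨z, rfl⟩
      change Φ z ∈ _
      induction z with
      | zero =>
        rw [map_zero]
        exact Subalgebra.zero_mem _
      | add a b ha hb =>
        rw [map_add]
        exact Subalgebra.add_mem _ ha hb
      | tmul a b =>
        rw [hΦt]
        exact Subalgebra.mul_mem _ (h1 a) (h2 b)
    · intro c hc
      obtain ⟨z, hz⟩ := h3 c hc
      exact ⟨z, hz⟩
  have s2 : Algebra.FormallySmooth P (P ⊗[R] B') := inferInstance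
  let e : (P ⊗[R] B') ≃ₐ[k] C :=
    (AlgEquiv.ofInjective Φ hΦ).trans (Subalgebra.equivOfEq _ _ hrange)
  have he : ∀ z, (e z : D) = Φ z := fun z => rfl
  have s3 := (hκ.comp (RingHom.formallySmooth_algebraMap.2 s2)).comp
    (RingHom.FormallySmooth.of_bijective (f := (e.toAlgHom.toRingHom : P ⊗[R] B' →+* C))
      e.bijective)
  have h4 : (e.toAlgHom.toRingHom : P ⊗[R] B' →+* C).comp
      ((algebraMap P (P ⊗[R] B')).comp κ.toRingHom) = ψ.toRingHom := by
    refine RingHom.ext fun s => Subtype.ext ?_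
    change (e (algebraMap P (P ⊗[R] B') (κ s)) : D) = (ψ s : D)
    rw [he, hψ, Algebra.TensorProduct.algebraMap_apply, hΦt, map_one, mul_one]
    rfl
  rwa [h4] at s3

theorem core (θ : R →ₐ[k] P) (β : R →ₐ[k] B') (lm : P →ₐ[k] L) (δ : L →ₐ[k] D)
    (ν : B' →ₐ[k] D) (hc : ∀ r, ν (β r) = δ (lm (θ r))) (hlm : Function.Injective lm)
    [IsNoetherianRing R] [Algebra.FiniteType k B']
    (hβ : β.toRingHom.FormallySmooth)
    (hinj : letI := β.toRingHom.toAlgebra
      letI := (lm.comp θ).toRingHom.toAlgebra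
      letI := (δ.comp (lm.comp θ)).toRingHom.toAlgebra
      ∀ (jB : B' →ₐ[R] D) (jL : L →ₐ[R] D), (∀ b, jB b = ν b) → (∀ F, jL F = δ F) →
        Function.Injective (Algebra.TensorProduct.lift jB jL fun _ _ => Commute.all _ _))
    (C : Subalgebra k D) (h1 : ∀ a, δ (lm a) ∈ C) (h2 : ∀ b, ν b ∈ C)
    (h3 : C ≤ (δ.comp lm).range ⊔ ν.range) (κ : S →ₐ[k] P) (hκ : κ.toRingHom.FormallySmooth)
    (ψ : S →ₐ[k] C) (hψ : ∀ s, (ψ s : D) = δ (lm (κ s))) :
    ψ.toRingHom.FormallySmooth := by
  have hfl := flat_of β hβ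
  let _ : Algebra R P := θ.toRingHom.toAlgebra
  let _ : Algebra R B' := β.toRingHom.toAlgebra
  let _ : Algebra R L := (lm.comp θ).toRingHom.toAlgebra
  let _ : Algebra R D := (δ.comp (lm.comp θ)).toRingHom.toAlgebra
  have i2' : IsScalarTower k R P := IsScalarTower.of_algebraMap_eq fun r => (θ.commutes r).symm
  have i3 : Algebra.FormallySmooth R B' := hβ
  let jL : L →ₐ[R] D := { δ.toRingHom with commutes' := fun r => rfl }
  let i : P →ₐ[R] L := { lm.toRingHom with commutes' := fun r => rfl }
  let jB : B' →ₐ[R] D := { ν.toRingHom with commutes' := hc }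
  have hk : ∀ r : k, jL (i (algebraMap k P r)) = algebraMap k D r := fun r => by
    change δ (lm (algebraMap k P r)) = _
    rw [AlgHom.commutes, AlgHom.commutes]
  refine core1 i hlm jL jB (hinj jB jL (fun _ => rfl) fun _ => rfl) hk C h1 h2 ?_ κ hκ ψ hψ
  let T : Subalgebra k D :=
    { carrier := {c | c ∈ (Algebra.TensorProduct.lift (jL.comp i) jB
        fun _ _ => Commute.all _ _).range}
      mul_mem' := fun {a b} ha hb => by
        change a * b ∈ (Algebra.TensorProduct.lift (jL.comp i) jB
          fun _ _ => Commute.all _ _).range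
        exact Subalgebra.mul_mem _ ha hb
      add_mem' := fun {a b} ha hb => by
        change a + b ∈ (Algebra.TensorProduct.lift (jL.comp i) jB
          fun _ _ => Commute.all _ _).range
        exact Subalgebra.add_mem _ ha hb
      algebraMap_mem' := fun r => by
        refine ⟨(algebraMap k P r) ⊗ₜ 1, ?_⟩
        change Algebra.TensorProduct.lift (jL.comp i) jB (fun _ _ => Commute.all _ _)
          ((algebraMap k P r) ⊗ₜ 1) = _
        rw [Algebra.TensorProduct.lift_tmul, map_one, mul_one]
        exact hk r }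
  have hT : (δ.comp lm).range ⊔ ν.range ≤ T := by
    refine sup_le ?_ ?_
    · rintro _ ⟨a, rfl⟩
      refine ⟨a ⊗ₜ 1, ?_⟩
      change Algebra.TensorProduct.lift (jL.comp i) jB (fun _ _ => Commute.all _ _)
        (a ⊗ₜ 1) = _
      rw [Algebra.TensorProduct.lift_tmul, map_one, mul_one]
      rfl
    · rintro _ ⟨b, rfl⟩
      refine ⟨1 ⊗ₜ b, ?_⟩
      change Algebra.TensorProduct.lift (jL.comp i) jB (fun _ _ => Commute.all _ _)
        (1 ⊗ₜ b) = _
      rw [Algebra.TensorProduct.lift_tmul, map_one, one_mul]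
      rfl
  exact fun c hc' => hT (h3 hc')

end Core

end SGR

open Pool.Agent.MP_b525bf_ag_E.SMT TensorProduct MvPolynomial in
theorem lsm_sgens {J : Type} [DecidableEq J] [Fintype J] {B : Subalgebra k K} {n : ℕ}
    {x : Fin n → K} (hB : B.FG) (hx : ∀ i, x i ≠ 0) (hsm : SmOver B x) (T : Set J)
    (v : Fin n → J → ℤ) (hv : ∀ l, ∀ i ∈ T, 0 ≤ v l i) :
    LSm (Fam.ofSub (Algebra.adjoin k (sgens B x T v))) (fun i => -(Pi.single i 1))
      (fun _ => (1 : K)) := by
  classical
  obtain ⟨hxB, hsm⟩ := hsm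
  have hp : ∀ l : Fin n, ∃ p : Localization (inv (k := k) (n := n) T),
      lam v T p = sg (0, Pi.single l 1) := fun l => sg_mem v hv l
  choose p hp using hp
  have i4 : Algebra.FiniteType k B := (Subalgebra.fg_iff_finiteType _).1 hB
  have hθ : ∀ l, (aeval p : MvPolynomial (Fin n) k →ₐ[k] _) (X l) = p l := fun l => aeval_X _ _
  -- the exponents
  have h0 : ∀ l, (lam v T).comp (aeval p) (X l) = sg (0, Pi.single l 1) := fun l => by
    rw [AlgHom.comp_apply, hθ, hp]
  have h1 : ∀ s : Fin n →₀ ℕ, (lam v T).comp (aeval p) (monomial s 1) = sg (0, zx s) := by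
    intro s
    induction s using Finsupp.induction_linear with
    | zero =>
      have : ((0 : J → ℤ), zx ((0 : Fin n →₀ ℕ) : Fin n → ℕ)) = 0 := rfl
      rw [this, sg_zero]
      exact map_one _
    | add f g hf hg =>
      have : (monomial (f + g) (1 : k) : MvPolynomial (Fin n) k) =
          monomial f 1 * monomial g 1 := by
        rw [monomial_mul, one_mul]
      rw [this, map_mul, hf, hg, ← sg_add]
      have h2 : ((0 : J → ℤ), zx (f + g : Fin n →₀ ℕ)) = (0, zx f) + (0, zx g) := by
        refine Prod.ext (by simp) ?_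
        funext l
        simp [zx]
      rw [h2]
    | single l m =>
      rw [← X_pow_eq_monomial, map_pow, h0]
      unfold sg
      rw [AddMonoidAlgebra.single_pow, one_pow]
      congr 1
      refine Prod.ext (by simp) ?_
      funext l'
      simp only [zx, Prod.smul_snd, Pi.smul_apply]
      by_cases h : l' = l
      · subst h
        simp
      · rw [Pi.single_eq_of_ne h, Finsupp.single_eq_of_ne (by simpa using h)]
        simp
  have hR : ∀ (e : Fin n → ℕ) (c : k), ∃ r : MvPolynomial (Fin n) k,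
      (lam v T).comp (aeval p) r = AddMonoidAlgebra.single (0, zx e) c := by
    intro e c
    refine ⟨c • monomial (Finsupp.equivFunOnFinite.symm e) 1, ?_⟩
    rw [map_smul, h1]
    unfold sg
    rw [AddMonoidAlgebra.smul_single, smul_eq_mul, mul_one]
    rfl
  -- the commutative square
  let ν : B →ₐ[k] AddMonoidAlgebra K (J → ℤ) :=
    { (AddMonoidAlgebra.singleZeroRingHom : K →+* AddMonoidAlgebra K (J → ℤ)).comp
        (B.val : B →ₐ[k] K).toRingHom with
      commutes' := fun r => rfl }
  have hc : ∀ r, ν ((aeval fun i => (⟨x i, hxB i⟩ : B)) r) =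
      delta hx (lam v T ((aeval p : MvPolynomial (Fin n) k →ₐ[k] _) r)) := by
    have h2 : ν.comp (aeval fun i => (⟨x i, hxB i⟩ : B)) =
        (delta hx).comp ((lam v T).comp (aeval p : MvPolynomial (Fin n) k →ₐ[k] _)) := by
      refine MvPolynomial.algHom_ext fun l => ?_
      have h3 : (aeval fun i => (⟨x i, hxB i⟩ : B) : MvPolynomial (Fin n) k →ₐ[k] B) (X l) =
        ⟨x l, hxB l⟩ := aeval_X _ _
      rw [AlgHom.comp_apply, h3, AlgHom.comp_apply, h0]
      change AddMonoidAlgebra.single 0 (x l) = _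
      unfold sg
      rw [delta_single, mon_single, map_one, one_mul]
    exact AlgHom.congr_fun h2
  -- the image
  obtain ⟨g1, g2, g3⟩ := sg_mem_range (k := k) v T
  have e1 : ∀ i, delta (k := k) hx (sg (gen v (Sum.inl i))) =
      AddMonoidAlgebra.single (-(Pi.single i 1)) 1 := fun i => by
    unfold sg
    rw [delta_single]
    change AddMonoidAlgebra.single (-(Pi.single i 1)) (algebraMap k K 1 * mon x 0) = _
    rw [mon_zero, map_one, mul_one]
  have e2 : ∀ l, delta (k := k) hx (sg (gen v (Sum.inr l))) =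
      AddMonoidAlgebra.single (v l) (x l) := fun l => by
    unfold sg
    rw [delta_single]
    change AddMonoidAlgebra.single (v l) (algebraMap k K 1 * mon x (Pi.single l 1)) = _
    rw [mon_single, map_one, one_mul]
  have e3 : ∀ i, delta (k := k) hx (sg (-(gen v (Sum.inl i)))) =
      AddMonoidAlgebra.single (Pi.single i 1) 1 := fun i => by
    unfold sg
    rw [delta_single]
    change AddMonoidAlgebra.single (-(-(Pi.single i 1))) (algebraMap k K 1 * mon x (-0)) = _
    rw [neg_zero, mon_zero, map_one, mul_one, neg_neg]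
  have e4 : ∀ l, delta (k := k) hx (sg (-(gen v (Sum.inr l)))) =
      AddMonoidAlgebra.single (-(v l)) (x l)⁻¹ := fun l => by
    unfold sg
    rw [delta_single]
    change AddMonoidAlgebra.single (-(v l)) (algebraMap k K 1 * mon x (-(Pi.single l 1))) = _
    have h1 : mon x (-(Pi.single l 1)) = (x l)⁻¹ := by
      have h2 := mon_add hx (Pi.single l 1) (-(Pi.single l 1))
      rw [add_neg_cancel, mon_zero, mon_single] at h2
      exact eq_inv_of_mul_eq_one_right h2.symm
    rw [h1, map_one, one_mul]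
  have hCalg : (Fam.ofSub (Algebra.adjoin k (sgens B x T v))).alg =
      Algebra.adjoin k (sgens B x T v) := SGR.ofSub_alg _ (SGR.sgens_single B x T v)
  have hmem1 : ∀ i : J, (1 : K) ∈ (Fam.ofSub (Algebra.adjoin k (sgens B x T v))).s
      (-(Pi.single i 1)) :=
    fun i => Algebra.subset_adjoin (Or.inl (Or.inl (Or.inl (Or.inr ⟨i, rfl⟩))))
  let κ : MvPolynomial J k →ₐ[k] Localization (inv (k := k) (n := n) T) :=
    (IsScalarTower.toAlgHom k (MvPolynomial (J ⊕ Fin n) k) _).comp (MvPolynomial.rename Sum.inl)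
  have hκ : κ.toRingHom.FormallySmooth := by
    have s1 : Algebra.FormallySmooth (MvPolynomial (J ⊕ Fin n) k)
        (Localization (inv (k := k) (n := n) T)) :=
      Algebra.FormallySmooth.of_isLocalization (inv (k := k) (n := n) T)
    exact (SGR.rename_smooth k J n).comp (RingHom.formallySmooth_algebraMap.2 s1)
  refine ⟨hmem1, ?_⟩
  refine SGR.core (aeval p : MvPolynomial (Fin n) k →ₐ[k] _)
    (aeval fun i => (⟨x i, hxB i⟩ : B)) (lam v T) (delta hx) ν hc (lam_injective v T) hsm ?_
    (Fam.ofSub (Algebra.adjoin k (sgens B x T v))).alg ?_ ?_ ?_ κ hκ _ ?_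
  · let _ := (aeval fun i => (⟨x i, hxB i⟩ : B) : MvPolynomial (Fin n) k →ₐ[k] B).toRingHom.toAlgebra
    let _ := ((lam v T).comp (aeval p : MvPolynomial (Fin n) k →ₐ[k] _)).toRingHom.toAlgebra
    let _ := ((delta hx).comp
      ((lam v T).comp (aeval p : MvPolynomial (Fin n) k →ₐ[k] _))).toRingHom.toAlgebra
    exact fun jB jL hjB hjL => lift_inj hx jB hjB jL hjL hR
  · intro a
    rw [hCalg]
    have h1 := mem_of_lam v T ((Algebra.adjoin k (sgens B x T v)).comap (delta hx))
      (fun t => ?_) (fun i hi => ?_) (fun l => ?_) a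
    · exact h1
    · rw [Subalgebra.mem_comap]
      cases t with
      | inl i =>
        rw [e1]
        exact Algebra.subset_adjoin (Or.inl (Or.inl (Or.inl (Or.inr ⟨i, rfl⟩))))
      | inr l =>
        rw [e2]
        exact Algebra.subset_adjoin (Or.inl (Or.inr ⟨l, rfl⟩))
    · rw [Subalgebra.mem_comap, e3]
      exact Algebra.subset_adjoin (Or.inl (Or.inl (Or.inr ⟨i, hi, rfl⟩)))
    · rw [Subalgebra.mem_comap, e4]
      exact Algebra.subset_adjoin (Or.inr ⟨l, rfl⟩)
  · intro b
    rw [hCalg]
    exact Algebra.subset_adjoin (Or.inl (Or.inl (Or.inl (Or.inl ⟨b, b.2, rfl⟩))))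
  · rw [hCalg]
    refine Algebra.adjoin_le ?_
    have hmem : ∀ F ∈ (lam (k := k) v T).range, delta hx F ∈
        ((delta hx).comp (lam v T)).range ⊔ ν.range := by
      rintro _ ⟨a, rfl⟩
      exact Algebra.mem_sup_left ⟨a, rfl⟩
    rintro F ((((⟨b, hb, rfl⟩ | ⟨i, rfl⟩) | ⟨i, hi, rfl⟩) | ⟨l, rfl⟩) | ⟨l, rfl⟩)
    · exact Algebra.mem_sup_right ⟨⟨b, hb⟩, rfl⟩
    · rw [← e1]
      exact hmem _ (g1 _)
    · rw [← e3]
      exact hmem _ (g2 i hi)
    · rw [← e2]
      exact hmem _ (g1 _)
    · rw [← e4]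
      exact hmem _ (g3 l)
  · have h5 : ((Fam.ofSub (Algebra.adjoin k (sgens B x T v))).alg.val).comp
        (pol (Fam.ofSub (Algebra.adjoin k (sgens B x T v))) (fun i : J => -(Pi.single i 1))
          (fun _ => (1 : K)) hmem1) = (delta hx).comp ((lam v T).comp κ) := by
      refine MvPolynomial.algHom_ext fun i => ?_
      have h6 : pol (Fam.ofSub (Algebra.adjoin k (sgens B x T v)))
          (fun i : J => -(Pi.single i 1)) (fun _ => (1 : K)) hmem1 (X i) =
          (Fam.ofSub (Algebra.adjoin k (sgens B x T v))).el (hmem1 i) := aeval_X _ _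
      have h7 : κ (X i) = algebraMap (MvPolynomial (J ⊕ Fin n) k) _ (X (Sum.inl i)) := by
        change algebraMap (MvPolynomial (J ⊕ Fin n) k) _ (MvPolynomial.rename Sum.inl (X i)) = _
        rw [MvPolynomial.rename_X]
      have h8 : lam0 (k := k) v (X (Sum.inl i)) = sg (gen v (Sum.inl i)) := aeval_X _ _
      rw [AlgHom.comp_apply, h6, AlgHom.comp_apply, AlgHom.comp_apply, h7, lam_algebraMap, h8, e1]
      rfl
    exact AlgHom.congr_fun h5

end Pool.Agent.MP_b525bf_ag_EL
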