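import Pool.Agent.Lib.MP_b525bf_ag_E.StmtDefs

/-!
# Theorem EL: the definition used in the final statement
-/

set_option autoImplicit false

namespace Pool.Agent.MP_b525bf_ag_EL

open Pool.Agent.LU2

/-- The blowing up of `X = Spec A` in the ideal `I` is a log desingularization of `(X, V(D))` along
the valuation ring `V`: if `b` is an element of `I` of least value, the local ring `O` of the
blowing up at the center of the lift of `V`, which is `centerRing V (chart I b)`, is regular, and in
`Spec O` the inverse image of `V(D) ∪ V(I)` is the zero set of the product of some of the elements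
of a regular system of parameters. -/
def IsLogDesing {A : Type} [CommRing A] [IsDomain A] (V : ValuationSubring (FractionRing A))
    (D I : Ideal A) : Prop :=
  ∃ b ∈ I, b ≠ 0 ∧
    (∀ a ∈ I, V.valuation (algebraMap A (FractionRing A) a) ≤
      V.valuation (algebraMap A (FractionRing A) b)) ∧
    ∃ _ : IsRegularLocalRing (centerRing V (chart I b)),
      ∃ (n : ℕ) (x : Fin n → centerRing V (chart I b)) (s : Finset (Fin n)),
        ringKrullDim (centerRing V (chart I b)) = n ∧
        IsLocalRing.maximalIdeal (centerRing V (chart I b)) = Ideal.span (Set.range x) ∧
        PrimeSpectrum.zeroLocus ((D * I).map (algebraMap A (centerRing V (chart I b))) : Set _) =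
          PrimeSpectrum.zeroLocus {∏ i ∈ s, x i}

end Pool.Agent.MP_b525bf_ag_EL
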