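import Pool.Agent.Lib.MP_b525bf_ag_EL.REL
import Pool.Agent.Lib.MP_b525bf_ag_EL.LFT
import Pool.Agent.Lib.MP_b525bf_ag_helper12.URees

/-!
# Theorem EL, row UREL: the weighted Rees algebra over a polynomial ring
-/

set_option autoImplicit false
set_option linter.unusedVariables false

namespace Pool.Agent.MP_b525bf_ag_EL

open Pool.Agent.MP_b525bf_ag Polynomial
open Pool.Agent.MP_b525bf_ag.Fam

variable {k K σ : Type} [Field k] [Field K] [Algebra k K]

section lift

variable {M : Fam k K ℤ} {w : ℕ} [NeZero w]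

private lemma exists_lift_auxL {e : σ → ℤ} {y : σ → K} (h : ∀ i, y i ∈ M.s (e i))
    (hsm : (pol M e y h).toRingHom.FormallySmooth)
    {D : Type} [CommRing D] [Algebra k[X] D] [Algebra k D]
    [IsScalarTower k k[X] D] (I : Ideal D) (hI : I ^ 2 = ⊥) (f : M.U w →ₐ[k[X]] D ⧸ I)
    (s : D) (hs : s = algebraMap k[X] D X) (yt : σ → D)
    (hyt : ∀ i, Ideal.Quotient.mk I (yt i) = f (sym w ⟨y i, h i⟩)) :
    ∃ H : M.alg →ₐ[k] AdjoinRoot (rpoly w s),
      (∀ (d : ℤ) (x : M.s d) (u : D), Ideal.Quotient.mk I u = f (sym w x) →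
        H (M.el x.2) - algebraMap D _ u *
          AdjoinRoot.root (rpoly w s) ^ (d : ZMod w).val ∈
            I.map (algebraMap D (AdjoinRoot (rpoly w s)))) ∧
      ∀ i, H (M.el (h i)) = algebraMap D _ (yt i) *
        AdjoinRoot.root (rpoly w s) ^ (e i : ZMod w).val := by
  set J : Ideal (AdjoinRoot (rpoly w s)) := I.map (algebraMap D (AdjoinRoot (rpoly w s))) with hJ
  have hJ2 : J ^ 2 = ⊥ := by rw [hJ, ← Ideal.map_pow, hI, Ideal.map_bot]
  let j : D ⧸ I →+* AdjoinRoot (rpoly w s) ⧸ J :=
    Ideal.quotientMap J (algebraMap D (AdjoinRoot (rpoly w s))) Ideal.le_comap_map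
  have hj : ∀ u : D, j (Ideal.Quotient.mk I u) = Ideal.Quotient.mk J (algebraMap D _ u) :=
    fun u => Ideal.quotientMap_mk
  have hjs : j (algebraMap k[X] (D ⧸ I) X) = Ideal.Quotient.mk J (algebraMap D _ s) := by
    have h0 : algebraMap k[X] (D ⧸ I) X = Ideal.Quotient.mk I (algebraMap k[X] D X) := rfl
    rw [h0, ← hs, hj]
  have hjc : ∀ c : k, j (algebraMap k[X] (D ⧸ I) (C c)) =
      algebraMap k (AdjoinRoot (rpoly w s) ⧸ J) c := by
    intro c
    have h1 : algebraMap k[X] (D ⧸ I) (C c) = Ideal.Quotient.mk I (algebraMap k D c) := by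
      rw [IsScalarTower.algebraMap_apply k k[X] D]
      rfl
    rw [h1, hj]
    rfl
  let t : AdjoinRoot (rpoly w s) ⧸ J := Ideal.Quotient.mk J (AdjoinRoot.root (rpoly w s))
  let φ : ∀ d, M.s d →ₗ[k] AdjoinRoot (rpoly w s) ⧸ J := fun d =>
    { toFun := fun x => j (f (sym w x)) * t ^ (d : ZMod w).val
      map_add' := fun x y => by rw [sym_add, map_add, map_add, add_mul]
      map_smul' := fun c x => by
        rw [sym_smul, map_mul, map_mul, AlgHom.commutes, hjc, RingHom.id_apply, Algebra.smul_def,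
          mul_assoc] }
  have h1 : φ 0 ⟨1, M.one'⟩ = 1 := by
    change j (f (sym w ⟨1, M.one'⟩)) * t ^ ((0 : ℤ) : ZMod w).val = 1
    rw [sym_one]
    simp
  have ht : ∀ i l : ZMod w, t ^ i.val * t ^ l.val =
      (Ideal.Quotient.mk J (algebraMap D _ s)) ^ carry w i l * t ^ (i + l).val := by
    intro i l
    have := congrArg (Ideal.Quotient.mk J) (carry_root s i l)
    simpa only [map_mul, map_pow] using this
  have hmul : ∀ (a b : ℤ) (x y : K) (hx : x ∈ M.s a) (hy : y ∈ M.s b),
      φ (a + b) ⟨x * y, M.mul' hx hy⟩ = φ a ⟨x, hx⟩ * φ b ⟨y, hy⟩ := by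
    intro a b x y hx hy
    change j (f (sym w (⟨(⟨x, hx⟩ : M.s a).1 * (⟨y, hy⟩ : M.s b).1, M.mul' hx hy⟩ : M.s (a + b)))) *
      t ^ ((a + b : ℤ) : ZMod w).val = (j (f (sym w ⟨x, hx⟩)) * t ^ (a : ZMod w).val) *
        (j (f (sym w ⟨y, hy⟩)) * t ^ (b : ZMod w).val)
    rw [sym_mul, map_mul, map_mul, AlgHom.commutes, map_pow, map_pow, hjs, Int.cast_add,
      mul_mul_mul_comm, ht, map_mul, map_mul]
    ring
  let Hbar : M.alg →ₐ[k] AdjoinRoot (rpoly w s) ⧸ J := M.liftHom φ h1 hmul
  let ψ : MvPolynomial σ k →ₐ[k] AdjoinRoot (rpoly w s) :=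
    MvPolynomial.aeval fun i => algebraMap D _ (yt i) *
        AdjoinRoot.root (rpoly w s) ^ (e i : ZMod w).val
  have hcomm : Hbar.comp (pol M e y h) = (Ideal.Quotient.mkₐ k J).comp ψ := by
    refine MvPolynomial.algHom_ext fun i => ?_
    rw [AlgHom.comp_apply, AlgHom.comp_apply, pol, MvPolynomial.aeval_X]
    change Hbar (M.el (h i)) = Ideal.Quotient.mk J (ψ (MvPolynomial.X i))
    rw [M.liftHom_el φ h1 hmul, MvPolynomial.aeval_X]
    change j (f (sym w ⟨y i, h i⟩)) * t ^ (e i : ZMod w).val = _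
    rw [← hyt, hj, map_mul, map_pow]
  obtain ⟨H, hH, hH'⟩ := exists_lift_rel hsm J hJ2 ψ.toRingHom Hbar.toRingHom
    (fun p => congrArg (fun g : MvPolynomial σ k →ₐ[k] _ => g p) hcomm)
  have hHc : ∀ c : k, H (algebraMap k M.alg c) = algebraMap k _ c := by
    intro c
    have h2 := hH' (MvPolynomial.C c)
    have h3 : (pol M e y h).toRingHom (MvPolynomial.C c) = algebraMap k M.alg c :=
      (pol M e y h).commutes c
    have h4 : ψ.toRingHom (MvPolynomial.C c) = algebraMap k _ c := ψ.commutes c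
    rw [h3, h4] at h2
    exact h2
  refine ⟨{ H with commutes' := hHc }, ?_, ?_⟩
  · intro d x u hu
    have h2 : Ideal.Quotient.mk J (H (M.el x.2)) = Hbar (M.el x.2) := hH _
    change H (M.el x.2) - _ ∈ J
    rw [← Ideal.Quotient.eq_zero_iff_mem, map_sub, h2, M.liftHom_el φ h1 hmul]
    change j (f (sym w x)) * t ^ (d : ZMod w).val - _ = 0
    rw [← hu, hj, map_mul, map_pow, sub_self]
  · intro i
    have h2 := hH' (MvPolynomial.X i)
    have h3 : (pol M e y h).toRingHom (MvPolynomial.X i) = M.el (h i) :=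
      MvPolynomial.aeval_X _ _
    have h4 : ψ.toRingHom (MvPolynomial.X i) = algebraMap D _ (yt i) *
        AdjoinRoot.root (rpoly w s) ^ (e i : ZMod w).val := MvPolynomial.aeval_X _ _
    rw [h3, h4] at h2
    exact h2

/-- The homomorphism to `U`. -/
private noncomputable def polU (w : ℕ) {e : σ → ℤ} {y : σ → K} (h : ∀ i, y i ∈ M.s (e i)) :
    MvPolynomial (Option σ) k →ₐ[k] M.U w :=
  MvPolynomial.aeval fun i => i.elim (algebraMap k[X] (M.U w) X)
    (fun i => sym w (⟨y i, h i⟩ : M.s (e i)))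

private lemma polU_aeval (w : ℕ) {e : σ → ℤ} {y : σ → K} (h : ∀ i, y i ∈ M.s (e i)) (c : k[X]) :
    polU w h (aeval (MvPolynomial.X none) c) = algebraMap k[X] (M.U w) c := by
  have h1 : (polU w h).comp (aeval (MvPolynomial.X none)) =
      (IsScalarTower.toAlgHom k k[X] (M.U w)) := by
    refine Polynomial.algHom_ext ?_
    rw [AlgHom.comp_apply, aeval_X, polU, MvPolynomial.aeval_X]
    rfl
  exact congrArg (fun g : k[X] →ₐ[k] _ => g c) h1

private theorem polU_formallySmooth {e : σ → ℤ} {y : σ → K} (h : ∀ i, y i ∈ M.s (e i))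
    (hsm : (pol M e y h).toRingHom.FormallySmooth) :
    (polU w h).toRingHom.FormallySmooth := by
  refine formallySmooth_of_lift ?_
  intro D _ I hI ψ f0 hf0
  let : Algebra k[X] D := (ψ.comp (aeval (R := k) (MvPolynomial.X none)).toRingHom).toAlgebra
  have halg : ∀ c : k[X], algebraMap k[X] D c = ψ (aeval (MvPolynomial.X none) c) := fun c => rfl
  let : Algebra k D := ((algebraMap k[X] D).comp C).toAlgebra
  have : IsScalarTower k k[X] D := IsScalarTower.of_algebraMap_eq (fun _ => rfl)
  let f : M.U w →ₐ[k[X]] D ⧸ I :=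
    { f0 with
      commutes' := fun c => by
        have h1 := hf0 (aeval (MvPolynomial.X none) c)
        have h2 : (polU w h).toRingHom (aeval (MvPolynomial.X none) c) =
          algebraMap k[X] (M.U w) c := polU_aeval w h c
        rw [h2] at h1
        exact h1 }
  have hff : ∀ u, f u = f0 u := fun u => rfl
  obtain ⟨s, hs⟩ : ∃ s : D, s = algebraMap k[X] D X := ⟨_, rfl⟩
  have hpX : ∀ i, (polU w h).toRingHom (MvPolynomial.X (some i)) =
      sym w (⟨y i, h i⟩ : M.s (e i)) := fun i => MvPolynomial.aeval_X _ _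
  obtain ⟨H, hH, hHy⟩ := exists_lift_auxL h hsm I hI f s hs (fun i => ψ (MvPolynomial.X (some i)))
    (fun i => by rw [← hf0, hpX]; rfl)
  -- coordinates of the lift
  have hco : ∀ (d : ℤ) (x : M.s d) (u : D), Ideal.Quotient.mk I u = f (sym w x) →
      ∀ i : ZMod w, coord w s i (H (M.el x.2)) - (if i = (d : ZMod w) then u else 0) ∈ I := by
    intro d x u hu i
    have h := coord_mem w s (hH d x u hu) i
    rw [map_sub, ← Algebra.smul_def, map_smul, coord_root_pow_lt _ _ _ _ (ZMod.val_lt _),
      smul_eq_mul, mul_ite, mul_one, mul_zero] at h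
    simpa only [ZMod.val_injective w |>.eq_iff] using h
  have hco0 : ∀ (d : ℤ) (x : M.s d) (i : ZMod w), i ≠ (d : ZMod w) →
      coord w s i (H (M.el x.2)) ∈ I := by
    intro d x i hi
    obtain ⟨u, hu⟩ := Ideal.Quotient.mk_surjective (f (sym w x))
    have := hco d x u hu i
    rwa [if_neg hi, sub_zero] at this
  have hII : ∀ a b : D, a ∈ I → b ∈ I → a * b = 0 := by
    intro a b ha hb
    have : a * b ∈ I ^ 2 := by rw [pow_two]; exact Ideal.mul_mem_mul ha hb
    rw [hI] at this
    exact this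
  let p : M.UPt w D :=
    { h := fun d x => coord w s (d : ZMod w) (H (M.el x.2))
      one := by
        have : M.el (⟨1, M.one'⟩ : M.s 0).2 = 1 := M.el_one
        rw [this, map_one]
        have h := coord_root_pow_lt w s ((0 : ℤ) : ZMod w) 0 (NeZero.pos w)
        rw [pow_zero] at h
        rw [h]
        simp
      add := fun d x y => by
        have : M.el (x + y).2 = M.el x.2 + M.el y.2 := Subtype.ext (by simp)
        rw [this, map_add, map_add]
      smul := fun d c x => by
        have : M.el (c • x).2 = c • M.el x.2 :=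
          Subtype.ext (AddMonoidAlgebra.smul_single _ _ _).symm
        have h2 : c • H (M.el x.2) = (algebraMap k[X] D (C c)) • H (M.el x.2) := by
          rw [Algebra.smul_def, Algebra.smul_def]
          rfl
        rw [this, map_smul, h2, map_smul, smul_eq_mul]
      mul := fun d e x y => by
        have : M.el (⟨x.1 * y.1, M.mul' x.2 y.2⟩ : M.s (d + e)).2 = M.el x.2 * M.el y.2 :=
          (M.el_mul x.2 y.2).symm
        rw [this, map_mul, coord_mul, Finset.sum_eq_single (d : ZMod w),
          Finset.sum_eq_single (e : ZMod w), ← hs]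
        · rw [if_pos (by push_cast; ring)]
          ring
        · intro j _ hj
          rw [if_neg, mul_zero]
          intro h
          apply hj
          push_cast at h
          exact add_left_cancel h
        · intro h; exact absurd (Finset.mem_univ _) h
        · intro i _ hi
          refine Finset.sum_eq_zero fun j _ => ?_
          by_cases hj : j = (e : ZMod w)
          · subst hj
            rw [if_neg, mul_zero]
            intro h
            apply hi
            push_cast at h
            exact add_right_cancel h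
          · rw [hII _ _ (hco0 d x i hi) (hco0 e y j hj), zero_mul]
        · intro h; exact absurd (Finset.mem_univ _) h }
  have hcomp : (Ideal.Quotient.mkₐ k[X] I).comp p.lift = f := by
    refine U_hom_ext fun d x => ?_
    obtain ⟨u, hu⟩ := Ideal.Quotient.mk_surjective (f (sym w x))
    have h := hco d x u hu (d : ZMod w)
    rw [if_pos rfl] at h
    rw [← hu, AlgHom.comp_apply, UPt.lift_sym]
    exact Ideal.Quotient.eq.2 h
  refine ⟨p.lift.toRingHom, fun b => congrArg (fun g : M.U w →ₐ[k[X]] D ⧸ I => g b) hcomp, ?_⟩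
  have hring : p.lift.toRingHom.comp (polU w h).toRingHom = ψ := by
    refine MvPolynomial.ringHom_ext (fun c => ?_) (fun i => ?_)
    · have h1 := polU_aeval w h (C c)
      rw [aeval_C] at h1
      change p.lift (polU w h (algebraMap k _ c)) = ψ (algebraMap k _ c)
      rw [h1, p.lift.commutes, halg, aeval_C]
    · cases i with
      | none =>
        have h1 := polU_aeval w h X
        rw [aeval_X] at h1
        change p.lift (polU w h (MvPolynomial.X none)) = ψ (MvPolynomial.X none)
        rw [h1, p.lift.commutes, halg, aeval_X]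
      | some i =>
        change p.lift ((polU w h).toRingHom (MvPolynomial.X (some i))) =
          ψ (MvPolynomial.X (some i))
        rw [hpX, UPt.lift_sym]
        change coord w s (e i : ZMod w) (H (M.el (h i))) = _
        rw [hHy, ← Algebra.smul_def, map_smul, coord_root_pow_lt _ _ _ _ (ZMod.val_lt _),
          if_pos rfl, smul_eq_mul, mul_one]
  exact fun q => congrArg (fun g : MvPolynomial (Option σ) k →+* D => g q) hring

end lift

theorem LSm.wrees {M : Fam k K ℤ} {e : σ → ℤ} {y : σ → K} (h : LSm M e y) (hfg : M.alg.FG)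
    {w : ℕ} (hw : 0 < w) :
    LSm (M.wrees w) (ocons (-(w : ℤ), (1 : ℤ)) fun i => (e i % w, e i / w)) (ocons 1 y) := by
  have : NeZero w := ⟨hw.ne'⟩
  obtain ⟨hy, hsm⟩ := id h
  have h1 := polU_formallySmooth (w := w) hy hsm
  have hinj : Function.Injective ((M.big w).alg.val.comp (M.toBig w)) :=
    Subtype.val_injective.comp (M.toBig_injective w hfg h.smooth)
  have he : ((M.big w).alg.val.comp (M.toBig w)).range = (M.wrees w).alg := by
    rw [range_toBig, Fam.wrees, ofSub_adjoin_alg]
    rintro F (⟨d, x, hx, rfl⟩ | rfl)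
    · exact ⟨_, _, rfl⟩
    · exact ⟨_, _, rfl⟩
  let E : M.U w ≃ₐ[k] (M.wrees w).alg :=
    (AlgEquiv.ofInjective _ hinj).trans (Subalgebra.equivOfEq _ _ he)
  have hE : ∀ u, ((E u : (M.wrees w).alg) : AddMonoidAlgebra K (ℤ × ℤ)) =
      ((M.toBig w u : (M.big w).alg) : AddMonoidAlgebra K (ℤ × ℤ)) := fun u => rfl
  have hval : ∀ i, ((E (polU w hy (MvPolynomial.X i)) : (M.wrees w).alg) :
      AddMonoidAlgebra K (ℤ × ℤ)) =
      AddMonoidAlgebra.single (ocons (-(w : ℤ), (1 : ℤ)) (fun i => (e i % w, e i / w)) i)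
        (ocons 1 y i) := by
    intro i
    rw [hE, polU, MvPolynomial.aeval_X]
    cases i with
    | none =>
      change ((M.toBig w (algebraMap k[X] (M.U w) X) : (M.big w).alg) :
        AddMonoidAlgebra K (ℤ × ℤ)) = _
      rw [toBig_algebraMap, aeval_X]
      rfl
    | some i =>
      change ((M.toBig w (sym w ⟨y i, hy i⟩) : (M.big w).alg) : AddMonoidAlgebra K (ℤ × ℤ)) = _
      rw [toBig_sym]
      rfl
  have hmem : ∀ i, ocons 1 y i ∈ (M.wrees w).s
      (ocons (-(w : ℤ), (1 : ℤ)) (fun i => (e i % w, e i / w)) i) := by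
    intro i
    rw [← single_mem_alg, ← hval]
    exact (E _).2
  refine ⟨hmem, formallySmooth_equiv_comp h1 E.toRingEquiv fun p => ?_⟩
  have hring : (pol (M.wrees w) _ _ hmem) = (E.toAlgHom.comp (polU w hy)) := by
    refine MvPolynomial.algHom_ext fun i => ?_
    rw [pol, MvPolynomial.aeval_X]
    refine Subtype.ext ?_
    exact (hval i).symm
  exact congrArg (fun g : MvPolynomial (Option σ) k →ₐ[k] _ => g p) hring

end Pool.Agent.MP_b525bf_ag_EL
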