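import Pool.Agent.Lib.MP_b525bf_ag_EL.UREL
import Pool.Agent.Lib.MP_b525bf_ag_h52d.Wr

/-!
# Theorem EL, row WREL

Recipe. As `wr_smooth` (`MP_b525bf_ag_h52d/Wr.lean`): `LSm (M.sharp id c) (c ∘ e) (y i t^(e i))` by
`LSm.of_equiv` and the isomorphism of `sharp_smooth`; row UREL; then the isomorphism
`(M.wr c l).alg ≃ (M.wr c l).alg.map (sharpHom ..) = ((M.sharp ..).wrees l).alg`
(`sharp_wrees_alg`), again `LSm.of_equiv` (`hgen`, `hone` in the proof of `sharp_wrees_alg`).
-/

set_option autoImplicit false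
set_option linter.unusedVariables false

namespace Pool.Agent.MP_b525bf_ag_EL

open Pool.Agent.MP_b525bf_ag AddMonoidAlgebra

variable {k K ι σ : Type} [Field k] [Field K] [Algebra k K] [AddCommGroup ι]

theorem LSm.wr [IsDomain (AddMonoidAlgebra K ι)] {M : Fam k K ι} {e : σ → ι}
    (h : LSm M e (fun _ => (1 : K))) (hfg : M.alg.FG) (c : ι →+ ℤ) {l : ℕ} (hl : 0 < l) :
    LSm (M.wr c l) (ocons ((0 : ι), (1 : ℤ)) fun i => (e i, c (e i) / l)) (fun _ => (1 : K)) := by
  obtain ⟨h1, -⟩ := id h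
  -- the sharp family
  have hinj0 : ∀ a b : ι, AddMonoidHom.id ι a = AddMonoidHom.id ι b → c a = c b → a = b :=
    fun a b h _ => h
  let φ : M.alg ≃ₐ[k] (M.sharp (AddMonoidHom.id ι) c).alg :=
    (M.alg.equivMapOfInjective (sharpHom k (AddMonoidHom.id ι) c)
      (sharpHom_injective _ _ hinj0)).trans
      (Subalgebra.equivOfEq _ _ (Fam.sharp_alg M (AddMonoidHom.id ι) c).symm)
  let y' : σ → FractionRing (AddMonoidAlgebra K ι) := fun i =>
    algebraMap (AddMonoidAlgebra K ι) _ (single (AddMonoidHom.id ι (e i)) 1)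
  have h2 : LSm (M.sharp (AddMonoidHom.id ι) c) (fun i => c (e i)) y' := by
    refine LSm.of_equiv h φ (fun i => Fam.mem_sharp (h1 i)) ?_
    intro i hi
    apply Subtype.ext
    show sharpHom k (AddMonoidHom.id ι) c (single (e i) 1) = single (c (e i)) (y' i)
    rw [sharpHom_single]
  have h3 := LSm.wrees h2 (M.sharp_fg (AddMonoidHom.id ι) c hfg) hl
  -- back to the family
  have hinj : ∀ a b : ι × ℤ, AddMonoidHom.fst ι ℤ a = AddMonoidHom.fst ι ℤ b →
      Fam.wdeg c l a = Fam.wdeg c l b → a = b := by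
    rintro ⟨a, m⟩ ⟨b, n⟩ h h'
    rw [Fam.wdeg_apply, Fam.wdeg_apply, Prod.ext_iff] at h'
    exact Prod.ext h h'.2
  let ε := (M.wr c l).alg.equivMapOfInjective
    (sharpHom k (AddMonoidHom.fst ι ℤ) (Fam.wdeg c l)) (sharpHom_injective _ _ hinj)
  let ψ : ((M.sharp (AddMonoidHom.id ι) c).wrees l).alg ≃ₐ[k] (M.wr c l).alg :=
    (Subalgebra.equivOfEq _ _ (Fam.sharp_wrees_alg M c)).trans ε.symm
  have h' : ∀ i : Option σ, (1 : K) ∈
      (M.wr c l).s (ocons ((0 : ι), (1 : ℤ)) (fun i => (e i, c (e i) / l)) i) := by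
    intro i
    cases i with
    | none => exact M.wr_one c l
    | some i => exact M.wr_gen c l (h1 i)
  refine LSm.of_equiv h3 ψ h' ?_
  intro i hi
  have key : sharpHom k (AddMonoidHom.fst ι ℤ) (Fam.wdeg c l)
      (single (ocons ((0 : ι), (1 : ℤ)) (fun i => (e i, c (e i) / l)) i) 1) =
      single (ocons (-(l : ℤ), (1 : ℤ)) (fun i => (c (e i) % l, c (e i) / l)) i)
        (ocons 1 y' i) := by
    cases i with
    | none =>
      show sharpHom k (AddMonoidHom.fst ι ℤ) (Fam.wdeg c l) (single ((0 : ι), (1 : ℤ)) 1) =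
        single (-(l : ℤ), (1 : ℤ)) 1
      rw [sharpHom_single, Fam.wdeg_apply]
      have h1 : c 0 - l * 1 = -(l : ℤ) := by rw [map_zero]; ring
      rw [h1]
      congr 1
      exact map_one (algebraMap (AddMonoidAlgebra K ι) _)
    | some i =>
      show sharpHom k (AddMonoidHom.fst ι ℤ) (Fam.wdeg c l) (single (e i, c (e i) / l) 1) =
        single (c (e i) % l, c (e i) / l) (y' i)
      rw [sharpHom_single, Fam.wdeg_apply]
      have h1 : c (e i) - l * (c (e i) / l) = c (e i) % l := by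
        have := Int.emod_add_mul_ediv (c (e i)) l
        linarith
      rw [h1]
      rfl
  show ε.symm (Subalgebra.equivOfEq _ _ (Fam.sharp_wrees_alg M c) _) = _
  rw [AlgEquiv.symm_apply_eq]
  apply Subtype.ext
  exact key.symm

end Pool.Agent.MP_b525bf_ag_EL
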